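import Pool.Agent.Lib.MP_02db74_an.Split

/-!
Realisation of the splitting game by functions with compact support in a box.
-/

open MeasureTheory Metric Filter Topology

namespace Pool.Agent.Lib.MP_02db74_an

variable {n : ℕ}

/-- In every box there is a small compactly supported perturbation of the state `d` which stays
in `U` and sits in `T` on a fraction `p` of the box. -/
def Cell (U T : Set (Fin n → ℝ)) (d : Fin n → ℝ) (p : ℝ) : Prop :=
  ∀ l h : Fin n → ℝ, (∀ j, l j < h j) → ∀ η > 0,
    ∃ (w : (Fin n → ℝ) → ℝ) (b : (Fin n → ℝ) → Fin n → ℝ) (G : Set (Fin n → ℝ)),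
      Continuous w ∧ (∀ x, |w x| ≤ η) ∧ (∀ x ∉ box l h, ∀ᶠ y in 𝓝 x, w y = 0) ∧
      (∀ x j, D2 w j x (b x j)) ∧ (∀ x ∈ box l h, d + b x ∈ U) ∧
      MeasurableSet G ∧ G ⊆ box l h ∧ (∀ x ∈ G, d + b x ∈ T) ∧
      (p - η) * volume.real (box l h) ≤ volume.real G

theorem measurableSet_box (l h : Fin n → ℝ) : MeasurableSet (box l h) :=
  (isOpen_box l h).measurableSet

theorem Cell.target {U T : Set (Fin n → ℝ)} {d : Fin n → ℝ} (hU : d ∈ U) (hT : d ∈ T) :
    Cell U T d 1 := by
  intro l h _ η hη
  refine ⟨fun _ => 0, fun _ => 0, box l h, continuous_const, fun x => ?_, fun x _ => ?_,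
    fun x j => ?_, fun x _ => ?_, measurableSet_box l h, subset_rfl, fun x _ => ?_, ?_⟩
  · simpa using hη.le
  · exact Eventually.of_forall fun _ => rfl
  · exact D2.of_eventually_zero (Eventually.of_forall fun _ => rfl) j
  · simpa using hU
  · simpa using hT
  · have : 0 ≤ volume.real (box l h) := measureReal_nonneg
    nlinarith

theorem Cell.stop {U T : Set (Fin n → ℝ)} {d : Fin n → ℝ} (hU : d ∈ U) :
    Cell U T d 0 := by
  intro l h _ η hη
  refine ⟨fun _ => 0, fun _ => 0, ∅, continuous_const, fun x => ?_, fun x _ => ?_,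
    fun x j => ?_, fun x _ => ?_, MeasurableSet.empty, Set.empty_subset _, fun x hx => ?_, ?_⟩
  · simpa using hη.le
  · exact Eventually.of_forall fun _ => rfl
  · exact D2.of_eventually_zero (Eventually.of_forall fun _ => rfl) j
  · simpa using hU
  · exact hx.elim
  · have : 0 ≤ volume.real (box l h) := measureReal_nonneg
    simp only [measureReal_empty]
    nlinarith

theorem Cell.split {U T : Set (Fin n → ℝ)} (hU : IsOpen U) {x : Fin n → ℝ} (i : Fin n)
    {α β p q : ℝ} (hα : 0 < α) (hβ : 0 < β) (hseg : ∀ t ∈ Set.Icc (-β) α, x + Pi.single i t ∈ U)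
    (hp0 : 0 ≤ p) (hp1 : p ≤ 1) (hq0 : 0 ≤ q) (hq1 : q ≤ 1)
    (hp : Cell U T (x + Pi.single i α) p) (hq : Cell U T (x + Pi.single i (-β)) q) :
    Cell U T x ((β * p + α * q) / (α + β)) := by
  classical
  intro l h hlh η hη
  -- a neighbourhood of the segment
  obtain ⟨η0, hη0, hη0U⟩ : ∃ η0 > 0, ∀ t ∈ Set.Icc (-β) α, ∀ y : Fin n → ℝ,
      (∀ j, |y j - (Pi.single i t : Fin n → ℝ) j| ≤ η0) → x + y ∈ U := by
    have hc : Continuous fun t : ℝ => x + (Pi.single i t : Fin n → ℝ) := by
      have h0 : Continuous fun t : ℝ => (Pi.single i t : Fin n → ℝ) := by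
        refine continuous_pi fun j => ?_
        by_cases hji : j = i
        · subst hji
          simp only [Pi.single_eq_same]
          exact continuous_id
        · simpa [Pi.single_apply, hji] using continuous_const
      exact continuous_const.add h0
    have hK : IsCompact ((fun t : ℝ => x + (Pi.single i t : Fin n → ℝ)) '' Set.Icc (-β) α) :=
      isCompact_Icc.image hc
    obtain ⟨δ, hδ, hδU⟩ := hK.exists_cthickening_subset_open hU (by
      rintro _ ⟨t, ht, rfl⟩
      exact hseg t ht)
    refine ⟨δ, hδ, fun t ht y hy => hδU ?_⟩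
    refine mem_cthickening_of_dist_le _ (x + Pi.single i t) δ _ ⟨t, ht, rfl⟩ ?_
    rw [dist_add_left, dist_pi_le_iff hδ.le]
    intro j
    rw [Real.dist_eq]
    exact hy j
  set ε : ℝ := min η0 (η / 3) with hε
  have hε0 : 0 < ε := lt_min hη0 (by positivity)
  have hε1 : ε ≤ η0 := min_le_left _ _
  have hε2 : ε ≤ η / 3 := min_le_right _ _
  obtain ⟨w0, b0, m, L, H, hw0c, hw0b, hw0z, hw0d, hseg0, hLH, hsub, hdisj, hval, hv0, hv1⟩ :=
    exists_split i hα hβ hε0 hlh
  -- the cells
  have hcell : ∀ k : Fin m × Fin 3,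
      Cell U T (x + Pi.single i (if k.2 = 1 then -β else α)) (if k.2 = 1 then q else p) := by
    intro k
    split_ifs
    · exact hq
    · exact hp
  choose w b G hwc hwb hwz hwd hwU hGm hGs hGT hGv using
    fun k => hcell k (L k) (H k) (hLH k) ε hε0
  -- off their boxes the pieces vanish
  have hwz' : ∀ k, ∀ y ∉ box (L k) (H k), w k y = 0 := fun k y hy => (hwz k y hy).self_of_nhds
  have hbz' : ∀ k, ∀ y ∉ box (L k) (H k), b k y = 0 := by
    intro k y hy
    funext j
    exact (hwd k y j).unique (D2.of_eventually_zero (hwz k y hy) j)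
  have hsumw : ∀ k y, y ∈ box (L k) (H k) → ∑ k', w k' y = w k y := by
    intro k y hy
    refine Finset.sum_eq_single k (fun k' _ hk' => hwz' k' y ?_) (fun h => absurd (Finset.mem_univ k) h)
    exact fun hy' => (Set.disjoint_left.1 (hdisj hk')) hy' hy
  have hsumb : ∀ k y, y ∈ box (L k) (H k) → ∑ k', b k' y = b k y := by
    intro k y hy
    refine Finset.sum_eq_single k (fun k' _ hk' => hbz' k' y ?_) (fun h => absurd (Finset.mem_univ k) h)
    exact fun hy' => (Set.disjoint_left.1 (hdisj hk')) hy' hy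
  refine ⟨fun y => w0 y + ∑ k, w k y, fun y => b0 y + ∑ k, b k y, ⋃ k, G k, ?_, ?_, ?_, ?_, ?_, ?_,
    ?_, ?_, ?_⟩
  · exact hw0c.add (continuous_finsetSum _ fun k _ => hwc k)
  · intro y
    have h1 : |∑ k, w k y| ≤ ε := by
      by_cases hy : ∃ k, y ∈ box (L k) (H k)
      · obtain ⟨k, hk⟩ := hy
        rw [hsumw k y hk]
        exact hwb k y
      · push Not at hy
        rw [Finset.sum_eq_zero fun k _ => hwz' k y (hy k), abs_zero]
        exact hε0.le
    have h2 := hw0b y
    have h3 := abs_add_le (w0 y) (∑ k, w k y)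
    linarith
  · intro y hy
    have h1 : ∀ᶠ z in 𝓝 y, ∀ k, w k z = 0 :=
      eventually_all.2 fun k => hwz k y fun hk => hy (hsub k hk)
    filter_upwards [hw0z y hy, h1] with z hz1 hz2
    rw [hz1, Finset.sum_eq_zero fun k _ => hz2 k, add_zero]
  · intro y j
    have h1 := (hw0d y j).add (D2.sum Finset.univ fun k _ => hwd k y j)
    have h2 : (b0 y + ∑ k, b k y) j = b0 y j + ∑ k, b k y j := by
      rw [Pi.add_apply, Finset.sum_apply]
    simp only
    rw [h2]
    exact h1
  · intro y hy
    by_cases hyk : ∃ k, y ∈ box (L k) (H k)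
    · obtain ⟨k, hk⟩ := hyk
      simp only
      rw [hsumb k y hk, hval k y hk, ← add_assoc]
      exact hwU k y hk
    · push Not at hyk
      simp only
      rw [Finset.sum_eq_zero fun k _ => hbz' k y (hyk k), add_zero]
      obtain ⟨t, ht, h1⟩ := hseg0 y
      exact hη0U t ht _ fun j => (h1 j).trans hε1
  · exact MeasurableSet.iUnion fun k => hGm k
  · exact Set.iUnion_subset fun k => (hGs k).trans (hsub k)
  · intro y hy
    obtain ⟨k, hk⟩ := Set.mem_iUnion.1 hy
    have hk' := hGs k hk
    simp only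
    rw [hsumb k y hk', hval k y hk', ← add_assoc]
    exact hGT k y hk
  · -- the volume
    have hfin : ∀ k, volume (G k) ≠ ⊤ := fun k =>
      measure_ne_top_of_subset (hGs k) (volume_box_ne_top _ _)
    have hdG : Pairwise (Function.onFun Disjoint G) := fun k k' hkk' =>
      (hdisj hkk').mono (hGs k) (hGs k')
    have hG : volume.real (⋃ k, G k) = ∑ k, volume.real (G k) := by
      rw [measureReal_iUnion_fintype hdG hGm hfin]
    have hB : ∑ k, volume.real (box (L k) (H k)) ≤ volume.real (box l h) := by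
      rw [← measureReal_iUnion_fintype (fun k k' hkk' => hdisj hkk')
        (fun k => measurableSet_box _ _) (fun k => volume_box_ne_top _ _)]
      exact measureReal_mono (Set.iUnion_subset hsub) (volume_box_ne_top _ _)
    set V := volume.real (box l h) with hV
    have hVnn : 0 ≤ V := measureReal_nonneg
    set S0 := ∑ k, (if k.2 = 1 then 0 else volume.real (box (L k) (H k))) with hS0
    set S1 := ∑ k, (if k.2 = 1 then volume.real (box (L k) (H k)) else 0) with hS1
    have hS : S0 + S1 = ∑ k, volume.real (box (L k) (H k)) := by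
      rw [hS0, hS1, ← Finset.sum_add_distrib]
      refine Finset.sum_congr rfl fun k _ => ?_
      split_ifs <;> ring
    have hlow : p * S0 + q * S1 - ε * (S0 + S1) ≤ ∑ k, volume.real (G k) := by
      rw [hS, hS0, hS1, Finset.mul_sum, Finset.mul_sum, Finset.mul_sum, ← Finset.sum_add_distrib,
        ← Finset.sum_sub_distrib]
      refine Finset.sum_le_sum fun k _ => ?_
      have h1 := hGv k
      split_ifs at h1 ⊢ <;> linarith
    rw [hG]
    have hαβ : 0 < α + β := by positivity
    have h1 : p * ((β / (α + β) - ε) * V) ≤ p * S0 := mul_le_mul_of_nonneg_left hv0 hp0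
    have h2 : q * ((α / (α + β) - ε) * V) ≤ q * S1 := mul_le_mul_of_nonneg_left hv1 hq0
    have h3 : ε * (S0 + S1) ≤ ε * V := mul_le_mul_of_nonneg_left (by rw [hS]; exact hB) hε0.le
    have h4 : (β * p + α * q) / (α + β) = p * (β / (α + β)) + q * (α / (α + β)) := by
      field_simp
    have h5 : ε * V * (p + q) ≤ ε * V * 2 :=
      mul_le_mul_of_nonneg_left (by linarith) (by positivity)
    have h6 : 3 * ε * V ≤ η * V := mul_le_mul_of_nonneg_right (by linarith) hVnn
    rw [h4]
    nlinarith

theorem Reach.mem_Icc {U T : Set (Fin n → ℝ)} {x : Fin n → ℝ} {p : ℝ} (h : Reach U T x p) :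
    0 ≤ p ∧ p ≤ 1 := by
  induction h with
  | target _ _ => exact ⟨zero_le_one, le_rfl⟩
  | stop _ => exact ⟨le_rfl, zero_le_one⟩
  | split i hα hβ _ _ _ hp hq =>
    constructor
    · have := hp.1
      have := hq.1
      positivity
    · rw [div_le_one (by positivity)]
      nlinarith [mul_le_mul_of_nonneg_left hp.2 hβ.le, mul_le_mul_of_nonneg_left hq.2 hα.le]

theorem Reach.cell {U T : Set (Fin n → ℝ)} (hU : IsOpen U) {x : Fin n → ℝ} {p : ℝ}
    (h : Reach U T x p) : Cell U T x p := by
  induction h with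
  | target h1 h2 => exact Cell.target h1 h2
  | stop h1 => exact Cell.stop h1
  | split i hα hβ hseg hp hq ihp ihq =>
    exact Cell.split hU i hα hβ hseg hp.mem_Icc.1 hp.mem_Icc.2 hq.mem_Icc.1 hq.mem_Icc.2 ihp ihq

end Pool.Agent.Lib.MP_02db74_an
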