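import Mathlib

namespace Pool.Agent.Lib.MP_02db74_an

/-- The open cone of vectors whose positive mass and negative mass are comparable with
constant `κ`. -/
def Cone (n : ℕ) (κ : ℝ) : Set (Fin n → ℝ) :=
  {v | ∑ i, max (v i) 0 < κ * ∑ i, max (-v i) 0 ∧ ∑ i, max (-v i) 0 < κ * ∑ i, max (v i) 0}

/-- `Reach U T x p`: a finite coordinate-split tree inside `U`, rooted at `x`, reaches the
target set `T` with probability `p` (splits are martingale steps along one coordinate). -/
inductive Reach {n : ℕ} (U T : Set (Fin n → ℝ)) : (Fin n → ℝ) → ℝ → Prop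
  | target {x} : x ∈ U → x ∈ T → Reach U T x 1
  | stop {x} : x ∈ U → Reach U T x 0
  | split {x} (i : Fin n) {α β p q : ℝ} : 0 < α → 0 < β →
      (∀ t ∈ Set.Icc (-β) α, x + Pi.single i t ∈ U) →
      Reach U T (x + Pi.single i α) p → Reach U T (x + Pi.single i (-β)) q →
      Reach U T x ((β * p + α * q) / (α + β))

end Pool.Agent.Lib.MP_02db74_an
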