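import Mathlib
import Pool.Agent.Lib.MP_02db74_an.Reach

/-!
Basic facts on `Reach` and `Cone` (best reachable probability `rr`, escape probability `ee`,
the split rule, the boxRule rule, cone membership) and the main comparison step `step_two`
for the chain estimate of `Chain.lean`.
-/

namespace Pool.Agent.Lib.MP_02db74_an

open Finset

section Basic

variable {n : ℕ} {U T T' : Set (Fin n → ℝ)} {x : Fin n → ℝ} {p : ℝ}

lemma Reach.mem (h : Reach U T x p) : x ∈ U := by
  cases h with
  | target h _ => exact h
  | stop h => exact h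
  | split i hα hβ hU _ _ =>
    have := hU 0 ⟨by linarith, by linarith⟩
    simpa using this

lemma Reach.bounds (h : Reach U T x p) : 0 ≤ p ∧ p ≤ 1 := by
  induction h with
  | target => exact ⟨by norm_num, le_rfl⟩
  | stop => exact ⟨le_rfl, by norm_num⟩
  | @split x i α β p q hα hβ _ _ _ ih1 ih2 =>
    have h0 : 0 < α + β := by linarith
    constructor
    · apply div_nonneg _ h0.le
      have := mul_nonneg hβ.le ih1.1
      have := mul_nonneg hα.le ih2.1
      linarith
    · rw [div_le_one h0]
      have := mul_le_mul_of_nonneg_left ih1.2 hβ.le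
      have := mul_le_mul_of_nonneg_left ih2.2 hα.le
      linarith

/-- The best reachable probability. -/
noncomputable def rr (U T : Set (Fin n → ℝ)) (x : Fin n → ℝ) : ℝ := sSup {p | Reach U T x p}

/-- The escape probability. -/
noncomputable def ee (U T : Set (Fin n → ℝ)) (x : Fin n → ℝ) : ℝ := 1 - rr U T x

lemma bdd_reach : BddAbove {p | Reach U T x p} := ⟨1, fun _ hp => hp.bounds.2⟩

lemma le_rr (h : Reach U T x p) : p ≤ rr U T x := le_csSup bdd_reach h

lemma rr_nonneg (hx : x ∈ U) : 0 ≤ rr U T x := le_rr (Reach.stop hx)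

lemma rr_le_one (hx : x ∈ U) : rr U T x ≤ 1 :=
  csSup_le ⟨0, Reach.stop hx⟩ (fun _ hp => (Reach.bounds hp).2)

lemma rr_eq_one (hx : x ∈ U) (hT : x ∈ T) : rr U T x = 1 :=
  le_antisymm (rr_le_one hx) (le_rr (Reach.target hx hT))

lemma ee_nonneg (hx : x ∈ U) : 0 ≤ ee U T x := by
  have := rr_le_one (T := T) hx
  unfold ee; linarith

lemma ee_le_one (hx : x ∈ U) : ee U T x ≤ 1 := by
  have := rr_nonneg (T := T) hx
  unfold ee; linarith

lemma ee_eq_zero (hx : x ∈ U) (hT : x ∈ T) : ee U T x = 0 := by
  unfold ee; rw [rr_eq_one hx hT]; ring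

lemma exists_reach_gt (hx : x ∈ U) {a : ℝ} (h : a < rr U T x) : ∃ q, a < q ∧ Reach U T x q := by
  obtain ⟨q, hq, hlt⟩ := exists_lt_of_lt_csSup (s := {p | Reach U T x p}) ⟨0, Reach.stop hx⟩ h
  exact ⟨q, hlt, hq⟩

lemma update_eq_add (x : Fin n → ℝ) (i : Fin n) (t : ℝ) :
    Function.update x i t = x + Pi.single i (t - x i) := by
  funext j
  by_cases h : j = i
  · subst h; simp
  · simp [h]

lemma rr_split (i : Fin n) {lo hi : ℝ} (hlo : lo ≤ x i) (hhi : x i ≤ hi) (hlt : lo < hi)
    (hU : ∀ t ∈ Set.Icc lo hi, Function.update x i t ∈ U) :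
    (hi - x i) / (hi - lo) * rr U T (Function.update x i lo)
      + (1 - (hi - x i) / (hi - lo)) * rr U T (Function.update x i hi) ≤ rr U T x := by
  have hd : 0 < hi - lo := by linarith
  rcases hlo.eq_or_lt with h | h1
  · have : Function.update x i lo = x := by rw [h]; exact Function.update_eq_self i x
    rw [this, ← h, div_self hd.ne']
    simp
  rcases hhi.eq_or_lt with h | h2
  · have : Function.update x i hi = x := by rw [← h]; exact Function.update_eq_self i x
    rw [this, ← h]
    simp
  have hmlo : Function.update x i lo ∈ U := hU lo ⟨le_rfl, hlt.le⟩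
  have hmhi : Function.update x i hi ∈ U := hU hi ⟨hlt.le, le_rfl⟩
  apply le_of_forall_pos_le_add
  intro ε hε
  obtain ⟨q, hq1, hq2⟩ := exists_reach_gt (T := T) hmlo (a := rr U T (Function.update x i lo) - ε)
    (by linarith)
  obtain ⟨p, hp1, hp2⟩ := exists_reach_gt (T := T) hmhi (a := rr U T (Function.update x i hi) - ε)
    (by linarith)
  have hα : 0 < hi - x i := by linarith
  have hβ : 0 < x i - lo := by linarith
  have key : Reach U T x (((x i - lo) * p + (hi - x i) * q) / ((hi - x i) + (x i - lo))) := by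
    apply Reach.split i hα hβ
    · intro t ht
      have h3 := hU (x i + t) ⟨by linarith [ht.1], by linarith [ht.2]⟩
      rw [update_eq_add] at h3
      simpa using h3
    · rw [update_eq_add] at hp2
      exact hp2
    · rw [update_eq_add] at hq2
      have : -(x i - lo) = lo - x i := by ring
      rw [this]
      exact hq2
  have h4 := le_rr key
  have e1 : (1 - (hi - x i) / (hi - lo)) = (x i - lo) / (hi - lo) := by
    field_simp
    ring
  rw [e1]
  have e2 : (hi - x i) + (x i - lo) = hi - lo := by ring
  rw [e2] at h4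
  have h5 : (hi - x i) / (hi - lo) * (rr U T (Function.update x i lo) - ε)
      + (x i - lo) / (hi - lo) * (rr U T (Function.update x i hi) - ε)
      ≤ ((x i - lo) * p + (hi - x i) * q) / (hi - lo) := by
    have e3 : ((x i - lo) * p + (hi - x i) * q) / (hi - lo)
      = (hi - x i) / (hi - lo) * q + (x i - lo) / (hi - lo) * p := by ring
    rw [e3]
    have a1 : 0 ≤ (hi - x i) / (hi - lo) := by positivity
    have a2 : 0 ≤ (x i - lo) / (hi - lo) := by positivity
    exact add_le_add (mul_le_mul_of_nonneg_left hq1.le a1) (mul_le_mul_of_nonneg_left hp1.le a2)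
  have e4 : (hi - x i) / (hi - lo) + (x i - lo) / (hi - lo) = 1 := by
    field_simp
    ring
  have e5 : (hi - x i) / (hi - lo) * (rr U T (Function.update x i lo) - ε)
      + (x i - lo) / (hi - lo) * (rr U T (Function.update x i hi) - ε)
      = (hi - x i) / (hi - lo) * rr U T (Function.update x i lo)
      + (x i - lo) / (hi - lo) * rr U T (Function.update x i hi) - ε := by
    linear_combination (-ε) * e4
  linarith

lemma ee_split (i : Fin n) {lo hi : ℝ} (hlo : lo ≤ x i) (hhi : x i ≤ hi) (hlt : lo < hi)
    (hU : ∀ t ∈ Set.Icc lo hi, Function.update x i t ∈ U) :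
    ee U T x ≤ (hi - x i) / (hi - lo) * ee U T (Function.update x i lo)
      + (1 - (hi - x i) / (hi - lo)) * ee U T (Function.update x i hi) := by
  have := rr_split (T := T) i hlo hhi hlt hU
  unfold ee
  linarith

lemma boxRule {U T : Set (Fin n → ℝ)} {ξ lo hi glo ghi d : ℝ} (hlo : lo ≤ ξ) (hhi : ξ ≤ hi)
    (hlt : lo < hi) (S : Finset (Fin n)) : ∀ (x : Fin n → ℝ) (c : ℝ), (∀ i ∈ S, x i = ξ) →
    (∀ y : Fin n → ℝ, (∀ i ∉ S, y i = x i) → (∀ i ∈ S, lo ≤ y i ∧ y i ≤ hi) → y ∈ U) →
    (∀ B ⊆ S, ee U T (fun i => if i ∈ B then lo else if i ∈ S then hi else x i)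
      ≤ c * glo ^ B.card * ghi ^ (S.card - B.card) + d) →
    ee U T x ≤ c * ((hi - ξ) / (hi - lo) * glo + (1 - (hi - ξ) / (hi - lo)) * ghi) ^ S.card + d := by
  induction S using Finset.induction_on with
  | empty =>
    intro x c _ _ h
    have := h ∅ (Finset.Subset.refl _)
    simpa using this
  | insert i S hiS ih =>
    intro x c hx hU hB
    have hxi : x i = ξ := hx i (Finset.mem_insert_self i S)
    set π : ℝ := (hi - ξ) / (hi - lo) with hπ
    have hd : 0 < hi - lo := by linarith
    have hπ0 : 0 ≤ π := div_nonneg (by linarith) hd.le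
    have hπ1 : π ≤ 1 := by rw [hπ, div_le_one hd]; linarith
    have hsp := ee_split (U := U) (T := T) (x := x) i (lo := lo) (hi := hi) (by rw [hxi]; exact hlo)
      (by rw [hxi]; exact hhi) hlt (by
        intro t ht
        apply hU
        · intro j hj
          have : j ≠ i := fun h => hj (h ▸ Finset.mem_insert_self i S)
          rw [Function.update_of_ne this]
        · intro j hj
          by_cases hji : j = i
          · subst hji; rw [Function.update_self]; exact ht
          · rw [Function.update_of_ne hji, hx j hj]; exact ⟨hlo, hhi⟩)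
    rw [hxi, ← hπ] at hsp
    have ihlo := ih (Function.update x i lo) (c * glo) (by
        intro j hj
        have : j ≠ i := fun h => hiS (h ▸ hj)
        rw [Function.update_of_ne this]
        exact hx j (Finset.mem_insert_of_mem hj)) (by
        intro y hy1 hy2
        apply hU
        · intro j hj
          rw [hy1 j (fun h => hj (Finset.mem_insert_of_mem h))]
          have : j ≠ i := fun h => hj (h ▸ Finset.mem_insert_self i S)
          rw [Function.update_of_ne this]
        · intro j hj
          by_cases hji : j = i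
          · subst hji
            rw [hy1 j hiS, Function.update_self]
            exact ⟨le_rfl, hlt.le⟩
          · exact hy2 j (Finset.mem_of_mem_insert_of_ne hj hji)) (by
        intro B hBS
        have hiB : i ∉ B := fun h => hiS (hBS h)
        have h1 := hB (insert i B) (Finset.insert_subset_insert i hBS)
        have e1 : (fun j => if j ∈ insert i B then lo else if j ∈ insert i S then hi else x j)
          = (fun j => if j ∈ B then lo else if j ∈ S then hi else Function.update x i lo j) := by
          funext j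
          by_cases hji : j = i
          · subst hji
            simp [hiB, hiS]
          · simp [hji]
        rw [e1, Finset.card_insert_of_notMem hiB, Finset.card_insert_of_notMem hiS,
          Nat.add_sub_add_right] at h1
        calc _ ≤ _ := h1
          _ = _ := by ring)
    have ihhi := ih (Function.update x i hi) (c * ghi) (by
        intro j hj
        have : j ≠ i := fun h => hiS (h ▸ hj)
        rw [Function.update_of_ne this]
        exact hx j (Finset.mem_insert_of_mem hj)) (by
        intro y hy1 hy2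
        apply hU
        · intro j hj
          rw [hy1 j (fun h => hj (Finset.mem_insert_of_mem h))]
          have : j ≠ i := fun h => hj (h ▸ Finset.mem_insert_self i S)
          rw [Function.update_of_ne this]
        · intro j hj
          by_cases hji : j = i
          · subst hji
            rw [hy1 j hiS, Function.update_self]
            exact ⟨hlt.le, le_rfl⟩
          · exact hy2 j (Finset.mem_of_mem_insert_of_ne hj hji)) (by
        intro B hBS
        have hiB : i ∉ B := fun h => hiS (hBS h)
        have h1 := hB B (hBS.trans (Finset.subset_insert i S))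
        have e1 : (fun j => if j ∈ B then lo else if j ∈ insert i S then hi else x j)
          = (fun j => if j ∈ B then lo else if j ∈ S then hi else Function.update x i hi j) := by
          funext j
          by_cases hji : j = i
          · subst hji
            simp [hiB, hiS]
          · simp [hji]
        rw [e1, Finset.card_insert_of_notMem hiS] at h1
        have hc := Finset.card_le_card hBS
        have e2 : S.card + 1 - B.card = (S.card - B.card) + 1 := by omega
        rw [e2] at h1
        calc _ ≤ _ := h1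
          _ = _ := by ring)
    rw [Finset.card_insert_of_notMem hiS]
    calc ee U T x ≤ π * ee U T (Function.update x i lo)
          + (1 - π) * ee U T (Function.update x i hi) := hsp
      _ ≤ π * (c * glo * (π * glo + (1 - π) * ghi) ^ S.card + d)
          + (1 - π) * (c * ghi * (π * glo + (1 - π) * ghi) ^ S.card + d) :=
        add_le_add (mul_le_mul_of_nonneg_left ihlo hπ0)
          (mul_le_mul_of_nonneg_left ihhi (by linarith))
      _ = c * (π * glo + (1 - π) * ghi) ^ (S.card + 1) + d := by ring

/-- Constant version of the boxRule rule. -/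
lemma box_const {U T : Set (Fin n → ℝ)} {ξ lo hi d : ℝ} (hlo : lo ≤ ξ) (hhi : ξ ≤ hi)
    (hlt : lo < hi) (S : Finset (Fin n)) (x : Fin n → ℝ) (hx : ∀ i ∈ S, x i = ξ)
    (hU : ∀ y : Fin n → ℝ, (∀ i ∉ S, y i = x i) → (∀ i ∈ S, lo ≤ y i ∧ y i ≤ hi) → y ∈ U)
    (hB : ∀ B ⊆ S, ee U T (fun i => if i ∈ B then lo else if i ∈ S then hi else x i) ≤ d) :
    ee U T x ≤ d := by
  have := boxRule (U := U) (T := T) (glo := 1) (ghi := 1) (d := d) hlo hhi hlt S x 0 hx hU (by
    intro B h
    have := hB B h
    simpa using this)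
  simpa using this

end Basic

section ConeFacts

variable {n : ℕ} {κ : ℝ}

lemma cone_mem {v : Fin n → ℝ} {P B : ℝ} (hP : 0 < P) (h1 : ∃ i, P ≤ v i) (h2 : ∃ i, v i ≤ -P)
    (hB : ∀ i, |v i| ≤ B) (hκ : n * B < κ * P) : v ∈ Cone n κ := by
  obtain ⟨i1, h1⟩ := h1
  obtain ⟨i2, h2⟩ := h2
  have hB0 : 0 ≤ B := (abs_nonneg _).trans (hB i1)
  have hκ0 : 0 < κ := by
    by_contra h
    push Not at h
    have : κ * P ≤ 0 := mul_nonpos_of_nonpos_of_nonneg h hP.le
    have : 0 ≤ (n : ℝ) * B := by positivity
    linarith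
  have s1 : ∑ i, max (v i) 0 ≤ n * B := by
    calc ∑ i, max (v i) 0 ≤ ∑ _i : Fin n, B :=
          Finset.sum_le_sum (fun i _ => max_le ((le_abs_self _).trans (hB i)) hB0)
      _ = n * B := by simp
  have s2 : ∑ i, max (-v i) 0 ≤ n * B := by
    calc ∑ i, max (-v i) 0 ≤ ∑ _i : Fin n, B :=
          Finset.sum_le_sum (fun i _ => max_le ((neg_le_abs _).trans (hB i)) hB0)
      _ = n * B := by simp
  have s3 : P ≤ ∑ i, max (v i) 0 := by
    calc P ≤ max (v i1) 0 := le_max_of_le_left h1
      _ ≤ ∑ i, max (v i) 0 := Finset.single_le_sum (f := fun i => max (v i) 0)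
          (fun i _ => le_max_right _ _) (Finset.mem_univ i1)
  have s4 : P ≤ ∑ i, max (-v i) 0 := by
    calc P ≤ max (-v i2) 0 := le_max_of_le_left (by linarith)
      _ ≤ ∑ i, max (-v i) 0 := Finset.single_le_sum (f := fun i => max (-v i) 0)
          (fun i _ => le_max_right _ _) (Finset.mem_univ i2)
  constructor
  · calc _ ≤ _ := s1
      _ < _ := hκ
      _ ≤ _ := mul_le_mul_of_nonneg_left s4 hκ0.le
  · calc _ ≤ _ := s2
      _ < _ := hκ
      _ ≤ _ := mul_le_mul_of_nonneg_left s3 hκ0.le

lemma cone_neg {v : Fin n → ℝ} (h : v ∈ Cone n κ) : -v ∈ Cone n κ := by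
  obtain ⟨h1, h2⟩ := h
  constructor
  · simpa using h2
  · simpa using h1

lemma cone_pos {v : Fin n → ℝ} (h : v ∈ Cone n κ) : ∃ i, 0 < v i := by
  by_contra hc
  push Not at hc
  obtain ⟨h1, h2⟩ := h
  have e1 : ∑ i, max (v i) 0 = 0 := Finset.sum_eq_zero (fun i _ => max_eq_right (hc i))
  rw [e1] at h2
  have : 0 ≤ ∑ i, max (-v i) 0 := Finset.sum_nonneg (fun i _ => le_max_right _ _)
  linarith

lemma reach_neg {T : Set (Fin n → ℝ)} (hT : ∀ v ∈ T, -v ∈ T) {x : Fin n → ℝ} {p : ℝ}
    (h : Reach (Cone n κ) T x p) : Reach (Cone n κ) T (-x) p := by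
  induction h with
  | target h1 h2 => exact Reach.target (cone_neg h1) (hT _ h2)
  | stop h => exact Reach.stop (cone_neg h)
  | @split x i α β p q hα hβ hU _ _ ih1 ih2 =>
    have key : Reach (Cone n κ) T (-x) ((α * q + β * p) / (β + α)) := by
      apply Reach.split i hβ hα
      · intro t ht
        have h3 := cone_neg (hU (-t) ⟨by linarith [ht.2], by linarith [ht.1]⟩)
        have e : -x + Pi.single i t = -(x + Pi.single i (-t)) := by
          rw [Pi.single_neg]; abel
        rw [e]; exact h3
      · have e : -x + Pi.single i β = -(x + Pi.single i (-β)) := by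
          rw [Pi.single_neg]; abel
        rw [e]; exact ih2
      · have e : -x + Pi.single i (-α) = -(x + Pi.single i α) := by
          rw [Pi.single_neg]; abel
        rw [e]; exact ih1
    have e : (α * q + β * p) / (β + α) = (β * p + α * q) / (α + β) := by
      rw [add_comm β α, add_comm (α * q)]
    rw [e] at key
    exact key

lemma rr_neg_le {T : Set (Fin n → ℝ)} (hT : ∀ v ∈ T, -v ∈ T) {x : Fin n → ℝ}
    (hx : x ∈ Cone n κ) : rr (Cone n κ) T x ≤ rr (Cone n κ) T (-x) :=
  csSup_le ⟨0, Reach.stop hx⟩ (fun _ hp => le_rr (reach_neg hT hp))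

lemma ee_neg_le {T : Set (Fin n → ℝ)} (hT : ∀ v ∈ T, -v ∈ T) {x : Fin n → ℝ}
    (hx : -x ∈ Cone n κ) : ee (Cone n κ) T x ≤ ee (Cone n κ) T (-x) := by
  have := rr_neg_le hT hx
  rw [neg_neg] at this
  unfold ee
  linarith

end ConeFacts

section States

variable {n : ℕ}

/-- The two-level state: `P` on `A`, `-N` off `A`. -/
def st (A : Finset (Fin n)) (N P : ℝ) : Fin n → ℝ := fun i => if i ∈ A then P else -N

/-- The target set: all coordinates are `± a` with a common `a ≥ s`. -/
def Tg (n : ℕ) (s : ℝ) : Set (Fin n → ℝ) := {v | ∃ a ≥ s, ∀ i, v i = a ∨ v i = -a}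

lemma Tg_neg (s : ℝ) : ∀ v ∈ Tg n s, -v ∈ Tg n s := by
  rintro v ⟨a, ha, h⟩
  refine ⟨a, ha, fun i => ?_⟩
  rcases h i with h | h
  · right; simp [h]
  · left; simp [h]

lemma Tg_mono {s t : ℝ} (h : s ≤ t) : Tg n t ⊆ Tg n s := by
  rintro v ⟨a, ha, hv⟩
  exact ⟨a, h.trans ha, hv⟩

/-- The comparison function. -/
noncomputable def GG (n J : ℕ) (k : ℕ) (R : ℝ) : ℝ :=
  ((16 * n + 2 ^ J : ℝ) ^ (n - 1))⁻¹ *
    ((16 * n - 1 : ℝ) ^ (k - 1) * (16 * n + R) ^ (n - k) + (2 * (16 * n) : ℝ) ^ (n - 1))

lemma exists_mem_compl {A : Finset (Fin n)} (h : A ≠ Finset.univ) : ∃ i, i ∉ A := by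
  by_contra hc
  push Not at hc
  exact h (Finset.eq_univ_iff_forall.2 hc)

lemma card_lt_of_ne_univ {A : Finset (Fin n)} (h : A ≠ Finset.univ) : A.card < n := by
  have := Finset.card_lt_univ_of_notMem (exists_mem_compl h).choose_spec
  simpa using this

/-- A vector between the bounds lies in the cone. -/
lemma cone_mem' {κ : ℝ} {J : ℕ} (hJ : n * (2 : ℝ) ^ J < κ) {v : Fin n → ℝ} {P B : ℝ} (hP : 0 < P)
    (hBP : B ≤ 2 ^ J * P)
    (h1 : ∃ i, P ≤ v i) (h2 : ∃ i, v i ≤ -P) (hB : ∀ i, -B ≤ v i ∧ v i ≤ B) : v ∈ Cone n κ := by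
  apply cone_mem (P := P) (B := B) hP h1 h2 (fun i => abs_le.2 (hB i))
  calc (n : ℝ) * B ≤ n * (2 ^ J * P) := mul_le_mul_of_nonneg_left hBP (Nat.cast_nonneg n)
    _ = (n * 2 ^ J) * P := by ring
    _ < κ * P := mul_lt_mul_of_pos_right hJ hP

/-- The numerical inequality behind the main step. -/
lemma num_step {C R : ℝ} {k l : ℕ} (hC : 48 ≤ C) (hk : 16 * ((k : ℝ) + 1) ≤ C) (hR : C ≤ R) :
    (1 - 1 / (2 + R)) * ((C - 1 / 2) ^ (k + 1) * (C + R / 2) ^ (l + 1))
      + 1 / (2 + R) * ((C - 1) ^ k * (C + R) ^ (l + 2))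
      ≤ 19 / 20 * ((C - 1) ^ (k + 1) * (C + R) ^ (l + 1)) := by
  have hC1 : 0 < C - 1 := by linarith
  have hC2 : 0 < C - 1 / 2 := by linarith
  have hCR : 0 < C + R := by linarith
  have hR2 : 0 < 2 + R := by linarith
  have hC0 : 0 < C := by linarith
  have hR0 : 0 < R := by linarith
  -- Bernoulli
  have hb : (C - 1 / 2) ^ (k + 1) ≤ 31 / 30 * (C - 1) ^ (k + 1) := by
    have h1 : (1 : ℝ) + ((k + 1 : ℕ) : ℝ) * (-(1 / 2) / (C - 1 / 2))
        ≤ (1 + (-(1 / 2) / (C - 1 / 2))) ^ (k + 1) := by
      apply one_add_mul_le_pow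
      have : (1 / 2) / (C - 1 / 2) ≤ 2 := by
        rw [div_le_iff₀ hC2]; linarith
      have e : -(1 / 2) / (C - 1 / 2) = -((1 / 2) / (C - 1 / 2)) := by ring
      rw [e]; linarith
    have h2 : (1 : ℝ) + (-(1 / 2) / (C - 1 / 2)) = (C - 1) / (C - 1 / 2) := by
      rw [eq_div_iff hC2.ne', add_mul, div_mul_cancel₀ _ hC2.ne']
      ring
    rw [h2, div_pow] at h1
    have h3 : (30 / 31 : ℝ) ≤ 1 + ((k + 1 : ℕ) : ℝ) * (-(1 / 2) / (C - 1 / 2)) := by
      have e : ((k + 1 : ℕ) : ℝ) * (-(1 / 2) / (C - 1 / 2))
        = -((((k : ℝ) + 1) / 2) / (C - 1 / 2)) := by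
        push_cast
        ring
      rw [e]
      have : (((k : ℝ) + 1) / 2) / (C - 1 / 2) ≤ 1 / 31 := by
        rw [div_le_iff₀ hC2]
        linarith
      linarith
    have h4 := h3.trans h1
    have h5 : 0 < (C - 1 / 2) ^ (k + 1) := by positivity
    rw [le_div_iff₀ h5] at h4
    linarith
  have hb2 : (C + R / 2) ^ (l + 1) ≤ 3 / 4 * (C + R) ^ (l + 1) := by
    have h1 : (C + R / 2) ^ l ≤ (C + R) ^ l :=
      pow_le_pow_left₀ (by linarith) (by linarith) l
    have h2 : C + R / 2 ≤ 3 / 4 * (C + R) := by linarith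
    calc (C + R / 2) ^ (l + 1) = (C + R / 2) ^ l * (C + R / 2) := pow_succ _ _
      _ ≤ (C + R) ^ l * (3 / 4 * (C + R)) :=
        mul_le_mul h1 h2 (by linarith) (by positivity)
      _ = 3 / 4 * (C + R) ^ (l + 1) := by ring
  have hY : 0 ≤ (C - 1) ^ (k + 1) * (C + R) ^ (l + 1) := by positivity
  have t1 : (1 - 1 / (2 + R)) * ((C - 1 / 2) ^ (k + 1) * (C + R / 2) ^ (l + 1))
      ≤ 31 / 40 * ((C - 1) ^ (k + 1) * (C + R) ^ (l + 1)) := by
    have h1 : (C - 1 / 2) ^ (k + 1) * (C + R / 2) ^ (l + 1)
        ≤ (31 / 30 * (C - 1) ^ (k + 1)) * (3 / 4 * (C + R) ^ (l + 1)) :=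
      mul_le_mul hb hb2 (by positivity) (by positivity)
    have h2 : (1 - 1 / (2 + R)) ≤ 1 := by
      have : 0 ≤ 1 / (2 + R) := by positivity
      linarith
    have h3 : 0 ≤ (C - 1 / 2) ^ (k + 1) * (C + R / 2) ^ (l + 1) := by positivity
    calc _ ≤ 1 * ((C - 1 / 2) ^ (k + 1) * (C + R / 2) ^ (l + 1)) :=
          mul_le_mul_of_nonneg_right h2 h3
      _ ≤ (31 / 30 * (C - 1) ^ (k + 1)) * (3 / 4 * (C + R) ^ (l + 1)) := by linarith
      _ = _ := by ring
  have t2 : 1 / (2 + R) * ((C - 1) ^ k * (C + R) ^ (l + 2))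
      ≤ 2 / 47 * ((C - 1) ^ (k + 1) * (C + R) ^ (l + 1)) := by
    have h1 : 1 / (2 + R) * (C + R) ≤ 2 / 47 * (C - 1) := by
      have : 1 / (2 + R) * (C + R) ≤ 2 := by
        rw [one_div, inv_mul_le_iff₀ hR2]; linarith
      linarith
    have h3 : 0 ≤ (C - 1) ^ k * (C + R) ^ (l + 1) := by positivity
    calc 1 / (2 + R) * ((C - 1) ^ k * (C + R) ^ (l + 2))
        = (1 / (2 + R) * (C + R)) * ((C - 1) ^ k * (C + R) ^ (l + 1)) := by ring
      _ ≤ (2 / 47 * (C - 1)) * ((C - 1) ^ k * (C + R) ^ (l + 1)) :=
        mul_le_mul_of_nonneg_right h1 h3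
      _ = _ := by ring
  have t3 : (31 / 40 : ℝ) + 2 / 47 ≤ 19 / 20 := by norm_num
  calc _ ≤ 31 / 40 * ((C - 1) ^ (k + 1) * (C + R) ^ (l + 1))
        + 2 / 47 * ((C - 1) ^ (k + 1) * (C + R) ^ (l + 1)) := add_le_add t1 t2
    _ = (31 / 40 + 2 / 47) * ((C - 1) ^ (k + 1) * (C + R) ^ (l + 1)) := by ring
    _ ≤ _ := mul_le_mul_of_nonneg_right t3 hY

/-- The bound with excess `M` on all admissible states. -/
def Bd (n J : ℕ) (κ s M : ℝ) : Prop :=
  ∀ (A : Finset (Fin n)) (P : ℝ) (j : ℕ), A.Nonempty → A ≠ Finset.univ → 0 < P → j ≤ J →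
    s ≤ 2 ^ j * P → ee (Cone n κ) (Tg n s) (st A (2 ^ j * P) P) ≤ GG n J A.card (2 ^ j) + M

lemma delta_pos (n J : ℕ) (hn : 3 ≤ n) : 0 < ((16 * n + 2 ^ J : ℝ) ^ (n - 1))⁻¹ := by positivity

lemma GG_nonneg {n J k : ℕ} {R : ℝ} (hn : 3 ≤ n) (hR : 0 ≤ R) : 0 ≤ GG n J k R := by
  have h : (3 : ℝ) ≤ n := by exact_mod_cast hn
  have h1 : (0 : ℝ) ≤ 16 * n - 1 := by linarith
  unfold GG
  positivity

lemma two_pow_mul_le {j J : ℕ} (hj : j ≤ J) {P : ℝ} (hP : 0 < P) : (2 : ℝ) ^ j * P ≤ 2 ^ J * P :=
  mul_le_mul_of_nonneg_right (pow_le_pow_right₀ (by norm_num) hj) hP.le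

lemma le_two_pow_mul (j : ℕ) {P : ℝ} (hP : 0 < P) : P ≤ (2 : ℝ) ^ j * P := by
  have : (1 : ℝ) ≤ 2 ^ j := one_le_pow₀ (by norm_num)
  nlinarith

lemma st_mem {κ : ℝ} {J : ℕ} (hJ : n * (2 : ℝ) ^ J < κ) {A : Finset (Fin n)} {P : ℝ} {j : ℕ}
    (hA : A.Nonempty) (hA' : A ≠ Finset.univ) (hP : 0 < P) (hj : j ≤ J) :
    st A (2 ^ j * P) P ∈ Cone n κ := by
  have h1 := le_two_pow_mul j hP
  obtain ⟨i, hi⟩ := hA
  obtain ⟨l, hl⟩ := exists_mem_compl hA'
  apply cone_mem' hJ hP (two_pow_mul_le hj hP)
  · exact ⟨i, by simp [st, hi]⟩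
  · exact ⟨l, by simp [st, hl, h1]⟩
  · intro m
    by_cases hm : m ∈ A
    · simp only [st, hm, if_true]
      constructor <;> linarith
    · simp only [st, hm, if_false]
      constructor <;> linarith

/-- Step for states with at least two positive coordinates. -/
lemma step_two {J : ℕ} {κ s M : ℝ} (hn : 3 ≤ n) (hJ : n * (2 : ℝ) ^ J < κ)
    (hM : 0 < M) (hBd : Bd n J κ s M) (A : Finset (Fin n)) (P : ℝ) (j : ℕ) (hA : 2 ≤ A.card)
    (hA' : A ≠ Finset.univ) (hP : 0 < P) (hj : j ≤ J) (hsj : s ≤ 2 ^ j * P) :
    ee (Cone n κ) (Tg n s) (st A (2 ^ j * P) P)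
      ≤ GG n J A.card (2 ^ j) + M - min (M / 2) (((16 * n + 2 ^ J : ℝ) ^ (n - 1))⁻¹ / 20) := by
  have hn' : (3 : ℝ) ≤ n := by exact_mod_cast hn
  set δ : ℝ := ((16 * n + 2 ^ J : ℝ) ^ (n - 1))⁻¹ with hδ
  have hδ0 : 0 < δ := delta_pos n J hn
  have hAn : A.card < n := card_lt_of_ne_univ hA'
  have hmin1 : min (M / 2) (δ / 20) ≤ M / 2 := min_le_left _ _
  have hmin2 : min (M / 2) (δ / 20) ≤ δ / 20 := min_le_right _ _
  have hAne : A.Nonempty := Finset.card_pos.1 (by omega)
  have hG0 : 0 ≤ GG n J A.card (2 ^ j) := GG_nonneg hn (by positivity)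
  have hmem := st_mem hJ hAne hA' hP hj
  rcases Nat.eq_zero_or_pos j with hj0 | hj0
  · subst hj0
    have : st A (2 ^ 0 * P) P ∈ Tg n s := by
      refine ⟨2 ^ 0 * P, hsj, fun i => ?_⟩
      by_cases hi : i ∈ A
      · left; simp [st, hi]
      · right; simp [st, hi]
    rw [ee_eq_zero hmem this]
    have h2 : 0 ≤ M - min (M / 2) (δ / 20) := by linarith
    calc 0 ≤ GG n J A.card (2 ^ 0) + (M - min (M / 2) (δ / 20)) := add_nonneg hG0 h2
      _ = _ := by ring
  obtain ⟨i, hi⟩ := hAne
  obtain ⟨i', hi', hii'⟩ : ∃ i' ∈ A, i' ≠ i := by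
    by_contra hc
    push Not at hc
    have : A ⊆ {i} := fun a ha => by simpa using hc a ha
    have := Finset.card_le_card this
    simp at this
    omega
  obtain ⟨l, hl⟩ := exists_mem_compl hA'
  have hli : l ≠ i := fun h => hl (h ▸ hi)
  -- the numbers
  set R : ℝ := 2 ^ j with hR
  have hR2 : 2 ≤ R := by
    have : (2 : ℝ) ^ 1 ≤ 2 ^ j := pow_le_pow_right₀ (by norm_num) hj0
    simpa using this
  have hRJ : R ≤ 2 ^ J := pow_le_pow_right₀ (by norm_num) hj
  have hPN : 2 * P ≤ R * P := mul_le_mul_of_nonneg_right hR2 hP.le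
  have hNJ : R * P ≤ 2 ^ J * P := mul_le_mul_of_nonneg_right hRJ hP.le
  have hcardErase : (A.erase i).card = A.card - 1 := Finset.card_erase_of_mem hi
  have hEne : (A.erase i).Nonempty := ⟨i', Finset.mem_erase.2 ⟨hii', hi'⟩⟩
  have hEuniv : A.erase i ≠ Finset.univ := fun h => by
    have := Finset.mem_univ i
    rw [← h] at this
    simp at this
  have hupd_lo : Function.update (st A (R * P) P) i (-(R * P)) = st (A.erase i) (R * P) P := by
    funext m
    by_cases hm : m = i
    · subst hm; simp [st]
    · simp [st, hm]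
  have hlow := hBd (A.erase i) P j hEne hEuniv hP hj hsj
  rw [hcardErase] at hlow
  have hsti : st A (R * P) P i = P := by simp [st, hi]
  obtain ⟨k, hk⟩ : ∃ k, A.card = k + 2 := ⟨A.card - 2, by omega⟩
  obtain ⟨r, hr⟩ : ∃ r, n = k + 2 + (r + 1) := ⟨n - k - 3, by omega⟩
  have e1 : n - A.card = r + 1 := by omega
  have e2 : n - (A.card - 1) = r + 2 := by omega
  have e3 : A.card - 1 = k + 1 := by omega
  have e4 : A.card - 1 - 1 = k := by omega
  have e5 : n - 1 = k + (r + 2) := by omega
  rcases lt_or_ge R (16 * n) with hRC | hRC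
  · -- small ratio: go up to `N` at once
    have hsp := ee_split (U := Cone n κ) (T := Tg n s) (x := st A (R * P) P) i
      (lo := -(R * P)) (hi := R * P) (by rw [hsti]; linarith) (by rw [hsti]; linarith)
      (by linarith) (by
        intro t ht
        apply cone_mem' hJ hP hNJ
        · exact ⟨i', by simp [st, hii', hi']⟩
        · refine ⟨l, ?_⟩
          rw [Function.update_of_ne hli]
          simp only [st, hl, if_false]
          linarith
        · intro m
          by_cases hm : m = i
          · subst hm; rw [Function.update_self]; exact ht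
          · rw [Function.update_of_ne hm]
            by_cases hmA : m ∈ A
            · simp only [st, hmA, if_true]
              constructor <;> linarith
            · simp only [st, hmA, if_false]
              constructor <;> linarith)
    rw [hupd_lo, hsti] at hsp
    have hup : ee (Cone n κ) (Tg n s) (Function.update (st A (R * P) P) i (R * P)) ≤ 0 := by
      apply box_const (ξ := P) (lo := -(R * P)) (hi := R * P) (by linarith) (by linarith)
        (by linarith) (A.erase i)
      · intro m hm
        rw [Finset.mem_erase] at hm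
        rw [Function.update_of_ne hm.1]
        simp [st, hm.2]
      · intro y hy1 hy2
        apply cone_mem' hJ hP hNJ
        · refine ⟨i, ?_⟩
          rw [hy1 i (by simp), Function.update_self]
          linarith
        · refine ⟨l, ?_⟩
          rw [hy1 l (by simp [hl]), Function.update_of_ne hli]
          simp only [st, hl, if_false]
          linarith
        · intro m
          by_cases hm : m ∈ A.erase i
          · exact hy2 m hm
          · rw [hy1 m hm]
            by_cases hmi : m = i
            · subst hmi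
              rw [Function.update_self]
              constructor <;> linarith
            · rw [Function.update_of_ne hmi]
              have hmA : m ∉ A := fun h => hm (Finset.mem_erase.2 ⟨hmi, h⟩)
              simp only [st, hmA, if_false]
              constructor <;> linarith
      · intro B hB
        apply le_of_eq
        apply ee_eq_zero
        · apply cone_mem' hJ hP hNJ
          · refine ⟨i, ?_⟩
            have h1 : i ∉ B := fun h => by simpa using hB h
            have h2 : i ∉ A.erase i := by simp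
            simp only [h1, h2, if_false, Function.update_self]
            linarith
          · refine ⟨l, ?_⟩
            have h2 : l ∉ A.erase i := by simp [hl]
            have h1 : l ∉ B := fun h => h2 (hB h)
            simp only [h1, h2, if_false, Function.update_of_ne hli, st, hl]
            linarith
          · intro m
            split_ifs with h1 h2
            · constructor <;> linarith
            · constructor <;> linarith
            · by_cases hmi : m = i
              · subst hmi
                rw [Function.update_self]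
                constructor <;> linarith
              · rw [Function.update_of_ne hmi]
                have hmA : m ∉ A := fun h => h2 (Finset.mem_erase.2 ⟨hmi, h⟩)
                simp only [st, hmA, if_false]
                constructor <;> linarith
        · refine ⟨R * P, hsj, fun m => ?_⟩
          beta_reduce
          split_ifs with h1 h2
          · right; rfl
          · left; rfl
          · by_cases hmi : m = i
            · subst hmi
              rw [Function.update_self]
              left; rfl
            · rw [Function.update_of_ne hmi]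
              have hmA : m ∉ A := fun h => h2 (Finset.mem_erase.2 ⟨hmi, h⟩)
              simp only [st, hmA, if_false]
              right; trivial
    have hπ : (R * P - P) / (R * P - -(R * P)) ≤ 1 / 2 := by
      rw [div_le_iff₀ (by linarith)]
      linarith
    have hπ0 : 0 ≤ (R * P - P) / (R * P - -(R * P)) := div_nonneg (by linarith) (by linarith)
    have he0 : 0 ≤ ee (Cone n κ) (Tg n s) (st (A.erase i) (R * P) P) :=
      ee_nonneg (st_mem hJ hEne hEuniv hP hj)
    have h6 : ee (Cone n κ) (Tg n s) (st A (R * P) P)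
        ≤ 1 / 2 * ee (Cone n κ) (Tg n s) (st (A.erase i) (R * P) P) := by
      have h7 : (1 - (R * P - P) / (R * P - -(R * P)))
          * ee (Cone n κ) (Tg n s) (Function.update (st A (R * P) P) i (R * P)) ≤ 0 :=
        mul_nonpos_of_nonneg_of_nonpos (by linarith) hup
      have h8 := mul_le_mul_of_nonneg_right hπ he0
      linarith
    -- compare
    have h9 : 1 / 2 * GG n J (A.card - 1) R ≤ GG n J A.card R := by
      unfold GG
      rw [← hδ, e1, e2, e4, e3]
      have hb : (16 * n - 1 : ℝ) ^ k * (16 * n + R) ^ (r + 2)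
          ≤ (2 * (16 * n) : ℝ) ^ (n - 1) := by
        rw [e5, pow_add (2 * (16 * n) : ℝ)]
        apply mul_le_mul
        · exact pow_le_pow_left₀ (by linarith) (by linarith) k
        · exact pow_le_pow_left₀ (by linarith) (by linarith) _
        · have : 0 ≤ 16 * (n : ℝ) + R := by linarith
          positivity
        · positivity
      have hc : 0 ≤ (16 * n - 1 : ℝ) ^ (k + 1) * (16 * n + R) ^ (r + 1) := by
        have : 0 ≤ 16 * (n : ℝ) + R := by linarith
        have : 0 ≤ 16 * (n : ℝ) - 1 := by linarith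
        positivity
      have hd : 1 / 2 * ((16 * n - 1 : ℝ) ^ k * (16 * n + R) ^ (r + 2)
          + (2 * (16 * n) : ℝ) ^ (n - 1))
          ≤ (16 * n - 1 : ℝ) ^ (k + 1) * (16 * n + R) ^ (r + 1)
            + (2 * (16 * n) : ℝ) ^ (n - 1) := by linarith
      have := mul_le_mul_of_nonneg_left hd hδ0.le
      linarith
    linarith
  · -- large ratio: double
    have hj1 : ∃ j', j = j' + 1 := ⟨j - 1, by omega⟩
    obtain ⟨j', hj'⟩ := hj1
    have hRj' : R = 2 * 2 ^ j' := by rw [hR, hj', pow_succ]; ring
    have hsp := ee_split (U := Cone n κ) (T := Tg n s) (x := st A (R * P) P) i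
      (lo := -(R * P)) (hi := 2 * P) (by rw [hsti]; linarith) (by rw [hsti]; linarith)
      (by linarith) (by
        intro t ht
        apply cone_mem' hJ hP hNJ
        · exact ⟨i', by simp [st, hii', hi']⟩
        · refine ⟨l, ?_⟩
          rw [Function.update_of_ne hli]
          simp only [st, hl, if_false]
          linarith
        · intro m
          by_cases hm : m = i
          · subst hm; rw [Function.update_self]; exact ⟨ht.1, ht.2.trans hPN⟩
          · rw [Function.update_of_ne hm]
            by_cases hmA : m ∈ A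
            · simp only [st, hmA, if_true]
              constructor <;> linarith
            · simp only [st, hmA, if_false]
              constructor <;> linarith)
    rw [hupd_lo, hsti] at hsp
    have hup := boxRule (U := Cone n κ) (T := Tg n s) (ξ := P) (lo := -(R * P)) (hi := 2 * P)
      (glo := 16 * n + R / 2) (ghi := 16 * n - 1) (d := M + δ * (2 * (16 * n) : ℝ) ^ (n - 1))
      (by linarith) (by linarith) (by linarith) (A.erase i)
      (Function.update (st A (R * P) P) i (2 * P)) (δ * (16 * n + R / 2) ^ (r + 1))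
      (by
        intro m hm
        rw [Finset.mem_erase] at hm
        rw [Function.update_of_ne hm.1]
        simp [st, hm.2])
      (by
        intro y hy1 hy2
        apply cone_mem' hJ hP hNJ
        · refine ⟨i, ?_⟩
          rw [hy1 i (by simp), Function.update_self]
          linarith
        · refine ⟨l, ?_⟩
          rw [hy1 l (by simp [hl]), Function.update_of_ne hli]
          simp only [st, hl, if_false]
          linarith
        · intro m
          by_cases hm : m ∈ A.erase i
          · exact ⟨(hy2 m hm).1, (hy2 m hm).2.trans hPN⟩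
          · rw [hy1 m hm]
            by_cases hmi : m = i
            · subst hmi
              rw [Function.update_self]
              constructor <;> linarith
            · rw [Function.update_of_ne hmi]
              have hmA : m ∉ A := fun h => hm (Finset.mem_erase.2 ⟨hmi, h⟩)
              simp only [st, hmA, if_false]
              constructor <;> linarith)
      (by
        intro B hB
        have hiB : i ∉ B := fun h => by simpa using hB h
        have hBA : B ⊆ A := hB.trans (Finset.erase_subset i A)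
        have e : (fun m => if m ∈ B then -(R * P) else if m ∈ A.erase i then 2 * P
            else Function.update (st A (R * P) P) i (2 * P) m)
            = st (A \ B) (2 ^ j' * (2 * P)) (2 * P) := by
          have hN : 2 ^ j' * (2 * P) = R * P := by rw [hRj']; ring
          rw [hN]
          funext m
          by_cases hmi : m = i
          · subst hmi
            simp [st, hiB, hi]
          · by_cases hmB : m ∈ B
            · simp [st, hmB]
            · by_cases hmA : m ∈ A
              · simp [st, hmB, hmA, hmi]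
              · simp [st, hmB, hmA, hmi]
        rw [e]
        have hne : (A \ B).Nonempty := ⟨i, by simp [hi, hiB]⟩
        have hnu : A \ B ≠ Finset.univ := fun h => by
          have := Finset.mem_univ l
          rw [← h] at this
          simp [hl] at this
        have h1 := hBd (A \ B) (2 * P) j' hne hnu (by linarith) (by omega)
          (by
            have hN : 2 ^ j' * (2 * P) = R * P := by rw [hRj']; ring
            rw [hN]; exact hsj)
        have hcard : (A \ B).card = A.card - B.card := Finset.card_sdiff_of_subset hBA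
        have hBc : B.card ≤ (A.erase i).card := Finset.card_le_card hB
        rw [hcardErase] at hBc
        unfold GG at h1
        rw [← hδ, hcard] at h1
        have f1 : A.card - B.card - 1 = k + 1 - B.card := by omega
        have f2 : n - (A.card - B.card) = (r + 1) + B.card := by omega
        have f3 : (A.erase i).card - B.card = k + 1 - B.card := by omega
        have f4 : (2 : ℝ) ^ j' = R / 2 := by rw [hRj']; ring
        rw [f1, f2] at h1
        rw [f3]
        calc _ ≤ _ := h1
          _ = _ := by rw [pow_add, f4]; ring)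
    -- the convex combination
    have hθ : (2 * P - P) / (2 * P - -(R * P)) = 1 / (2 + R) := by
      rw [div_eq_div_iff (by linarith) (by linarith)]
      ring
    rw [hθ] at hsp hup
    have hmean : 1 / (2 + R) * (16 * n + R / 2) + (1 - 1 / (2 + R)) * (16 * n - 1)
        = 16 * n - 1 / 2 := by
      have : (2 + R) ≠ 0 := by linarith
      field_simp
      ring
    rw [hmean, hcardErase, e3] at hup
    have hnum := num_step (C := 16 * n) (R := R) (k := k) (l := r) (by linarith)
      (by
        have : (k : ℝ) + 1 ≤ n := by exact_mod_cast (by omega : k + 1 ≤ n)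
        linarith) hRC
    have hθ0 : 0 ≤ 1 / (2 + R) := by
      have : 0 < 2 + R := by linarith
      positivity
    have hθ1 : 1 / (2 + R) ≤ 1 := by
      rw [div_le_one (by linarith)]; linarith
    have hc1 := mul_le_mul_of_nonneg_left hlow hθ0
    have hc2 := mul_le_mul_of_nonneg_left hup (by linarith : 0 ≤ 1 - 1 / (2 + R))
    have hGA : GG n J A.card R = δ * ((16 * n - 1 : ℝ) ^ (k + 1) * (16 * n + R) ^ (r + 1)
        + (2 * (16 * n) : ℝ) ^ (n - 1)) := by
      unfold GG; rw [← hδ, e1, e3]
    have hGE : GG n J (A.card - 1) R = δ * ((16 * n - 1 : ℝ) ^ k * (16 * n + R) ^ (r + 2)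
        + (2 * (16 * n) : ℝ) ^ (n - 1)) := by
      unfold GG; rw [← hδ, e2, e4]
    rw [hGE] at hc1
    rw [hGA]
    have hYge : 1 ≤ (16 * n - 1 : ℝ) ^ (k + 1) * (16 * n + R) ^ (r + 1) := by
      have h1 : 1 ≤ (16 * n - 1 : ℝ) ^ (k + 1) := one_le_pow₀ (by linarith)
      have h2 : 1 ≤ (16 * n + R : ℝ) ^ (r + 1) := one_le_pow₀ (by linarith)
      nlinarith
    have hnum' := mul_le_mul_of_nonneg_left hnum hδ0.le
    have hY' := mul_le_mul_of_nonneg_left hYge hδ0.le
    set Y : ℝ := (16 * n - 1 : ℝ) ^ (k + 1) * (16 * n + R) ^ (r + 1) with hY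
    set B0 : ℝ := (2 * (16 * n) : ℝ) ^ (n - 1) with hB0
    calc ee (Cone n κ) (Tg n s) (st A (R * P) P)
        ≤ 1 / (2 + R) * (δ * ((16 * n - 1 : ℝ) ^ k * (16 * n + R) ^ (r + 2) + B0) + M)
          + (1 - 1 / (2 + R)) * (δ * (16 * n + R / 2) ^ (r + 1) * (16 * n - 1 / 2) ^ (k + 1)
            + (M + δ * B0)) := by linarith
      _ = M + δ * B0 + δ * ((1 - 1 / (2 + R)) * ((16 * n - 1 / 2 : ℝ) ^ (k + 1)
            * (16 * n + R / 2) ^ (r + 1))
            + 1 / (2 + R) * ((16 * n - 1 : ℝ) ^ k * (16 * n + R) ^ (r + 2))) := by ring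
      _ ≤ M + δ * B0 + δ * (19 / 20 * Y) := by linarith
      _ ≤ δ * (Y + B0) + M - δ / 20 := by linarith
      _ ≤ δ * (Y + B0) + M - min (M / 2) (δ / 20) := by linarith

end States

end Pool.Agent.Lib.MP_02db74_an
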