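import Mathlib
import Pool.Agent.Lib.MP_02db74_an.Reach
import Pool.Agent.Lib.MP_02db74_an.ChainBase

/-!
The finite-dimensional chain estimate: inside the cone `Cone n κ`, a coordinate-split
martingale started at a mixed sign vector reaches the set of vectors with all
coordinates `± a`, `a ≥ 2 ^ m`, with probability at least `(1 - c1) ^ m`,
where `c1 ≤ C * κ ^ (1 - n)`.
-/

namespace Pool.Agent.Lib.MP_02db74_an

open Finset

variable {n : ℕ}

/-- Step for states with one positive coordinate. -/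
lemma step_one {J : ℕ} {κ s M : ℝ} (hn : 3 ≤ n) (hJ : n * (2 : ℝ) ^ J < κ)
    (hM : 0 < M) (hBd : Bd n J κ s M) (A : Finset (Fin n)) (P : ℝ) (j : ℕ) (hA : A.card = 1)
    (hP : 0 < P) (hj : j ≤ J) (hsj : s ≤ 2 ^ j * P) :
    ee (Cone n κ) (Tg n s) (st A (2 ^ j * P) P)
      ≤ GG n J A.card (2 ^ j) + M
        - 1 / 3 * min (M / 2) (((16 * n + 2 ^ J : ℝ) ^ (n - 1))⁻¹ / 20) := by
  have hn' : (3 : ℝ) ≤ n := by exact_mod_cast hn
  set δ : ℝ := ((16 * n + 2 ^ J : ℝ) ^ (n - 1))⁻¹ with hδ
  have hδ0 : 0 < δ := delta_pos n J hn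
  have hmin1 : min (M / 2) (δ / 20) ≤ M / 2 := min_le_left _ _
  have hmin0 : 0 ≤ min (M / 2) (δ / 20) := le_min (by linarith) (by linarith)
  have hAne : A.Nonempty := Finset.card_pos.1 (by omega)
  have hG0 : 0 ≤ GG n J A.card (2 ^ j) := GG_nonneg hn (by positivity)
  obtain ⟨i0, rfl⟩ := Finset.card_eq_one.1 hA
  have hA' : ({i0} : Finset (Fin n)) ≠ Finset.univ := fun h => by
    have := congrArg Finset.card h
    simp at this
    omega
  have hmem := st_mem hJ hAne hA' hP hj
  rcases hj.eq_or_lt with hjJ | hjJ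
  · -- the top level: the bound is trivial
    have h1 : ee (Cone n κ) (Tg n s) (st {i0} (2 ^ j * P) P) ≤ 1 := ee_le_one hmem
    have h2 : 1 ≤ GG n J (({i0} : Finset (Fin n)).card) (2 ^ j) := by
      unfold GG
      rw [← hδ, hA, hjJ, mul_add]
      have e : δ * ((16 * n - 1 : ℝ) ^ (1 - 1) * (16 * n + 2 ^ J) ^ (n - 1)) = 1 := by
        rw [hδ]
        simp only [le_refl, Nat.sub_eq_zero_of_le, pow_zero, one_mul]
        apply inv_mul_cancel₀
        positivity
      rw [e]
      have : 0 ≤ δ * (2 * (16 * n) : ℝ) ^ (n - 1) := by positivity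
      linarith
    linarith
  obtain ⟨l1, hl1⟩ := exists_mem_compl hA'
  have hl1' : l1 ≠ i0 := by simpa using hl1
  obtain ⟨r, hr⟩ : ∃ r, n = r + 3 := ⟨n - 3, by omega⟩
  have hpairc : ({i0, l1} : Finset (Fin n)).card = 2 := Finset.card_pair hl1'.symm
  have hpairu : ({i0, l1} : Finset (Fin n)) ≠ Finset.univ := fun h => by
    have := congrArg Finset.card h
    rw [hpairc] at this
    simp at this
    omega
  have htwo := step_two hn hJ hM hBd {i0, l1} P j (by rw [hpairc]) hpairu hP hj hsj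
  rw [← hδ, hpairc] at htwo
  set R : ℝ := 2 ^ j with hR
  have hR1 : 1 ≤ R := one_le_pow₀ (by norm_num)
  have hRJ : 2 * R ≤ 2 ^ J := by
    have : (2 : ℝ) ^ (j + 1) ≤ 2 ^ J := pow_le_pow_right₀ (by norm_num) hjJ
    rw [pow_succ] at this
    linarith
  have hPN : P ≤ R * P := by nlinarith
  have hNJ : 2 * (R * P) ≤ 2 ^ J * P := by
    have := mul_le_mul_of_nonneg_right hRJ hP.le
    linarith
  have hst : st ({i0} : Finset (Fin n)) (R * P) P l1 = -(R * P) := by simp [st, hl1']
  have hsp := ee_split (U := Cone n κ) (T := Tg n s) (x := st {i0} (R * P) P) l1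
    (lo := -(2 * (R * P))) (hi := P) (by rw [hst]; linarith) (by rw [hst]; linarith)
    (by linarith) (by
      intro t ht
      -- a third coordinate stays negative
      obtain ⟨l2, hl2⟩ := exists_mem_compl hpairu
      have hl2' : l2 ≠ i0 ∧ l2 ≠ l1 := by simpa using hl2
      apply cone_mem' hJ hP hNJ
      · exact ⟨i0, by rw [Function.update_of_ne hl1'.symm]; simp [st]⟩
      · refine ⟨l2, ?_⟩
        rw [Function.update_of_ne hl2'.2]
        simp only [st, Finset.mem_singleton, hl2'.1, if_false]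
        linarith
      · intro m
        by_cases hm : m = l1
        · subst hm; rw [Function.update_self]; exact ⟨ht.1, by linarith [ht.2]⟩
        · rw [Function.update_of_ne hm]
          by_cases hmA : m = i0
          · simp only [st, Finset.mem_singleton, hmA, if_true]
            constructor <;> linarith
          · simp only [st, Finset.mem_singleton, hmA, if_false]
            constructor <;> linarith)
  rw [hst] at hsp
  have hupd : Function.update (st ({i0} : Finset (Fin n)) (R * P) P) l1 P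
      = st {i0, l1} (R * P) P := by
    funext m
    by_cases hm : m = l1
    · subst hm; simp [st]
    · simp [st, hm]
  rw [hupd] at hsp
  set S : Finset (Fin n) := ({i0, l1} : Finset (Fin n))ᶜ with hS
  have hSc : S.card = r + 1 := by
    rw [hS, Finset.card_compl, hpairc]
    simp
    omega
  have hdown := boxRule (U := Cone n κ) (T := Tg n s) (ξ := -(R * P)) (lo := -(2 * (R * P)))
    (hi := P) (glo := 16 * n + 2 * R) (ghi := 16 * n - 1)
    (d := M + δ * (2 * (16 * n) : ℝ) ^ (n - 1))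
    (by linarith) (by linarith) (by linarith) S
    (Function.update (st {i0} (R * P) P) l1 (-(2 * (R * P)))) (δ * (16 * n + 2 * R))
    (by
      intro m hm
      have hm' : m ≠ i0 ∧ m ≠ l1 := by simpa [hS] using hm
      rw [Function.update_of_ne hm'.2]
      simp [st, hm'.1])
    (by
      intro y hy1 hy2
      apply cone_mem' hJ hP hNJ
      · refine ⟨i0, ?_⟩
        rw [hy1 i0 (by simp [hS]), Function.update_of_ne hl1'.symm]
        simp [st]
      · refine ⟨l1, ?_⟩
        rw [hy1 l1 (by simp [hS]), Function.update_self]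
        linarith
      · intro m
        by_cases hm : m ∈ S
        · exact ⟨(hy2 m hm).1, by linarith [(hy2 m hm).2]⟩
        · rw [hy1 m hm]
          by_cases hml : m = l1
          · subst hml
            rw [Function.update_self]
            constructor <;> linarith
          · rw [Function.update_of_ne hml]
            have hmi : m = i0 := by
              by_contra hc
              exact hm (by simp [hS, hc, hml])
            subst hmi
            simp only [st, Finset.mem_singleton, if_true]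
            constructor <;> linarith)
    (by
      intro B hB
      have hi0B : i0 ∉ B := fun h => by
        have := hB h
        simp [hS] at this
      have hl1B : l1 ∉ B := fun h => by
        have := hB h
        simp [hS] at this
      have e : (fun m => if m ∈ B then -(2 * (R * P)) else if m ∈ S then P
          else Function.update (st ({i0} : Finset (Fin n)) (R * P) P) l1 (-(2 * (R * P))) m)
          = st (insert l1 B)ᶜ (2 ^ (j + 1) * P) P := by
        have hN : (2 : ℝ) ^ (j + 1) * P = 2 * (R * P) := by rw [hR, pow_succ]; ring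
        rw [hN]
        funext m
        by_cases hml : m = l1
        · subst hml
          simp [st, hl1B, hS]
        · by_cases hmi : m = i0
          · subst hmi
            simp [st, hi0B, hS, hml]
          · by_cases hmB : m ∈ B
            · simp [st, hmB]
            · simp [st, hmB, hS, hml, hmi]
      rw [e]
      have hne : ((insert l1 B)ᶜ : Finset (Fin n)).Nonempty := ⟨i0, by simp [hi0B, hl1'.symm]⟩
      have hnu : ((insert l1 B)ᶜ : Finset (Fin n)) ≠ Finset.univ := fun h => by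
        have := Finset.mem_univ l1
        rw [← h] at this
        simp at this
      have h1 := hBd (insert l1 B)ᶜ P (j + 1) hne hnu hP (by omega)
        (by
          have hN : (2 : ℝ) ^ (j + 1) * P = 2 * (R * P) := by rw [hR, pow_succ]; ring
          rw [hN]; linarith)
      have hcard : ((insert l1 B)ᶜ : Finset (Fin n)).card = n - (B.card + 1) := by
        rw [Finset.card_compl, Finset.card_insert_of_notMem hl1B]
        simp
      have hBc : B.card ≤ S.card := Finset.card_le_card hB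
      rw [hSc] at hBc
      unfold GG at h1
      rw [← hδ, hcard] at h1
      have f1 : n - (B.card + 1) - 1 = r + 1 - B.card := by omega
      have f2 : n - (n - (B.card + 1)) = 1 + B.card := by omega
      have f4 : (2 : ℝ) ^ (j + 1) = 2 * R := by rw [hR, pow_succ]; ring
      rw [f1, f2] at h1
      rw [hSc]
      calc _ ≤ _ := h1
        _ = _ := by rw [pow_add, f4]; ring)
  have hπ : (P - -(R * P)) / (P - -(2 * (R * P))) = (1 + R) / (1 + 2 * R) := by
    rw [div_eq_div_iff (by linarith) (by linarith)]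
    ring
  rw [hπ] at hsp hdown
  have hR3 : (0 : ℝ) < 1 + 2 * R := by linarith
  have hmean : (1 + R) / (1 + 2 * R) * (16 * n + 2 * R)
      + (1 - (1 + R) / (1 + 2 * R)) * (16 * n - 1) = 16 * n + R := by
    have : (1 + 2 * R) ≠ 0 := hR3.ne'
    field_simp
    ring
  rw [hmean, hSc] at hdown
  set π : ℝ := (1 + R) / (1 + 2 * R) with hπdef
  have hπ0 : 0 ≤ π := by positivity
  have hπ1 : 1 / 3 ≤ 1 - π := by
    have : π ≤ 2 / 3 := by
      rw [hπdef, div_le_iff₀ hR3]
      linarith
    linarith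
  have hG2 : GG n J 2 R = δ * ((16 * n - 1 : ℝ) * (16 * n + R) ^ (r + 1)
      + (2 * (16 * n) : ℝ) ^ (n - 1)) := by
    unfold GG
    have f1 : n - 2 = r + 1 := by omega
    rw [← hδ, f1]
    norm_num
  have hG1 : GG n J (({i0} : Finset (Fin n)).card) R = δ * ((16 * n + R) ^ (r + 2)
      + (2 * (16 * n) : ℝ) ^ (n - 1)) := by
    unfold GG
    have f1 : n - 1 = r + 2 := by omega
    rw [← hδ, hA, f1]
    norm_num
  rw [hG2] at htwo
  rw [hG1]
  have hc1 := mul_le_mul_of_nonneg_left hdown hπ0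
  have hc2 := mul_le_mul_of_nonneg_left htwo (by linarith : 0 ≤ 1 - π)
  have hc3 := mul_le_mul_of_nonneg_right hπ1 hmin0
  set μ : ℝ := min (M / 2) (δ / 20) with hμ
  set B0 : ℝ := (2 * (16 * n) : ℝ) ^ (n - 1) with hB0
  calc ee (Cone n κ) (Tg n s) (st {i0} (R * P) P)
      ≤ π * (δ * (16 * n + 2 * R) * (16 * n + R) ^ (r + 1) + (M + δ * B0))
        + (1 - π) * (δ * ((16 * n - 1) * (16 * n + R) ^ (r + 1) + B0) + M - μ) := by linarith
    _ = δ * ((π * (16 * n + 2 * R) + (1 - π) * (16 * n - 1)) * (16 * n + R) ^ (r + 1)) + M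
        + δ * B0 - (1 - π) * μ := by ring
    _ = δ * ((16 * n + R) ^ (r + 2) + B0) + M - (1 - π) * μ := by rw [hmean]; ring
    _ ≤ _ := by linarith

lemma Bd_step {J : ℕ} {κ s M : ℝ} (hn : 3 ≤ n) (hJ : n * (2 : ℝ) ^ J < κ)
    (hM : 0 < M) (hBd : Bd n J κ s M) :
    Bd n J κ s (M - 1 / 3 * min (M / 2) (((16 * n + 2 ^ J : ℝ) ^ (n - 1))⁻¹ / 20)) := by
  intro A P j hA hA' hP hj hsj
  have hδ0 : 0 < ((16 * n + 2 ^ J : ℝ) ^ (n - 1))⁻¹ := delta_pos n J hn
  have hmin0 : 0 ≤ min (M / 2) (((16 * n + 2 ^ J : ℝ) ^ (n - 1))⁻¹ / 20) :=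
    le_min (by linarith) (by linarith)
  rcases Nat.lt_or_ge A.card 2 with h | h
  · have h0 := Finset.card_pos.2 hA
    have := step_one hn hJ hM hBd A P j (by omega) hP hj hsj
    linarith
  · have := step_two hn hJ hM hBd A P j h hA' hP hj hsj
    linarith

lemma Bd_zero {J : ℕ} {κ s : ℝ} (hn : 3 ≤ n) (hJ : n * (2 : ℝ) ^ J < κ) : Bd n J κ s 0 := by
  set 𝒮 : Set ℝ := {M | 0 ≤ M ∧ Bd n J κ s M} with h𝒮
  have h1 : (1 : ℝ) ∈ 𝒮 := by
    refine ⟨by norm_num, ?_⟩
    intro A P j hA hA' hP hj _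
    have h1 := ee_le_one (T := Tg n s) (st_mem hJ hA hA' hP hj)
    have h2 : 0 ≤ GG n J A.card (2 ^ j) := GG_nonneg hn (by positivity)
    linarith
  have hbb : BddBelow 𝒮 := ⟨0, fun M hM => hM.1⟩
  have h0 : 0 ≤ sInf 𝒮 := le_csInf ⟨1, h1⟩ (fun M hM => hM.1)
  have hinf : Bd n J κ s (sInf 𝒮) := by
    intro A P j hA hA' hP hj hsj
    have : ee (Cone n κ) (Tg n s) (st A (2 ^ j * P) P) - GG n J A.card (2 ^ j) ≤ sInf 𝒮 := by
      apply le_csInf ⟨1, h1⟩
      intro M hM
      have := hM.2 A P j hA hA' hP hj hsj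
      linarith
    linarith
  rcases h0.eq_or_lt with h | h
  · rw [← h] at hinf; exact hinf
  · exfalso
    have hδ0 : 0 < ((16 * n + 2 ^ J : ℝ) ^ (n - 1))⁻¹ := delta_pos n J hn
    have hstep := Bd_step hn hJ h hinf
    have hmin0 : 0 < min (sInf 𝒮 / 2) (((16 * n + 2 ^ J : ℝ) ^ (n - 1))⁻¹ / 20) :=
      lt_min (by linarith) (by linarith)
    have hmin1 : min (sInf 𝒮 / 2) (((16 * n + 2 ^ J : ℝ) ^ (n - 1))⁻¹ / 20) ≤ sInf 𝒮 / 2 :=
      min_le_left _ _
    have := csInf_le hbb (⟨by linarith, hstep⟩ :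
      sInf 𝒮 - 1 / 3 * min (sInf 𝒮 / 2) (((16 * n + 2 ^ J : ℝ) ^ (n - 1))⁻¹ / 20) ∈ 𝒮)
    linarith

lemma GG_two_le {J k : ℕ} (hn : 3 ≤ n) (hk : 1 ≤ k) (hkn : k ≤ n) :
    GG n J k 2 ≤ 2 * (((16 * n + 2 ^ J : ℝ) ^ (n - 1))⁻¹ * (2 * (16 * n) : ℝ) ^ (n - 1)) := by
  have hn' : (3 : ℝ) ≤ n := by exact_mod_cast hn
  have hδ0 : 0 < ((16 * n + 2 ^ J : ℝ) ^ (n - 1))⁻¹ := delta_pos n J hn
  have h1 : (16 * n - 1 : ℝ) ^ (k - 1) * (16 * n + 2) ^ (n - k)
      ≤ (2 * (16 * n) : ℝ) ^ (n - 1) := by
    have e : n - 1 = (k - 1) + (n - k) := by omega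
    rw [e, pow_add (2 * (16 * n) : ℝ)]
    apply mul_le_mul
    · exact pow_le_pow_left₀ (by linarith) (by linarith) _
    · exact pow_le_pow_left₀ (by linarith) (by linarith) _
    · positivity
    · positivity
  unfold GG
  have := mul_le_mul_of_nonneg_left h1 hδ0.le
  linarith

/-- One cycle, two negative coordinates. -/
lemma cycle_aux {J : ℕ} {κ : ℝ} (hn : 3 ≤ n) (hJ : n * (2 : ℝ) ^ J < κ) (hJ1 : 1 ≤ J)
    {a : ℝ} (ha : 0 < a) (v : Fin n → ℝ) (hv : ∀ i, v i = a ∨ v i = -a)
    (i0 l1 l2 : Fin n) (hi0 : v i0 = a) (hl1 : v l1 = -a) (hl2 : v l2 = -a) (hl : l2 ≠ l1) :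
    ee (Cone n κ) (Tg n (2 * a)) v
      ≤ 2 * (((16 * n + 2 ^ J : ℝ) ^ (n - 1))⁻¹ * (2 * (16 * n) : ℝ) ^ (n - 1)) := by
  have hBd : Bd n J κ (2 * a) 0 := Bd_zero hn hJ
  have hil : i0 ≠ l1 := fun h => by rw [h, hl1] at hi0; linarith
  have h2J : 2 * a ≤ 2 ^ J * a := by
    have : (2 : ℝ) ^ 1 ≤ 2 ^ J := pow_le_pow_right₀ (by norm_num) hJ1
    rw [pow_one] at this
    exact mul_le_mul_of_nonneg_right this ha.le
  -- all states of ratio two are good
  have hstate : ∀ A : Finset (Fin n), A.Nonempty → A ≠ Finset.univ →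
      ee (Cone n κ) (Tg n (2 * a)) (st A (2 * a) a)
      ≤ 2 * (((16 * n + 2 ^ J : ℝ) ^ (n - 1))⁻¹ * (2 * (16 * n) : ℝ) ^ (n - 1)) := by
    intro A hA hA'
    have h1 := hBd A a 1 hA hA' ha hJ1 (by rw [pow_one])
    rw [pow_one, add_zero] at h1
    exact h1.trans (GG_two_le hn (Finset.card_pos.2 hA) (card_lt_of_ne_univ hA').le)
  set c1 : ℝ := 2 * (((16 * n + 2 ^ J : ℝ) ^ (n - 1))⁻¹ * (2 * (16 * n) : ℝ) ^ (n - 1)) with hc1
  have hsp := ee_split (U := Cone n κ) (T := Tg n (2 * a)) (x := v) l1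
    (lo := -(2 * a)) (hi := 2 * a) (by rw [hl1]; linarith) (by rw [hl1]; linarith)
    (by linarith) (by
      intro t ht
      apply cone_mem' hJ ha h2J
      · exact ⟨i0, by rw [Function.update_of_ne hil, hi0]⟩
      · exact ⟨l2, by rw [Function.update_of_ne hl, hl2]⟩
      · intro m
        by_cases hm : m = l1
        · subst hm; rw [Function.update_self]; exact ht
        · rw [Function.update_of_ne hm]
          rcases hv m with h | h <;> rw [h] <;> constructor <;> linarith)
  -- the lower branch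
  have hlow : ee (Cone n κ) (Tg n (2 * a)) (Function.update v l1 (-(2 * a))) ≤ c1 := by
    apply box_const (ξ := -a) (lo := -(2 * a)) (hi := a) (by linarith) (by linarith)
      (by linarith) (Finset.univ.filter (fun j => v j = -a ∧ j ≠ l1))
    · intro m hm
      rw [Finset.mem_filter] at hm
      rw [Function.update_of_ne hm.2.2, hm.2.1]
    · intro y hy1 hy2
      apply cone_mem' hJ ha h2J
      · refine ⟨i0, ?_⟩
        rw [hy1 i0 (by
          rw [Finset.mem_filter]
          rintro ⟨-, h, -⟩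
          rw [hi0] at h
          linarith), Function.update_of_ne hil, hi0]
      · refine ⟨l1, ?_⟩
        rw [hy1 l1 (by simp), Function.update_self]
        linarith
      · intro m
        by_cases hm : m ∈ Finset.univ.filter (fun j => v j = -a ∧ j ≠ l1)
        · exact ⟨(hy2 m hm).1, by linarith [(hy2 m hm).2]⟩
        · rw [hy1 m hm]
          by_cases hml : m = l1
          · subst hml
            rw [Function.update_self]
            constructor <;> linarith
          · rw [Function.update_of_ne hml]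
            rcases hv m with h | h <;> rw [h] <;> constructor <;> linarith
    · intro B hB
      have hBm : ∀ m ∈ B, v m = -a ∧ m ≠ l1 := fun m hm => by
        have := hB hm
        rw [Finset.mem_filter] at this
        exact this.2
      have hl1B : l1 ∉ B := fun h => (hBm l1 h).2 rfl
      have e : (fun m => if m ∈ B then -(2 * a)
          else if m ∈ Finset.univ.filter (fun j => v j = -a ∧ j ≠ l1) then a
          else Function.update v l1 (-(2 * a)) m) = st (insert l1 B)ᶜ (2 * a) a := by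
        funext m
        by_cases hml : m = l1
        · subst hml
          simp [st, hl1B]
        · by_cases hmB : m ∈ B
          · simp [st, hmB]
          · rcases hv m with h | h
            · have h3 : ¬ (a = -a) := fun h => by linarith
              simp [st, hmB, hml, h, h3]
            · simp [st, hmB, hml, h]
      rw [e]
      apply hstate
      · refine ⟨i0, ?_⟩
        rw [Finset.mem_compl, Finset.mem_insert]
        rintro (h | h)
        · exact hil h
        · have := (hBm i0 h).1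
          rw [hi0] at this
          linarith
      · intro h
        have := Finset.mem_univ l1
        rw [← h] at this
        simp at this
  -- the upper branch
  have hupp : ee (Cone n κ) (Tg n (2 * a)) (Function.update v l1 (2 * a)) ≤ c1 := by
    have hnv : ¬ (-a = a) := fun h => by linarith
    apply box_const (ξ := a) (lo := -a) (hi := 2 * a) (by linarith) (by linarith)
      (by linarith) (Finset.univ.filter (fun j => v j = a))
    · intro m hm
      rw [Finset.mem_filter] at hm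
      have hml : m ≠ l1 := fun h => by
        have h2 := hm.2
        rw [h, hl1] at h2
        exact hnv h2
      rw [Function.update_of_ne hml, hm.2]
    · intro y hy1 hy2
      apply cone_mem' hJ ha h2J
      · refine ⟨l1, ?_⟩
        rw [hy1 l1 (by simp [hl1, hnv]), Function.update_self]
        linarith
      · refine ⟨l2, ?_⟩
        rw [hy1 l2 (by simp [hl2, hnv]), Function.update_of_ne hl, hl2]
      · intro m
        by_cases hm : m ∈ Finset.univ.filter (fun j => v j = a)
        · exact ⟨by linarith [(hy2 m hm).1], (hy2 m hm).2⟩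
        · rw [hy1 m hm]
          by_cases hml : m = l1
          · subst hml
            rw [Function.update_self]
            constructor <;> linarith
          · rw [Function.update_of_ne hml]
            rcases hv m with h | h <;> rw [h] <;> constructor <;> linarith
    · intro B hB
      have hBm : ∀ m ∈ B, v m = a := fun m hm => by
        have := hB hm
        rw [Finset.mem_filter] at this
        exact this.2
      have hl1B : l1 ∉ B := fun h => by
        have h2 := hBm l1 h
        rw [hl1] at h2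
        exact hnv h2
      have e : (fun m => if m ∈ B then -a
          else if m ∈ Finset.univ.filter (fun j => v j = a) then 2 * a
          else Function.update v l1 (2 * a) m)
          = -(st (Finset.univ.filter (fun j => j ∈ B ∨ (v j = -a ∧ j ≠ l1))) (2 * a) a) := by
        funext m
        rw [Pi.neg_apply]
        by_cases hml : m = l1
        · subst hml
          simp [st, hl1B, hl1, hnv]
        · by_cases hmB : m ∈ B
          · simp [st, hmB]
          · rcases hv m with h | h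
            · have h3 : ¬ (a = -a) := fun h => by linarith
              simp [st, hmB, h, h3]
            · simp [st, hmB, hml, h, hnv]
      rw [e]
      have hne : (Finset.univ.filter (fun j => j ∈ B ∨ (v j = -a ∧ j ≠ l1))).Nonempty :=
        ⟨l2, by simp [hl2, hl]⟩
      have hnu : (Finset.univ.filter (fun j => j ∈ B ∨ (v j = -a ∧ j ≠ l1))) ≠ Finset.univ := by
        intro h
        have := Finset.mem_univ l1
        rw [← h] at this
        simp [hl1B] at this
      have hm := st_mem hJ hne hnu ha hJ1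
      rw [pow_one] at hm
      have h4 := ee_neg_le (T := Tg n (2 * a)) (Tg_neg (2 * a))
        (x := -(st (Finset.univ.filter (fun j => j ∈ B ∨ (v j = -a ∧ j ≠ l1))) (2 * a) a))
        (by rw [neg_neg]; exact hm)
      rw [neg_neg] at h4
      exact h4.trans (hstate _ hne hnu)
  have hπ0 : 0 ≤ (2 * a - v l1) / (2 * a - -(2 * a)) := by
    rw [hl1]
    exact div_nonneg (by linarith) (by linarith)
  have hπ1 : (2 * a - v l1) / (2 * a - -(2 * a)) ≤ 1 := by
    rw [hl1, div_le_one (by linarith)]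
    linarith
  have g1 := mul_le_mul_of_nonneg_left hlow hπ0
  have g2 := mul_le_mul_of_nonneg_left hupp
    (by linarith : 0 ≤ 1 - (2 * a - v l1) / (2 * a - -(2 * a)))
  linarith

/-- One cycle. -/
lemma cycle {J : ℕ} {κ : ℝ} (hn : 3 ≤ n) (hJ : n * (2 : ℝ) ^ J < κ) (hJ1 : 1 ≤ J)
    {a : ℝ} (ha : 0 < a) (v : Fin n → ℝ) (hv : ∀ i, v i = a ∨ v i = -a)
    (hp : ∃ i, v i = a) (hq : ∃ i, v i = -a) :
    1 - 2 * (((16 * n + 2 ^ J : ℝ) ^ (n - 1))⁻¹ * (2 * (16 * n) : ℝ) ^ (n - 1))
      ≤ rr (Cone n κ) (Tg n (2 * a)) v := by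
  suffices h : ee (Cone n κ) (Tg n (2 * a)) v
      ≤ 2 * (((16 * n + 2 ^ J : ℝ) ^ (n - 1))⁻¹ * (2 * (16 * n) : ℝ) ^ (n - 1)) by
    unfold ee at h
    linarith
  obtain ⟨i0, hi0⟩ := hp
  obtain ⟨l1, hl1⟩ := hq
  have hil : i0 ≠ l1 := fun h => by rw [h, hl1] at hi0; linarith
  have hpu : ({i0, l1} : Finset (Fin n)) ≠ Finset.univ := fun h => by
    have := congrArg Finset.card h
    rw [Finset.card_pair hil] at this
    simp at this
    omega
  obtain ⟨m, hm⟩ := exists_mem_compl hpu
  have hm' : m ≠ i0 ∧ m ≠ l1 := by simpa using hm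
  rcases hv m with h | h
  · have hnv : ∀ i, (-v) i = a ∨ (-v) i = -a := by
      intro i
      rcases hv i with h | h
      · right; simp [h]
      · left; simp [h]
    have h1 := cycle_aux hn hJ hJ1 ha (-v) hnv l1 i0 m (by simp [hl1]) (by simp [hi0])
      (by simp [h]) hm'.1
    have hmem : -v ∈ Cone n κ := by
      apply cone_mem' hJ ha (B := a) (by
        have : (1 : ℝ) ≤ 2 ^ J := one_le_pow₀ (by norm_num)
        nlinarith)
      · exact ⟨l1, by simp [hl1]⟩
      · exact ⟨i0, by simp [hi0]⟩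
      · intro i
        rcases hnv i with h | h <;> rw [h] <;> constructor <;> linarith
    exact (ee_neg_le (Tg_neg _) hmem).trans h1
  · exact cycle_aux hn hJ hJ1 ha v hv i0 l1 m hi0 hl1 h hm'.2

lemma iterate {U T T' : Set (Fin n → ℝ)} {ρ : ℝ}
    (hT : ∀ y ∈ T, y ∈ U → ρ ≤ rr U T' y) {x : Fin n → ℝ} {p : ℝ} (h : Reach U T x p) :
    ρ * p ≤ rr U T' x := by
  induction h with
  | target h1 h2 => rw [mul_one]; exact hT _ h2 h1
  | stop h => rw [mul_zero]; exact rr_nonneg h
  | @split x i α β p q hα hβ hU _ _ ih1 ih2 =>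
    have h0 : 0 < α + β := by linarith
    have hsp := rr_split (U := U) (T := T') (x := x) i (lo := x i - β) (hi := x i + α)
      (by linarith) (by linarith) (by linarith) (by
        intro t ht
        rw [update_eq_add]
        apply hU
        constructor
        · linarith [ht.1]
        · linarith [ht.2])
    have e1 : Function.update x i (x i - β) = x + Pi.single i (-β) := by
      rw [update_eq_add]
      have : x i - β - x i = -β := by ring
      rw [this]
    have e2 : Function.update x i (x i + α) = x + Pi.single i α := by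
      rw [update_eq_add]
      have : x i + α - x i = α := by ring
      rw [this]
    rw [e1, e2] at hsp
    have e3 : (x i + α - x i) / (x i + α - (x i - β)) = α / (α + β) := by
      have a1 : x i + α - x i = α := by ring
      have a2 : x i + α - (x i - β) = α + β := by ring
      rw [a1, a2]
    rw [e3] at hsp
    have e4 : 1 - α / (α + β) = β / (α + β) := by
      field_simp
      ring
    rw [e4] at hsp
    have g1 := mul_le_mul_of_nonneg_left ih1 (by positivity : 0 ≤ β / (α + β))
    have g2 := mul_le_mul_of_nonneg_left ih2 (by positivity : 0 ≤ α / (α + β))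
    calc ρ * ((β * p + α * q) / (α + β)) = β / (α + β) * (ρ * p) + α / (α + β) * (ρ * q) := by
          ring
      _ ≤ rr U T' x := by linarith

lemma Reach.mono {U T T' : Set (Fin n → ℝ)} (h : T ⊆ T') {x : Fin n → ℝ} {p : ℝ}
    (hr : Reach U T x p) : Reach U T' x p := by
  induction hr with
  | target h1 h2 => exact Reach.target h1 (h h2)
  | stop h => exact Reach.stop h
  | split i hα hβ hU _ _ ih1 ih2 => exact Reach.split i hα hβ hU ih1 ih2

lemma rr_mono {U T T' : Set (Fin n → ℝ)} (h : T ⊆ T') {x : Fin n → ℝ} (hx : x ∈ U) :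
    rr U T x ≤ rr U T' x :=
  csSup_le ⟨0, Reach.stop hx⟩ (fun _ hp => le_rr (Reach.mono h hp))

lemma chain {J : ℕ} {κ : ℝ} (hn : 3 ≤ n) (hJ : n * (2 : ℝ) ^ J < κ) (hJ1 : 1 ≤ J) {c1 : ℝ}
    (hc : c1 = 2 * (((16 * n + 2 ^ J : ℝ) ^ (n - 1))⁻¹ * (2 * (16 * n) : ℝ) ^ (n - 1)))
    (hc2 : c1 ≤ 1 / 2) (m : ℕ) :
    ∀ (a : ℝ), 0 < a → ∀ (v : Fin n → ℝ), (∀ i, v i = a ∨ v i = -a) →
    (∃ i, v i = a) → (∃ i, v i = -a) →
    (1 - c1) ^ m ≤ rr (Cone n κ) (Tg n (2 ^ m * a)) v := by
  have hmem : ∀ (a : ℝ), 0 < a → ∀ (v : Fin n → ℝ), (∀ i, v i = a ∨ v i = -a) →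
      (∃ i, v i = a) → (∃ i, v i = -a) → v ∈ Cone n κ := by
    intro a ha v hv hp hq
    apply cone_mem' hJ ha (B := a) (by
      have : (1 : ℝ) ≤ 2 ^ J := one_le_pow₀ (by norm_num)
      nlinarith)
    · obtain ⟨i, hi⟩ := hp
      exact ⟨i, hi.ge⟩
    · obtain ⟨i, hi⟩ := hq
      exact ⟨i, hi.le⟩
    · intro i
      rcases hv i with h | h <;> rw [h] <;> constructor <;> linarith
  induction m with
  | zero =>
    intro a ha v hv hp hq
    have hT : v ∈ Tg n (2 ^ 0 * a) := ⟨a, by simp, hv⟩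
    rw [rr_eq_one (hmem a ha v hv hp hq) hT, pow_zero]
  | succ m ih =>
    intro a ha v hv hp hq
    have hvm := hmem a ha v hv hp hq
    have h1 := cycle hn hJ hJ1 ha v hv hp hq
    rw [← hc] at h1
    have hρ : 0 < (1 - c1) ^ m := pow_pos (by linarith) m
    have hkey : ∀ y ∈ Tg n (2 * a), y ∈ Cone n κ →
        (1 - c1) ^ m ≤ rr (Cone n κ) (Tg n (2 ^ (m + 1) * a)) y := by
      rintro y ⟨b, hb, hy⟩ hyU
      have hb0 : 0 < b := by linarith [hb]
      have hyp : ∃ i, y i = b := by
        obtain ⟨i, hi⟩ := cone_pos hyU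
        rcases hy i with h | h
        · exact ⟨i, h⟩
        · rw [h] at hi; linarith
      have hyq : ∃ i, y i = -b := by
        obtain ⟨i, hi⟩ := cone_pos (cone_neg hyU)
        rw [Pi.neg_apply] at hi
        rcases hy i with h | h
        · rw [h] at hi; linarith
        · exact ⟨i, h⟩
      have h2 := ih b hb0 y hy hyp hyq
      refine h2.trans (rr_mono (Tg_mono ?_) hyU)
      have : (0 : ℝ) < 2 ^ m := by positivity
      calc (2 : ℝ) ^ (m + 1) * a = 2 ^ m * (2 * a) := by ring
        _ ≤ 2 ^ m * b := mul_le_mul_of_nonneg_left hb this.le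
    have h3 : rr (Cone n κ) (Tg n (2 * a)) v
        ≤ rr (Cone n κ) (Tg n (2 ^ (m + 1) * a)) v / (1 - c1) ^ m := by
      apply csSup_le ⟨0, Reach.stop hvm⟩
      intro p hp
      rw [le_div_iff₀ hρ, mul_comm]
      exact iterate hkey hp
    have h4 := h1.trans h3
    rw [le_div_iff₀ hρ] at h4
    rw [pow_succ, mul_comm]
    exact h4

/-- The chain theorem. -/
theorem exists_reach {n : ℕ} (hn : 3 ≤ n) : ∃ C K0 : ℝ, 0 < C ∧ 0 < K0 ∧ ∀ κ ≥ K0,
    ∀ v0 : Fin n → ℝ, (∀ i, v0 i = 1 ∨ v0 i = -1) → (∃ i, v0 i = 1) → (∃ i, v0 i = -1) →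
    ∃ c1 : ℝ, 0 ≤ c1 ∧ c1 ≤ 1 / 2 ∧ c1 ≤ C * κ ^ (1 - (n : ℝ)) ∧
      ∀ m : ℕ, ∀ p < (1 - c1) ^ m, ∃ q ≥ p,
        Reach (Cone n κ) {v | ∃ a ≥ (2 : ℝ) ^ m, ∀ i, v i = a ∨ v i = -a} v0 q := by
  have hn' : (3 : ℝ) ≤ n := by exact_mod_cast hn
  set C : ℝ := 2 * (2 * (16 * n)) ^ (n - 1) * (4 * n) ^ (n - 1) with hC
  have hC0 : 0 < C := by positivity
  refine ⟨C, 4 * n + 2 * C, hC0, by positivity, ?_⟩
  intro κ hκ v0 hv0 hp hq
  have hκn : 4 * (n : ℝ) ≤ κ := by linarith
  have hκC : 2 * C ≤ κ := by linarith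
  have hκ1 : 1 ≤ κ := by linarith
  have hκ0 : 0 < κ := by linarith
  have hx2 : 2 ≤ κ / (2 * n) := by
    rw [le_div_iff₀ (by positivity)]
    linarith
  obtain ⟨J, hJ1, hJ2⟩ := exists_nat_pow_near (x := κ / (2 * n)) (y := (2 : ℝ)) (by linarith)
    (by norm_num)
  have hJpos : 1 ≤ J := by
    by_contra h
    have : J = 0 := by omega
    subst this
    norm_num at hJ2
    linarith
  have hJκ : n * (2 : ℝ) ^ J < κ := by
    rw [le_div_iff₀ (by positivity)] at hJ1
    linarith
  have hJκ' : κ / (4 * n) ≤ 2 ^ J := by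
    rw [pow_succ] at hJ2
    have : κ / (4 * n) = κ / (2 * n) / 2 := by
      field_simp
      ring
    rw [this]
    linarith
  set c1 : ℝ := 2 * (((16 * n + 2 ^ J : ℝ) ^ (n - 1))⁻¹ * (2 * (16 * n) : ℝ) ^ (n - 1)) with hc1
  have hc0 : 0 ≤ c1 := by positivity
  have hle : c1 ≤ C * (κ ^ (n - 1))⁻¹ := by
    have h1 : (κ / (4 * n)) ^ (n - 1) ≤ (16 * n + 2 ^ J : ℝ) ^ (n - 1) :=
      pow_le_pow_left₀ (by positivity) (by linarith) _
    have h2 : ((16 * n + 2 ^ J : ℝ) ^ (n - 1))⁻¹ ≤ ((κ / (4 * n)) ^ (n - 1))⁻¹ :=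
      inv_anti₀ (by positivity) h1
    have h3 : ((κ / (4 * n)) ^ (n - 1))⁻¹ = (4 * n) ^ (n - 1) * (κ ^ (n - 1))⁻¹ := by
      rw [div_pow, inv_div, div_eq_mul_inv]
    rw [h3] at h2
    have h4 : 0 ≤ (2 * (16 * n) : ℝ) ^ (n - 1) := by positivity
    have h5 := mul_le_mul_of_nonneg_right h2 h4
    calc c1 = 2 * (((16 * n + 2 ^ J : ℝ) ^ (n - 1))⁻¹ * (2 * (16 * n) : ℝ) ^ (n - 1)) := rfl
      _ ≤ 2 * ((4 * n) ^ (n - 1) * (κ ^ (n - 1))⁻¹ * (2 * (16 * n) : ℝ) ^ (n - 1)) := by linarith
      _ = C * (κ ^ (n - 1))⁻¹ := by rw [hC]; ring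
  have hhalf : c1 ≤ 1 / 2 := by
    have h1 : κ ≤ κ ^ (n - 1) := le_self_pow₀ hκ1 (by omega)
    have h2 : (κ ^ (n - 1))⁻¹ ≤ κ⁻¹ := inv_anti₀ hκ0 h1
    have h3 := mul_le_mul_of_nonneg_left h2 hC0.le
    have h4 : C * κ⁻¹ ≤ 1 / 2 := by
      rw [← div_eq_mul_inv, div_le_iff₀ hκ0]
      linarith
    linarith
  have hrpow : κ ^ (1 - (n : ℝ)) = (κ ^ (n - 1))⁻¹ := by
    have e : (1 - (n : ℝ)) = -((n - 1 : ℕ) : ℝ) := by
      rw [Nat.cast_sub (by omega : 1 ≤ n)]
      push_cast
      ring
    rw [e, Real.rpow_neg hκ0.le, Real.rpow_natCast]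
  refine ⟨c1, hc0, hhalf, by rw [hrpow]; exact hle, ?_⟩
  intro m p hp'
  have h1 := chain hn hJκ hJpos hc1 hhalf m 1 (by norm_num) v0 hv0 hp hq
  have hmem : v0 ∈ Cone n κ := by
    apply cone_mem' hJκ (P := 1) (B := 1) (by norm_num)
    · have : (1 : ℝ) ≤ 2 ^ J := one_le_pow₀ (by norm_num)
      linarith
    · obtain ⟨i, hi⟩ := hp
      exact ⟨i, hi.ge⟩
    · obtain ⟨i, hi⟩ := hq
      exact ⟨i, hi.le⟩
    · intro i
      rcases hv0 i with h | h <;> rw [h] <;> constructor <;> norm_num
  obtain ⟨q, hq1, hq2⟩ := exists_reach_gt (T := Tg n (2 ^ m * 1)) hmem (hp'.trans_le h1)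
  refine ⟨q, hq1.le, ?_⟩
  rw [mul_one] at hq2
  exact hq2

end Pool.Agent.Lib.MP_02db74_an
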