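import Mathlib

/-!
Definitions for problem MP_02db74_an: Pucci operators, the class `S(lam, Lam)` of viscosity
solutions, touching paraboloids, the Hessian measure estimate and its optimal exponent.
-/

open MeasureTheory Metric

namespace Pool.Agent.Lib.MP_02db74_an

/-- The space `ℝⁿ` with the Euclidean norm. -/
abbrev E (n : ℕ) := EuclideanSpace ℝ (Fin n)

open Classical in
/-- The Pucci operator `M⁻(X) = lam ∑_{e_i > 0} e_i + Lam ∑_{e_i < 0} e_i` of a symmetric matrix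
`X` with eigenvalues `e_i` (and `0`, never used, if `X` is not symmetric). -/
noncomputable def pucciMinus {n : ℕ} (lam Lam : ℝ) (X : Matrix (Fin n) (Fin n) ℝ) : ℝ :=
  if h : X.IsHermitian then
    ∑ i, (if 0 < h.eigenvalues i then lam * h.eigenvalues i else Lam * h.eigenvalues i) else 0

open Classical in
/-- The Pucci operator `M⁺(X) = Lam ∑_{e_i > 0} e_i + lam ∑_{e_i < 0} e_i` of a symmetric matrix
`X` with eigenvalues `e_i` (and `0`, never used, if `X` is not symmetric). -/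
noncomputable def pucciPlus {n : ℕ} (lam Lam : ℝ) (X : Matrix (Fin n) (Fin n) ℝ) : ℝ :=
  if h : X.IsHermitian then
    ∑ i, (if 0 < h.eigenvalues i then Lam * h.eigenvalues i else lam * h.eigenvalues i) else 0

/-- The Hessian matrix of `φ` at `x`. -/
noncomputable def hess {n : ℕ} (φ : E n → ℝ) (x : E n) : Matrix (Fin n) (Fin n) ℝ :=
  Matrix.of fun i j =>
    fderiv ℝ (fderiv ℝ φ) x (EuclideanSpace.single i 1) (EuclideanSpace.single j 1)

/-- `M⁻(D²u) ≤ 0` in the unit ball in the viscosity sense. -/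
def ViscSuper {n : ℕ} (lam Lam : ℝ) (u : E n → ℝ) : Prop :=
  ∀ x ∈ ball (0 : E n) 1, ∀ φ : E n → ℝ, ContDiff ℝ 2 φ →
    IsLocalMin (fun y => u y - φ y) x → pucciMinus lam Lam (hess φ x) ≤ 0

/-- `0 ≤ M⁺(D²u)` in the unit ball in the viscosity sense. -/
def ViscSub {n : ℕ} (lam Lam : ℝ) (u : E n → ℝ) : Prop :=
  ∀ x ∈ ball (0 : E n) 1, ∀ φ : E n → ℝ, ContDiff ℝ 2 φ →
    IsLocalMax (fun y => u y - φ y) x → 0 ≤ pucciPlus lam Lam (hess φ x)

/-- The class `S(lam, Lam)` on the unit ball. -/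
def ClassS (n : ℕ) (lam Lam : ℝ) (u : E n → ℝ) : Prop :=
  ContinuousOn u (ball 0 1) ∧ ViscSuper lam Lam u ∧ ViscSub lam Lam u

/-- A paraboloid `c + l·y + (M/2)|y|²` touches `u` at `x` from above in the unit ball. -/
def TouchAbove {n : ℕ} (u : E n → ℝ) (x : E n) (M : ℝ) : Prop :=
  ∃ (c : ℝ) (l : E n), (∀ y ∈ ball (0 : E n) 1, u y ≤ c + inner ℝ l y + M / 2 * ‖y‖ ^ 2) ∧
    u x = c + inner ℝ l x + M / 2 * ‖x‖ ^ 2

/-- A paraboloid `c + l·y - (M/2)|y|²` touches `u` at `x` from below in the unit ball. -/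
def TouchBelow {n : ℕ} (u : E n → ℝ) (x : E n) (M : ℝ) : Prop :=
  ∃ (c : ℝ) (l : E n), (∀ y ∈ ball (0 : E n) 1, c + inner ℝ l y - M / 2 * ‖y‖ ^ 2 ≤ u y) ∧
    u x = c + inner ℝ l x - M / 2 * ‖x‖ ^ 2

/-- `Θ(u, x)`: the infimum of the `M > 0` for which there are paraboloids of opening `M` touching
`u` at `x` both from above and from below (`∞` if there are none). -/
noncomputable def Theta {n : ℕ} (u : E n → ℝ) (x : E n) : ENNReal :=
  ⨅ (M : ℝ) (_ : 0 < M ∧ TouchAbove u x M ∧ TouchBelow u x M), ENNReal.ofReal M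

/-- The one-sided quantity: the infimum of the `M > 0` for which there is a paraboloid of opening
`M` touching `u` at `x` from below (`∞` if there are none). -/
noncomputable def ThetaBelow {n : ℕ} (u : E n → ℝ) (x : E n) : ENNReal :=
  ⨅ (M : ℝ) (_ : 0 < M ∧ TouchBelow u x M), ENNReal.ofReal M

/-- The `W^{2,ε}` (Hessian measure) estimate with exponent `ε`. -/
def Estimate (n : ℕ) (lam Lam ε : ℝ) : Prop :=
  ∃ C : ℝ, ∀ u : E n → ℝ, ClassS n lam Lam u → (∀ x ∈ ball (0 : E n) 1, |u x| ≤ 1) →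
    ∀ t : ℝ, 0 < t →
      volume {x : E n | x ∈ ball 0 (1 / 2) ∧ ENNReal.ofReal t < Theta u x} ≤
        ENNReal.ofReal (C * t ^ (-ε))

/-- The weaker one-sided estimate: only paraboloids touching from below are considered. -/
def EstimateBelow (n : ℕ) (lam Lam ε : ℝ) : Prop :=
  ∃ C : ℝ, ∀ u : E n → ℝ, ClassS n lam Lam u → (∀ x ∈ ball (0 : E n) 1, |u x| ≤ 1) →
    ∀ t : ℝ, 0 < t →
      volume {x : E n | x ∈ ball 0 (1 / 2) ∧ ENNReal.ofReal t < ThetaBelow u x} ≤
        ENNReal.ofReal (C * t ^ (-ε))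

/-- The estimate for supersolutions: continuous functions with `M⁻(D²u) ≤ 0` only, and only
paraboloids touching from below are considered. -/
def EstimateSuper (n : ℕ) (lam Lam ε : ℝ) : Prop :=
  ∃ C : ℝ, ∀ u : E n → ℝ, ContinuousOn u (ball 0 1) → ViscSuper lam Lam u →
    (∀ x ∈ ball (0 : E n) 1, |u x| ≤ 1) → ∀ t : ℝ, 0 < t →
      volume {x : E n | x ∈ ball 0 (1 / 2) ∧ ENNReal.ofReal t < ThetaBelow u x} ≤
        ENNReal.ofReal (C * t ^ (-ε))

/-- The optimal exponent `ε*(n, lam, Lam)`: the supremum of the exponents `ε > 0` for which the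
estimate holds. -/
noncomputable def epsStar (n : ℕ) (lam Lam : ℝ) : ℝ :=
  sSup {ε : ℝ | 0 < ε ∧ Estimate n lam Lam ε}

end Pool.Agent.Lib.MP_02db74_an
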