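import Pool.Agent.Lib.MP_02db74_an.Defs
import Pool.Agent.Lib.MP_02db74_an.Cell

/-!
From the splitting game to the exponent of the estimate.
-/

open MeasureTheory Metric Filter Topology

namespace Pool.Agent.Lib.MP_02db74_an

variable {n : ℕ}

theorem Reach.mem_start {U T : Set (Fin n → ℝ)} {x : Fin n → ℝ} {p : ℝ} (h : Reach U T x p) :
    x ∈ U := by
  cases h with
  | target h _ => exact h
  | stop h => exact h
  | split i hα hβ hseg _ _ => simpa using hseg 0 ⟨by linarith, hα.le⟩

theorem exists_neg_of_mem_cone {κ : ℝ} {v : Fin n → ℝ} (h : v ∈ Cone n κ) : ∃ i, v i < 0 := by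
  by_contra hcon
  push Not at hcon
  have h1 : ∑ i, max (-v i) 0 = 0 := Finset.sum_eq_zero fun i _ => by
    rw [max_eq_right]
    have := hcon i
    linarith
  have h2 : 0 ≤ ∑ i, max (v i) 0 := Finset.sum_nonneg fun i _ => le_max_right _ _
  have h3 := h.1
  rw [h1, mul_zero] at h3
  linarith

/-- The quadratic polynomial with diagonal Hessian `v`. -/
noncomputable def quad (v x : Fin n → ℝ) : ℝ := ∑ i, v i / 2 * x i ^ 2

theorem quad_line (v x : Fin n → ℝ) (i : Fin n) (t : ℝ) :
    quad v (x + Pi.single i t) = quad v x + v i * x i * t + v i / 2 * t ^ 2 := by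
  classical
  unfold quad
  have h1 : ∀ j, v j / 2 * (x + Pi.single i t : Fin n → ℝ) j ^ 2 = v j / 2 * x j ^ 2 +
      (if j = i then v i * x i * t + v i / 2 * t ^ 2 else 0) := by
    intro j
    by_cases h : j = i
    · subst h
      simp
      ring
    · simp [h]
  rw [Finset.sum_congr rfl fun j _ => h1 j, Finset.sum_add_distrib, Finset.sum_ite_eq' Finset.univ i]
  simp
  ring

theorem quad_D2 (v x : Fin n → ℝ) (i : Fin n) : D2 (quad v) i x (v i) := by
  refine ⟨fun t => v i * x i + v i * t, Eventually.of_forall fun t => ?_, ?_⟩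
  · simp only [quad_line]
    have h1 : HasDerivAt (fun t : ℝ => v i * x i * t) (v i * x i) t := by
      simpa using (hasDerivAt_id t).const_mul (v i * x i)
    have h2 : HasDerivAt (fun t : ℝ => v i / 2 * t ^ 2) (v i / 2 * (2 * t)) t := by
      simpa using (hasDerivAt_pow 2 t).const_mul (v i / 2)
    have h3 := (h1.const_add (quad v x)).add h2
    refine h3.congr_deriv ?_
    ring
  · have h1 : HasDerivAt (fun t : ℝ => v i * t) (v i) 0 := by
      simpa using (hasDerivAt_id (0 : ℝ)).const_mul (v i)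
    exact h1.const_add _

theorem continuous_quad (v : Fin n → ℝ) : Continuous (quad v) := by
  unfold quad
  fun_prop

theorem abs_quad_le {v x : Fin n → ℝ} (hv : ∀ i, |v i| ≤ 1) : |quad v x| ≤ (∑ i, x i ^ 2) / 2 := by
  unfold quad
  refine (Finset.abs_sum_le_sum_abs _ _).trans ?_
  rw [Finset.sum_div]
  refine Finset.sum_le_sum fun i _ => ?_
  rw [abs_mul, abs_div, abs_of_nonneg (sq_nonneg (x i)), abs_two]
  have := hv i
  have h2 := sq_nonneg (x i)
  nlinarith

/-- Opening of a paraboloid touching from below. -/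
theorem touchBelow_bound {w : (Fin n → ℝ) → ℝ} {x : E n} (hx : x ∈ ball (0 : E n) 1) {M : ℝ}
    (h : TouchBelow (toE w) x M) {i : Fin n} {a : ℝ} (ha : D2 w i (fun j => x j) a) :
    -a ≤ M := by
  obtain ⟨c, l, h1, h2⟩ := h
  obtain ⟨r, h3, h4⟩ := ha
  -- the paraboloid along the line
  have hP : ∀ t : ℝ, c + inner ℝ l (x + EuclideanSpace.single i t) -
      M / 2 * ‖x + EuclideanSpace.single i t‖ ^ 2 =
      (c + inner ℝ l x - M / 2 * ‖x‖ ^ 2) + ((l i - M * x i) * t - M / 2 * t ^ 2) := by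
    intro t
    rw [norm_add_sq_real, inner_add_right, EuclideanSpace.inner_single_right,
      EuclideanSpace.inner_single_right, EuclideanSpace.norm_single]
    simp only [conj_trivial, Real.norm_eq_abs, sq_abs]
    ring
  have hd : ∀ t : ℝ, HasDerivAt (fun t : ℝ => (l i - M * x i) * t - M / 2 * t ^ 2)
      ((l i - M * x i) - M * t) t := by
    intro t
    have h1 : HasDerivAt (fun t : ℝ => (l i - M * x i) * t) (l i - M * x i) t := by
      simpa using (hasDerivAt_id t).const_mul (l i - M * x i)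
    have h2 : HasDerivAt (fun t : ℝ => M / 2 * t ^ 2) (M / 2 * (2 * t)) t := by
      simpa using (hasDerivAt_pow 2 t).const_mul (M / 2)
    refine (h1.sub h2).congr_deriv ?_
    ring
  have h5 : ∀ᶠ t in 𝓝 (0 : ℝ), HasDerivAt
      (fun t => w ((fun j => x j) + Pi.single i t) - ((l i - M * x i) * t - M / 2 * t ^ 2))
      (r t - ((l i - M * x i) - M * t)) t := by
    filter_upwards [h3] with t ht
    exact ht.sub (hd t)
  have h6 : HasDerivAt (fun t => r t - ((l i - M * x i) - M * t)) (a + M) 0 := by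
    have h7 : HasDerivAt (fun t : ℝ => (l i - M * x i) - M * t) (-M) 0 := by
      simpa using ((hasDerivAt_id (0 : ℝ)).const_mul M).const_sub (l i - M * x i)
    refine (h4.sub h7).congr_deriv ?_
    ring
  have h7 : IsLocalMin
      (fun t : ℝ => w ((fun j => x j) + Pi.single i t) - ((l i - M * x i) * t - M / 2 * t ^ 2))
      0 := by
    have hc : Tendsto (fun t : ℝ => x + EuclideanSpace.single i t) (𝓝 0) (𝓝 x) := by
      have := (hasDerivAt_line x i 0).continuousAt.tendsto
      have e0 : x + EuclideanSpace.single i (0 : ℝ) = x := by simp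
      rwa [e0] at this
    have h8 := hc.eventually (isOpen_ball.mem_nhds hx)
    filter_upwards [h8] with t ht
    have h9 := h1 _ ht
    rw [hP t, toE_line] at h9
    have h10 : toE w x = w ((fun j => x j) + Pi.single i 0) := by
      simp [toE]
    rw [h10] at h2
    rw [h2]
    linarith
  have := nonneg_of_localMin h5 h6 h7
  linarith

theorem thetaBelow_ge {w : (Fin n → ℝ) → ℝ} {x : E n} (hx : x ∈ ball (0 : E n) 1)
    {i : Fin n} {a : ℝ} (ha : D2 w i (fun j => x j) (-a)) :
    ENNReal.ofReal a ≤ ThetaBelow (toE w) x := by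
  refine le_iInf₂ fun M hM => ENNReal.ofReal_le_ofReal ?_
  have := touchBelow_bound hx hM.2 ha
  linarith

theorem thetaBelow_le_theta (u : E n → ℝ) (x : E n) : ThetaBelow u x ≤ Theta u x :=
  le_iInf₂ fun M hM => iInf₂_le M ⟨hM.1, hM.2.2⟩

theorem Estimate.below {lam Lam ε : ℝ} (h : Estimate n lam Lam ε) :
    EstimateBelow n lam Lam ε := by
  obtain ⟨C, hC⟩ := h
  refine ⟨C, fun u hu hb t ht => (measure_mono ?_).trans (hC u hu hb t ht)⟩
  rintro x ⟨h1, h2⟩
  exact ⟨h1, h2.trans_le (thetaBelow_le_theta u x)⟩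

theorem EstimateSuper.below {lam Lam ε : ℝ} (h : EstimateSuper n lam Lam ε) :
    EstimateBelow n lam Lam ε := by
  obtain ⟨C, hC⟩ := h
  exact ⟨C, fun u hu hb t ht => hC u hu.1 hu.2.1 hb t ht⟩

/-- The functions produced by the splitting game. -/
theorem exists_function (hn : 0 < n) {lam Lam : ℝ} (hlam : 0 < lam) (hLam : lam ≤ Lam)
    {v0 : Fin n → ℝ} (hv0 : ∀ i, v0 i = 1 ∨ v0 i = -1) {s q : ℝ} (hs : 0 < s)
    (h : Reach (Cone n (Lam / lam)) {v | ∃ a ≥ s, ∀ i, v i = a ∨ v i = -a} v0 q)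
    {η : ℝ} (hη : 0 < η) (hη1 : η ≤ 1 / 2) :
    ∃ u : E n → ℝ, ClassS n lam Lam u ∧ (∀ x ∈ ball (0 : E n) 1, |u x| ≤ 1) ∧
      ENNReal.ofReal ((q - η) * (1 / n) ^ n) ≤
        volume {x : E n | x ∈ ball 0 (1 / 2) ∧ ENNReal.ofReal s ≤ ThetaBelow u x} := by
  have hnR : (0 : ℝ) < n := by exact_mod_cast hn
  set a : ℝ := 1 / (2 * n) with ha
  have ha0 : 0 < a := by positivity
  have hU := isOpen_cone n (Lam / lam)
  obtain ⟨w, b, G, hwc, hwb, hwz, hwd, hwU, hGm, hGs, hGT, hGv⟩ :=
    h.cell hU (fun _ => -a) (fun _ => a) (fun _ => by linarith) η hη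
  have hbz : ∀ y ∉ box (fun _ : Fin n => -a) (fun _ => a), b y = 0 := by
    intro y hy
    funext j
    exact (hwd y j).unique (D2.of_eventually_zero (hwz y hy) j)
  have hD2 : ∀ x j, D2 (fun y => quad v0 y + w y) j x ((v0 + b x) j) := fun x j =>
    (quad_D2 v0 x j).add (hwd x j)
  refine ⟨toE fun y => quad v0 y + w y, ?_, ?_, ?_⟩
  · refine classS_of_D2 hlam hLam ((continuous_quad v0).add hwc) fun x => ⟨v0 + b x, ?_, hD2 x⟩
    by_cases hx : x ∈ box (fun _ : Fin n => -a) (fun _ => a)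
    · exact hwU x hx
    · rw [hbz x hx, add_zero]
      exact h.mem_start
  · intro x hx
    have h1 : |quad v0 fun j => x j| ≤ (∑ i, x i ^ 2) / 2 := abs_quad_le fun i => by
      rcases hv0 i with h | h <;> simp [h]
    have h2 : ∑ i, x i ^ 2 ≤ 1 := by
      rw [mem_ball_zero_iff] at hx
      have h3 := EuclideanSpace.real_norm_sq_eq x
      rw [← h3]
      have := norm_nonneg x
      nlinarith
    have h3 := hwb fun j => x j
    have h4 := abs_add_le (quad v0 fun j => x j) (w fun j => x j)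
    unfold toE
    linarith
  · -- measure
    have hpre : (WithLp.ofLp : E n → (Fin n → ℝ)) ⁻¹' G ⊆
        {x : E n | x ∈ ball 0 (1 / 2) ∧
          ENNReal.ofReal s ≤ ThetaBelow (toE fun y => quad v0 y + w y) x} := by
      intro x hx
      have hxG : (fun j => x j) ∈ G := hx
      have hxb := hGs hxG
      rw [mem_box] at hxb
      have hball : x ∈ ball (0 : E n) (1 / 2) := by
        rw [mem_ball_zero_iff]
        have h1 : ‖x‖ ^ 2 ≤ n * a ^ 2 := by
          rw [EuclideanSpace.real_norm_sq_eq]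
          calc ∑ i, x i ^ 2 ≤ ∑ _i : Fin n, a ^ 2 := Finset.sum_le_sum fun i _ => by
                have := hxb i
                exact sq_le_sq' this.1.le this.2.le
            _ = n * a ^ 2 := by simp
        have h2 : n * a ^ 2 ≤ 1 / 4 * (1 / n) := by
          rw [ha]
          field_simp
          norm_num
        have h3 : (1 / n : ℝ) ≤ 1 := by
          rw [div_le_one hnR]
          exact_mod_cast hn
        rcases lt_or_ge ‖x‖ (1 / 2) with h4 | h4
        · exact h4
        · exfalso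
          -- equality is impossible unless `n = 1`; use strictness
          have h5 : ‖x‖ ^ 2 < n * a ^ 2 := by
            rw [EuclideanSpace.real_norm_sq_eq]
            calc ∑ i, x i ^ 2 < ∑ _i : Fin n, a ^ 2 := by
                  refine Finset.sum_lt_sum_of_nonempty ?_ fun i _ => ?_
                  · exact ⟨⟨0, hn⟩, Finset.mem_univ _⟩
                  · have := hxb i
                    exact sq_lt_sq' this.1 this.2
              _ = n * a ^ 2 := by simp
          nlinarith
      refine ⟨hball, ?_⟩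
      have hball1 : x ∈ ball (0 : E n) 1 := ball_subset_ball (by norm_num) hball
      obtain ⟨a', ha', hva⟩ := hGT _ hxG
      obtain ⟨i, hi⟩ := exists_neg_of_mem_cone (hwU _ (hGs hxG))
      have ha'0 : 0 < a' := hs.trans_le ha'
      have hi' : (v0 + b fun j => x j) i = -a' := by
        rcases hva i with h | h
        · rw [h] at hi
          linarith
        · exact h
      have h1 := hD2 (fun j => x j) i
      rw [hi'] at h1
      exact (ENNReal.ofReal_le_ofReal ha').trans (thetaBelow_ge hball1 h1)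
    refine le_trans ?_ (measure_mono hpre)
    rw [(PiLp.volume_preserving_ofLp (Fin n)).measure_preimage hGm.nullMeasurableSet]
    have hGtop : volume G ≠ ⊤ := measure_ne_top_of_subset hGs (volume_box_ne_top _ _)
    rw [← ofReal_measureReal hGtop]
    refine ENNReal.ofReal_le_ofReal ?_
    have h1 : volume.real (box (fun _ : Fin n => -a) (fun _ => a)) = (1 / n) ^ n := by
      rw [volume_box fun _ => by linarith]
      simp only [Finset.prod_const, Finset.card_univ, Fintype.card_fin]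
      congr 1
      rw [ha]
      field_simp
      norm_num
    rw [← h1]
    exact hGv

theorem eps_le_of_reach (hn : 0 < n) {lam Lam : ℝ} (hlam : 0 < lam) (hLam : lam ≤ Lam)
    {v0 : Fin n → ℝ} (hv0 : ∀ i, v0 i = 1 ∨ v0 i = -1) {c1 : ℝ} (h0 : 0 ≤ c1) (h1 : c1 ≤ 1 / 2)
    (hreach : ∀ m : ℕ, ∀ p < (1 - c1) ^ m, ∃ q ≥ p,
      Reach (Cone n (Lam / lam)) {v | ∃ a ≥ (2 : ℝ) ^ m, ∀ i, v i = a ∨ v i = -a} v0 q)
    {ε : ℝ} (hE : EstimateBelow n lam Lam ε) : ε ≤ 4 * c1 := by
  have hnR : (0 : ℝ) < n := by exact_mod_cast hn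
  obtain ⟨C, hC⟩ := hE
  set V : ℝ := (1 / n) ^ n with hV
  have hV0 : 0 < V := by positivity
  have hc : 0 < 1 - c1 := by linarith
  -- the key inequality
  have key : ∀ m : ℕ, (1 - c1) ^ m / 2 * V ≤ C * ((2 : ℝ) ^ m / 2) ^ (-ε) := by
    intro m
    have hpm : 0 < (1 - c1) ^ m := by positivity
    have hpm1 : (1 - c1) ^ m ≤ 1 := pow_le_one₀ hc.le (by linarith)
    obtain ⟨q, hq, hR⟩ := hreach m (3 / 4 * (1 - c1) ^ m) (by linarith)
    obtain ⟨u, hu, hub, hum⟩ := exists_function hn hlam hLam hv0 (by positivity) hR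
      (η := (1 - c1) ^ m / 4) (by positivity) (by linarith)
    have h2 : (0 : ℝ) < 2 ^ m / 2 := by positivity
    have h3 := hC u hu hub _ h2
    have h4 : volume {x : E n | x ∈ ball 0 (1 / 2) ∧ ENNReal.ofReal (2 ^ m) ≤ ThetaBelow u x} ≤
        volume {x : E n | x ∈ ball 0 (1 / 2) ∧ ENNReal.ofReal (2 ^ m / 2) < ThetaBelow u x} := by
      refine measure_mono fun x hx => ⟨hx.1, lt_of_lt_of_le ?_ hx.2⟩
      rw [ENNReal.ofReal_lt_ofReal_iff (by positivity)]
      have : (0 : ℝ) < 2 ^ m := by positivity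
      linarith
    have h5 := (hum.trans h4).trans h3
    have h6 : 0 < (q - (1 - c1) ^ m / 4) * (1 / n : ℝ) ^ n := by
      have : 0 < q - (1 - c1) ^ m / 4 := by linarith
      positivity
    rcases ENNReal.ofReal_le_ofReal_iff'.1 h5 with h7 | h7
    · refine le_trans ?_ h7
      exact mul_le_mul_of_nonneg_right (by linarith) hV0.le
    · linarith
  -- growth
  have h2pos : (0 : ℝ) < 2 ^ ε := Real.rpow_pos_of_pos two_pos _
  have hpow : ∀ m : ℕ, ((1 - c1) * 2 ^ ε) ^ m * V ≤ 2 * C * 2 ^ ε := by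
    intro m
    have h2 := key m
    have h3 : ((2 : ℝ) ^ m / 2) ^ (-ε) = (((2 : ℝ) ^ ε) ^ m)⁻¹ * 2 ^ ε := by
      rw [Real.rpow_neg (by positivity), Real.div_rpow (by positivity) (by norm_num), inv_div,
        ← Real.rpow_natCast, ← Real.rpow_mul (by norm_num), mul_comm (m : ℝ) ε,
        Real.rpow_mul (by norm_num), Real.rpow_natCast]
      field_simp
    rw [h3] at h2
    have h4 : 0 < ((2 : ℝ) ^ ε) ^ m := by positivity
    have h5 := mul_le_mul_of_nonneg_right h2 (mul_pos two_pos h4).le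
    calc ((1 - c1) * 2 ^ ε) ^ m * V = (1 - c1) ^ m / 2 * V * (2 * (2 ^ ε) ^ m) := by
          rw [mul_pow]; ring
      _ ≤ C * ((((2 : ℝ) ^ ε) ^ m)⁻¹ * 2 ^ ε) * (2 * (2 ^ ε) ^ m) := h5
      _ = 2 * C * 2 ^ ε := by field_simp
  have hle : (1 - c1) * 2 ^ ε ≤ 1 := by
    by_contra hcon
    push Not at hcon
    have h2 := (tendsto_pow_atTop_atTop_of_one_lt hcon).atTop_mul_const hV0
    obtain ⟨m, hm⟩ := (h2.eventually_gt_atTop (2 * C * 2 ^ ε)).exists
    exact absurd (hpow m) (not_le.2 hm)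
  have h3 : 1 + ε * Real.log 2 ≤ 2 ^ ε := by
    rw [Real.rpow_def_of_pos two_pos, mul_comm ε, add_comm]
    exact Real.add_one_le_exp _
  have h4 : (1 - c1) * (1 + ε * Real.log 2) ≤ 1 := (mul_le_mul_of_nonneg_left h3 hc.le).trans hle
  have h5 : (1 : ℝ) / 2 < Real.log 2 := by
    have := Real.log_two_gt_d9
    linarith
  rcases le_or_gt ε 0 with h6 | h6
  · linarith
  · -- `ε log 2 (1 - c1) ≤ c1`
    have h7 : ε * (Real.log 2 * (1 - c1)) ≤ c1 := by nlinarith
    have h8 : (1 : ℝ) / 4 ≤ Real.log 2 * (1 - c1) := by nlinarith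
    nlinarith

end Pool.Agent.Lib.MP_02db74_an
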