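import Mathlib

/-!
One-dimensional building blocks: an oscillating profile with compact support whose second
derivative is `α` or `-β` most of the time, and a cut-off function.
-/

open Filter Topology

namespace Pool.Agent.Lib.MP_02db74_an

/-- Positive part. -/
def pp (t : ℝ) : ℝ := max t 0

theorem pp_of_nonpos {t : ℝ} (h : t ≤ 0) : pp t = 0 := max_eq_right h
theorem pp_of_nonneg {t : ℝ} (h : 0 ≤ t) : pp t = t := max_eq_left h

theorem hasDerivAt_pp_sq (t : ℝ) : HasDerivAt (fun t => pp t ^ 2) (2 * pp t) t := by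
  rcases lt_trichotomy t 0 with h | h | h
  · have h1 : (fun t => pp t ^ 2) =ᶠ[𝓝 t] fun _ => (0 : ℝ) := by
      filter_upwards [gt_mem_nhds h] with s hs
      rw [pp_of_nonpos hs.le]; norm_num
    rw [pp_of_nonpos h.le, mul_zero]
    exact (hasDerivAt_const t (0 : ℝ)).congr_of_eventuallyEq h1
  · subst h
    rw [pp_of_nonpos le_rfl, mul_zero]
    rw [hasDerivAt_iff_isLittleO]
    simp only [sub_zero, smul_eq_mul, mul_zero]
    rw [pp_of_nonpos (le_refl (0 : ℝ))]
    have h1 : (fun x : ℝ => pp x ^ 2 - 0 ^ 2) =O[𝓝 0] fun x : ℝ => x ^ 2 := by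
      refine Asymptotics.isBigO_of_le _ fun x => ?_
      rw [Real.norm_eq_abs, Real.norm_eq_abs, abs_of_nonneg (sq_nonneg x)]
      rcases le_total x 0 with h | h
      · rw [pp_of_nonpos h]; simp; positivity
      · rw [pp_of_nonneg h]; simp
    have h2 : (fun x : ℝ => x ^ 2) =o[𝓝 0] fun x : ℝ => x := by
      have := Asymptotics.isLittleO_pow_id (𝕜 := ℝ) (n := 2) (by norm_num)
      simpa using this
    exact h1.trans_isLittleO h2
  · have h1 : (fun t => pp t ^ 2) =ᶠ[𝓝 t] fun t => t ^ 2 := by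
      filter_upwards [lt_mem_nhds h] with s hs
      rw [pp_of_nonneg hs.le]
    rw [pp_of_nonneg h.le]
    have h2 : HasDerivAt (fun t : ℝ => t ^ 2) (2 * t) t := by
      simpa using hasDerivAt_pow 2 t
    exact h2.congr_of_eventuallyEq h1

theorem hasDerivAt_pp_cube (t : ℝ) : HasDerivAt (fun t => pp t ^ 3) (3 * pp t ^ 2) t := by
  rcases lt_trichotomy t 0 with h | h | h
  · have h1 : (fun t => pp t ^ 3) =ᶠ[𝓝 t] fun _ => (0 : ℝ) := by
      filter_upwards [gt_mem_nhds h] with s hs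
      rw [pp_of_nonpos hs.le]; norm_num
    rw [pp_of_nonpos h.le]
    simpa using (hasDerivAt_const t (0 : ℝ)).congr_of_eventuallyEq h1
  · subst h
    rw [pp_of_nonpos le_rfl]
    have h0 : (3 : ℝ) * 0 ^ 2 = 0 := by norm_num
    rw [h0, hasDerivAt_iff_isLittleO]
    simp only [sub_zero, smul_eq_mul, mul_zero]
    rw [pp_of_nonpos (le_refl (0 : ℝ))]
    have h1 : (fun x : ℝ => pp x ^ 3 - 0 ^ 3) =O[𝓝 0] fun x : ℝ => x ^ 3 := by
      refine Asymptotics.isBigO_of_le _ fun x => ?_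
      rcases le_total x 0 with h | h
      · rw [pp_of_nonpos h]; simp
      · rw [pp_of_nonneg h]; simp
    have h2 : (fun x : ℝ => x ^ 3) =o[𝓝 0] fun x : ℝ => x := by
      have := Asymptotics.isLittleO_pow_id (𝕜 := ℝ) (n := 3) (by norm_num)
      simpa using this
    exact h1.trans_isLittleO h2
  · have h1 : (fun t => pp t ^ 3) =ᶠ[𝓝 t] fun t => t ^ 3 := by
      filter_upwards [lt_mem_nhds h] with s hs
      rw [pp_of_nonneg hs.le]
    rw [pp_of_nonneg h.le]
    have h2 : HasDerivAt (fun t : ℝ => t ^ 3) (3 * t ^ 2) t := by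
      simpa using hasDerivAt_pow 3 t
    exact h2.congr_of_eventuallyEq h1

/-- The clamp `(t - u)⁺ - (t - v)⁺` is nondecreasing. -/
theorem clamp_mono {u v x y : ℝ} (huv : u ≤ v) (hxy : x ≤ y) :
    pp (x - u) - pp (x - v) ≤ pp (y - u) - pp (y - v) := by
  unfold pp
  rcases le_total (x - u) 0 with h1 | h1 <;> rcases le_total (x - v) 0 with h2 | h2 <;>
  rcases le_total (y - u) 0 with h3 | h3 <;> rcases le_total (y - v) 0 with h4 | h4 <;>
  simp only [max_eq_right h1, max_eq_left h1, max_eq_right h2, max_eq_left h2,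
    max_eq_right h3, max_eq_left h3, max_eq_right h4, max_eq_left h4] <;> linarith

/-- The clamp `(t - u)⁺ - (t - v)⁺` is `1`-Lipschitz. -/
theorem clamp_lip {u v x y : ℝ} (huv : u ≤ v) (hxy : x ≤ y) :
    (pp (y - u) - pp (y - v)) - (pp (x - u) - pp (x - v)) ≤ y - x := by
  unfold pp
  rcases le_total (x - u) 0 with h1 | h1 <;> rcases le_total (x - v) 0 with h2 | h2 <;>
  rcases le_total (y - u) 0 with h3 | h3 <;> rcases le_total (y - v) 0 with h4 | h4 <;>
  simp only [max_eq_right h1, max_eq_left h1, max_eq_right h2, max_eq_left h2,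
    max_eq_right h3, max_eq_left h3, max_eq_right h4, max_eq_left h4] <;> linarith

/-- The oscillating profile. -/
theorem exists_profile {α β η : ℝ} (hα : 0 < α) (hβ : 0 < β) (hη : 0 < η) :
    ∃ (φ φ1 φ2 : ℝ → ℝ) (a b : Fin 3 → ℝ),
      (∀ t, HasDerivAt φ (φ1 t) t) ∧ (∀ t, HasDerivAt φ1 (φ2 t) t) ∧
      (∃ c > 0, ∀ t, (t ≤ c ∨ 1 - c ≤ t) → φ t = 0) ∧
      (∀ t, -β ≤ φ2 t ∧ φ2 t ≤ α) ∧
      (0 < a 0 ∧ a 0 < b 0 ∧ b 0 < a 1 ∧ a 1 < b 1 ∧ b 1 < a 2 ∧ a 2 < b 2 ∧ b 2 < 1) ∧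
      (∀ t ∈ Set.Ioo (a 0) (b 0), φ2 t = α) ∧ (∀ t ∈ Set.Ioo (a 1) (b 1), φ2 t = -β) ∧
      (∀ t ∈ Set.Ioo (a 2) (b 2), φ2 t = α) ∧
      β / (α + β) - η ≤ (b 0 - a 0) + (b 2 - a 2) ∧ α / (α + β) - η ≤ b 1 - a 1 := by
  have hαβ : 0 < α + β := by positivity
  obtain ⟨τ, hτ0, hτ1, hτ2, hτ3⟩ : ∃ τ : ℝ, 0 < τ ∧ 8 * τ ≤ η ∧ 16 * τ * (α + β) ≤ α ∧
      16 * τ * (α + β) ≤ β := by
    refine ⟨min (η / 8) (min (α / (16 * (α + β))) (β / (16 * (α + β)))), by positivity, ?_, ?_, ?_⟩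
    · have := min_le_left (η / 8) (min (α / (16 * (α + β))) (β / (16 * (α + β))))
      linarith
    · have h1 : min (η / 8) (min (α / (16 * (α + β))) (β / (16 * (α + β)))) ≤
          α / (16 * (α + β)) := (min_le_right _ _).trans (min_le_left _ _)
      rw [le_div_iff₀ (by positivity)] at h1
      linarith
    · have h1 : min (η / 8) (min (α / (16 * (α + β))) (β / (16 * (α + β)))) ≤
          β / (16 * (α + β)) := (min_le_right _ _).trans (min_le_right _ _)
      rw [le_div_iff₀ (by positivity)] at h1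
      linarith
  have hτs : 16 * τ ≤ 1 := by nlinarith
  -- parameters: `s = 2τ` is the margin
  set p : ℝ := β * (1 - 4 * τ) / (2 * (α + β)) with hp
  set q : ℝ := α * (1 - 4 * τ) / (α + β) with hq
  have hpq : 2 * p + q = 1 - 4 * τ := by
    rw [hp, hq]; field_simp; ring
  have hqα : (α + β) * q = α * (1 - 4 * τ) := by rw [hq]; field_simp
  have hpβ : 2 * (α + β) * p = β * (1 - 4 * τ) := by rw [hp]; field_simp
  have hp4 : 4 * τ < p := by
    have : 2 * (α + β) * (4 * τ) < 2 * (α + β) * p := by rw [hpβ]; nlinarith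
    exact lt_of_mul_lt_mul_left this (by positivity)
  have hq4 : 4 * τ < q := by
    have : (α + β) * (4 * τ) < (α + β) * q := by rw [hqα]; nlinarith
    exact lt_of_mul_lt_mul_left this (by positivity)
  -- breakpoints
  set u1 : ℝ := 2 * τ with hu1
  set u2 : ℝ := 2 * τ + p with hu2
  set u3 : ℝ := 2 * τ + p + q with hu3
  set u4 : ℝ := 1 - 2 * τ with hu4
  have hu34 : u4 = u3 + p := by rw [hu4, hu3]; linarith
  set G : ℝ → ℝ := fun t => α * pp (t - u1) - (α + β) * pp (t - u2) + (α + β) * pp (t - u3) -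
    α * pp (t - u4) with hG
  set Φ : ℝ → ℝ := fun t => (α * pp (t - u1) ^ 2 - (α + β) * pp (t - u2) ^ 2 +
    (α + β) * pp (t - u3) ^ 2 - α * pp (t - u4) ^ 2) / 2 with hΦ
  set Ψ : ℝ → ℝ := fun t => (α * pp (t - u1) ^ 3 - (α + β) * pp (t - u2) ^ 3 +
    (α + β) * pp (t - u3) ^ 3 - α * pp (t - u4) ^ 3) / 6 with hΨ
  have hΦd : ∀ t, HasDerivAt Φ (G t) t := by
    intro t
    have h := fun u : ℝ => (hasDerivAt_pp_sq (t - u)).comp_sub_const t u
    have h2 := ((((h u1).const_mul α).sub ((h u2).const_mul (α + β))).add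
      ((h u3).const_mul (α + β))).sub ((h u4).const_mul α)
    convert! h2.div_const 2 using 1
    simp only [hG]; ring
  have hΨd : ∀ t, HasDerivAt Ψ (Φ t) t := by
    intro t
    have h := fun u : ℝ => (hasDerivAt_pp_cube (t - u)).comp_sub_const t u
    have h2 := ((((h u1).const_mul α).sub ((h u2).const_mul (α + β))).add
      ((h u3).const_mul (α + β))).sub ((h u4).const_mul α)
    convert! h2.div_const 6 using 1
    simp only [hΦ]; ring
  have hGinc : ∀ x y, x ≤ y → -β * (y - x) ≤ G y - G x ∧ G y - G x ≤ α * (y - x) := by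
    intro x y hxy
    have h12 : u1 ≤ u2 := by rw [hu1, hu2]; linarith
    have h23 : u2 ≤ u3 := by rw [hu2, hu3]; linarith
    have h34 : u3 ≤ u4 := by rw [hu34]; linarith
    have c1 := clamp_mono h12 hxy
    have c2 := clamp_mono h23 hxy
    have c3 := clamp_mono h34 hxy
    have c4 := clamp_lip ((h12.trans h23).trans h34) hxy
    have e : G y - G x = α * ((pp (y - u1) - pp (y - u2)) - (pp (x - u1) - pp (x - u2))) -
        β * ((pp (y - u2) - pp (y - u3)) - (pp (x - u2) - pp (x - u3))) +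
        α * ((pp (y - u3) - pp (y - u4)) - (pp (x - u3) - pp (x - u4))) := by
      simp only [hG]; ring
    rw [e]
    constructor <;> nlinarith
  refine ⟨fun t => (Ψ (t + τ) - Ψ (t - τ)) / (2 * τ), fun t => (Φ (t + τ) - Φ (t - τ)) / (2 * τ),
    fun t => (G (t + τ) - G (t - τ)) / (2 * τ),
    ![u1 + τ, u2 + τ, u3 + τ], ![u2 - τ, u3 - τ, u4 - τ], ?_, ?_, ?_, ?_, ?_, ?_, ?_, ?_, ?_, ?_⟩
  · intro t
    exact (((hΨd (t + τ)).comp_add_const t τ).sub ((hΨd (t - τ)).comp_sub_const t τ)).div_const _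
  · intro t
    exact (((hΦd (t + τ)).comp_add_const t τ).sub ((hΦd (t - τ)).comp_sub_const t τ)).div_const _
  · refine ⟨τ, hτ0, fun t ht => ?_⟩
    rcases ht with ht | ht
    · have z : ∀ u, u1 ≤ u → pp (t + τ - u) = 0 ∧ pp (t - τ - u) = 0 := fun u hu =>
        ⟨pp_of_nonpos (by rw [hu1] at hu; linarith), pp_of_nonpos (by rw [hu1] at hu; linarith)⟩
      have z1 := z u1 le_rfl
      have z2 := z u2 (by rw [hu1, hu2]; linarith)
      have z3 := z u3 (by rw [hu1, hu3]; linarith)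
      have z4 := z u4 (by rw [hu1, hu4]; linarith)
      simp only [hΨ, z1.1, z1.2, z2.1, z2.2, z3.1, z3.2, z4.1, z4.2]
      simp
    · have z : ∀ u, u ≤ u4 → pp (t + τ - u) = t + τ - u ∧ pp (t - τ - u) = t - τ - u := fun u hu =>
        ⟨pp_of_nonneg (by rw [hu4] at hu; linarith), pp_of_nonneg (by rw [hu4] at hu; linarith)⟩
      have z1 := z u1 (by rw [hu1, hu4]; linarith)
      have z2 := z u2 (by rw [hu2, hu4]; linarith)
      have z3 := z u3 (by rw [hu34]; linarith)
      have z4 := z u4 le_rfl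
      simp only [hΨ, z1.1, z1.2, z2.1, z2.2, z3.1, z3.2, z4.1, z4.2]
      rw [div_eq_zero_iff]
      left
      have hp2 : p = (1 - 4 * τ - q) / 2 := by linarith
      rw [hu1, hu2, hu3, hu4, hp2]
      clear_value q
      linear_combination (-(((t + τ) ^ 2 - (t - τ) ^ 2) / 2 - τ)) * hqα
  · intro t
    obtain ⟨h1, h2⟩ := hGinc (t - τ) (t + τ) (by linarith)
    constructor
    · rw [le_div_iff₀ (by positivity)]; linarith
    · rw [div_le_iff₀ (by positivity)]; linarith
  · simp only [Matrix.cons_val_zero, Matrix.cons_val_one, Matrix.cons_val]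
    refine ⟨?_, ?_, ?_, ?_, ?_, ?_, ?_⟩ <;> (simp only [hu1, hu2, hu3, hu4]; linarith)
  · simp only [Matrix.cons_val_zero]
    rintro t ⟨h1, h2⟩
    have e1 : pp (t + τ - u1) = t + τ - u1 := pp_of_nonneg (by linarith)
    have e2 : pp (t - τ - u1) = t - τ - u1 := pp_of_nonneg (by linarith)
    have e3 : pp (t + τ - u2) = 0 := pp_of_nonpos (by linarith)
    have e4 : pp (t - τ - u2) = 0 := pp_of_nonpos (by linarith)
    have e5 : pp (t + τ - u3) = 0 := pp_of_nonpos (by linarith)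
    have e6 : pp (t - τ - u3) = 0 := pp_of_nonpos (by linarith)
    have e7 : pp (t + τ - u4) = 0 := pp_of_nonpos (by linarith)
    have e8 : pp (t - τ - u4) = 0 := pp_of_nonpos (by linarith)
    simp only [hG, e1, e2, e3, e4, e5, e6, e7, e8]
    field_simp
    ring
  · simp only [Matrix.cons_val_one, Matrix.cons_val_zero]
    rintro t ⟨h1, h2⟩
    have e1 : pp (t + τ - u1) = t + τ - u1 := pp_of_nonneg (by linarith)
    have e2 : pp (t - τ - u1) = t - τ - u1 := pp_of_nonneg (by linarith)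
    have e3 : pp (t + τ - u2) = t + τ - u2 := pp_of_nonneg (by linarith)
    have e4 : pp (t - τ - u2) = t - τ - u2 := pp_of_nonneg (by linarith)
    have e5 : pp (t + τ - u3) = 0 := pp_of_nonpos (by linarith)
    have e6 : pp (t - τ - u3) = 0 := pp_of_nonpos (by linarith)
    have e7 : pp (t + τ - u4) = 0 := pp_of_nonpos (by linarith)
    have e8 : pp (t - τ - u4) = 0 := pp_of_nonpos (by linarith)
    simp only [hG, e1, e2, e3, e4, e5, e6, e7, e8]
    field_simp
    ring
  · simp only [Matrix.cons_val]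
    rintro t ⟨h1, h2⟩
    have e1 : pp (t + τ - u1) = t + τ - u1 := pp_of_nonneg (by linarith)
    have e2 : pp (t - τ - u1) = t - τ - u1 := pp_of_nonneg (by linarith)
    have e3 : pp (t + τ - u2) = t + τ - u2 := pp_of_nonneg (by linarith)
    have e4 : pp (t - τ - u2) = t - τ - u2 := pp_of_nonneg (by linarith)
    have e5 : pp (t + τ - u3) = t + τ - u3 := pp_of_nonneg (by linarith)
    have e6 : pp (t - τ - u3) = t - τ - u3 := pp_of_nonneg (by linarith)
    have e7 : pp (t + τ - u4) = 0 := pp_of_nonpos (by linarith)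
    have e8 : pp (t - τ - u4) = 0 := pp_of_nonpos (by linarith)
    simp only [hG, e1, e2, e3, e4, e5, e6, e7, e8]
    field_simp
    ring
  · simp only [Matrix.cons_val_zero, Matrix.cons_val]
    have e1 : β / (α + β) = 2 * p + 4 * τ * (β / (α + β)) := by
      rw [hp]; field_simp; ring
    have e2 : β / (α + β) ≤ 1 := by rw [div_le_one hαβ]; linarith
    have e3 : 4 * τ * (β / (α + β)) ≤ 4 * τ := by nlinarith
    simp only [hu1, hu2, hu3, hu4]
    linarith
  · simp only [Matrix.cons_val_one, Matrix.cons_val_zero]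
    have e1 : α / (α + β) = q + 4 * τ * (α / (α + β)) := by
      rw [hq]; field_simp; ring
    have e2 : α / (α + β) ≤ 1 := by rw [div_le_one hαβ]; linarith
    have e3 : 4 * τ * (α / (α + β)) ≤ 4 * τ := by nlinarith
    simp only [hu2, hu3]
    linarith

/-- Derivatives vanish where the function vanishes on a neighbourhood. -/
theorem deriv_zero_of_zero {φ φ1 φ2 : ℝ → ℝ} (h1 : ∀ t, HasDerivAt φ (φ1 t) t)
    (h2 : ∀ t, HasDerivAt φ1 (φ2 t) t) {S : Set ℝ} (hS : IsOpen S) (h : ∀ t ∈ S, φ t = 0) :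
    ∀ t ∈ S, φ1 t = 0 ∧ φ2 t = 0 := by
  have h3 : ∀ t ∈ S, φ1 t = 0 := by
    intro t ht
    have h4 : HasDerivAt φ 0 t := by
      refine (hasDerivAt_const t (0 : ℝ)).congr_of_eventuallyEq ?_
      filter_upwards [hS.mem_nhds ht] with s hs
      exact h s hs
    exact (h1 t).unique h4
  intro t ht
  refine ⟨h3 t ht, ?_⟩
  have h4 : HasDerivAt φ1 0 t := by
    refine (hasDerivAt_const t (0 : ℝ)).congr_of_eventuallyEq ?_
    filter_upwards [hS.mem_nhds ht] with s hs
    exact h3 s hs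
  exact (h2 t).unique h4

/-- Cut-off functions. -/
theorem exists_cutoff {l h τ : ℝ} (hτ : 0 < τ) (hlh : 2 * τ < h - l) :
    ∃ χ χ1 χ2 : ℝ → ℝ, (∀ t, HasDerivAt χ (χ1 t) t) ∧ (∀ t, HasDerivAt χ1 (χ2 t) t) ∧
      (∀ t, 0 ≤ χ t ∧ χ t ≤ 1) ∧ (∀ t ∈ Set.Icc (l + τ) (h - τ), χ t = 1) ∧
      (∀ t, (t ≤ l + τ / 2 ∨ h - τ / 2 ≤ t) → χ t = 0) ∧ ∃ B, ∀ t, |χ2 t| ≤ B := by
  let f : ContDiffBump ((l + h) / 2 : ℝ) :=
    { rIn := (h - l) / 2 - τ, rOut := (h - l) / 2 - τ / 2, rIn_pos := by linarith,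
      rIn_lt_rOut := by linarith }
  have hf : ContDiff ℝ 2 (f : ℝ → ℝ) := f.contDiff
  have hf1 : ContDiff ℝ 1 (deriv (f : ℝ → ℝ)) := by
    have h12 : ContDiff ℝ (1 + 1) (f : ℝ → ℝ) := by
      rw [one_add_one_eq_two]; exact hf
    exact (contDiff_succ_iff_deriv.1 h12).2.2
  have hf2 : Continuous (deriv (deriv (f : ℝ → ℝ))) := hf1.continuous_deriv (by norm_num)
  have hd1 : ∀ t, HasDerivAt (f : ℝ → ℝ) (deriv (f : ℝ → ℝ) t) t := fun t =>
    ((hf.differentiable (by norm_num)) t).hasDerivAt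
  have hd2 : ∀ t, HasDerivAt (deriv (f : ℝ → ℝ)) (deriv (deriv (f : ℝ → ℝ)) t) t := fun t =>
    ((hf1.differentiable (by norm_num)) t).hasDerivAt
  have hzero : ∀ t, (t ≤ l + τ / 2 ∨ h - τ / 2 ≤ t) → f t = 0 := by
    intro t ht
    apply f.zero_of_le_dist
    rw [Real.dist_eq]
    change (h - l) / 2 - τ / 2 ≤ _
    rcases ht with ht | ht
    · rw [abs_of_nonpos (by linarith)]; linarith
    · rw [abs_of_nonneg (by linarith)]; linarith
  refine ⟨f, deriv f, deriv (deriv f), hd1, hd2, fun t => ⟨f.nonneg, f.le_one⟩, ?_, hzero, ?_⟩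
  · intro t ht
    apply f.one_of_mem_closedBall
    rw [Metric.mem_closedBall, Real.dist_eq]
    change _ ≤ (h - l) / 2 - τ
    rw [abs_le]
    constructor <;> linarith [ht.1, ht.2]
  · obtain ⟨B, hB⟩ := (isCompact_Icc (a := l) (b := h)).exists_bound_of_continuousOn
      hf2.continuousOn
    refine ⟨max B 0, fun t => ?_⟩
    by_cases ht : t ∈ Set.Icc l h
    · exact (by simpa using hB t ht : |deriv (deriv f) t| ≤ B).trans (le_max_left _ _)
    · have h3 : deriv (deriv (f : ℝ → ℝ)) t = 0 := by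
        have h4 := deriv_zero_of_zero hd1 hd2 (S := Set.Iio (l + τ / 2) ∪ Set.Ioi (h - τ / 2))
          (isOpen_Iio.union isOpen_Ioi) (fun s hs => hzero s (by
            rcases hs with hs | hs
            · exact Or.inl (le_of_lt hs)
            · exact Or.inr (le_of_lt hs)))
        refine (h4 t ?_).2
        rw [Set.mem_Icc, not_and_or, not_le, not_le] at ht
        rcases ht with ht | ht
        · exact Or.inl (by simp only [Set.mem_Iio]; linarith)
        · exact Or.inr (by simp only [Set.mem_Ioi]; linarith)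
      rw [h3, abs_zero]
      exact le_max_right _ _

/-- For functions supported in `(0, 1)` the sum of the integer translates has at most one
nonzero term. -/
theorem sum_translates (m : ℕ) (y : ℝ) :
    ∃ z : ℝ, ∀ ψ : ℝ → ℝ, (∀ t, (t ≤ 0 ∨ 1 ≤ t) → ψ t = 0) →
      ∑ k ∈ Finset.range m, ψ (y - k) = ψ z := by
  by_cases h : ∃ k ∈ Finset.range m, 0 < y - k ∧ y - k < 1
  · obtain ⟨k, hk, h1, h2⟩ := h
    refine ⟨y - k, fun ψ hψ => ?_⟩
    refine Finset.sum_eq_single k (fun j _ hj => hψ _ ?_) (fun h => absurd hk h)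
    rcases Nat.lt_or_gt_of_ne hj with hj | hj
    · right
      have : (j : ℝ) + 1 ≤ k := by exact_mod_cast hj
      linarith
    · left
      have : (k : ℝ) + 1 ≤ j := by exact_mod_cast hj
      linarith
  · push Not at h
    refine ⟨0, fun ψ hψ => ?_⟩
    rw [hψ 0 (Or.inl le_rfl)]
    refine Finset.sum_eq_zero fun k hk => hψ _ ?_
    rcases le_or_gt (y - k) 0 with h1 | h1
    · exact Or.inl h1
    · exact Or.inr (h k hk h1)

end Pool.Agent.Lib.MP_02db74_an
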