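import Pool.Agent.Lib.MP_02db74_an.Defs

/-!
Comparison of the Pucci operators with linear operators with diagonal coefficient matrices.
-/

open MeasureTheory Metric

namespace Pool.Agent.Lib.MP_02db74_an

variable {n : ℕ}

theorem diag_eq {X : Matrix (Fin n) (Fin n) ℝ} (hX : X.IsHermitian) (i : Fin n) :
    X i i = ∑ k, hX.eigenvalues k * (hX.eigenvectorBasis k i) ^ 2 := by
  have h := congrFun (congrFun hX.spectral_theorem i) i
  rw [h]
  simp only [Unitary.conjStarAlgAut_apply, Matrix.mul_apply, Matrix.diagonal_apply,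
    Matrix.IsHermitian.eigenvectorUnitary_apply, Matrix.star_apply, Function.comp_apply]
  refine Finset.sum_congr rfl fun k _ => ?_
  rw [Finset.sum_eq_single k]
  · simp
    ring
  · intro b _ hb
    simp [hb]
  · simp

theorem sum_sq_basis {X : Matrix (Fin n) (Fin n) ℝ} (hX : X.IsHermitian) (k : Fin n) :
    ∑ i, (hX.eigenvectorBasis k i) ^ 2 = 1 := by
  have h := hX.eigenvectorBasis.orthonormal.1 k
  rw [EuclideanSpace.norm_eq, Real.sqrt_eq_one] at h
  simpa using h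

theorem sum_diag_eq {X : Matrix (Fin n) (Fin n) ℝ} (hX : X.IsHermitian) (a : Fin n → ℝ) :
    ∑ i, a i * X i i = ∑ k, hX.eigenvalues k * ∑ i, a i * (hX.eigenvectorBasis k i) ^ 2 := by
  simp_rw [diag_eq hX, Finset.mul_sum]
  rw [Finset.sum_comm]
  refine Finset.sum_congr rfl fun k _ => Finset.sum_congr rfl fun i _ => ?_
  ring

theorem weight_mem {X : Matrix (Fin n) (Fin n) ℝ} (hX : X.IsHermitian) {lam Lam : ℝ}
    {a : Fin n → ℝ} (ha : ∀ i, lam ≤ a i ∧ a i ≤ Lam) (k : Fin n) :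
    lam ≤ ∑ i, a i * (hX.eigenvectorBasis k i) ^ 2 ∧
      ∑ i, a i * (hX.eigenvectorBasis k i) ^ 2 ≤ Lam := by
  have h := sum_sq_basis hX k
  constructor
  · calc lam = ∑ i, lam * (hX.eigenvectorBasis k i) ^ 2 := by rw [← Finset.mul_sum, h, mul_one]
      _ ≤ _ := Finset.sum_le_sum fun i _ => mul_le_mul_of_nonneg_right (ha i).1 (sq_nonneg _)
  · calc _ ≤ ∑ i, Lam * (hX.eigenvectorBasis k i) ^ 2 :=
          Finset.sum_le_sum fun i _ => mul_le_mul_of_nonneg_right (ha i).2 (sq_nonneg _)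
      _ = Lam := by rw [← Finset.mul_sum, h, mul_one]

theorem pucciMinus_le {X : Matrix (Fin n) (Fin n) ℝ} (hX : X.IsHermitian) {lam Lam : ℝ}
    {a : Fin n → ℝ} (ha : ∀ i, lam ≤ a i ∧ a i ≤ Lam) :
    pucciMinus lam Lam X ≤ ∑ i, a i * X i i := by
  rw [pucciMinus, dif_pos hX, sum_diag_eq hX]
  refine Finset.sum_le_sum fun k _ => ?_
  obtain ⟨h1, h2⟩ := weight_mem hX ha k
  split_ifs with hk
  · nlinarith
  · push Not at hk
    nlinarith

theorem le_pucciPlus {X : Matrix (Fin n) (Fin n) ℝ} (hX : X.IsHermitian) {lam Lam : ℝ}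
    {a : Fin n → ℝ} (ha : ∀ i, lam ≤ a i ∧ a i ≤ Lam) :
    ∑ i, a i * X i i ≤ pucciPlus lam Lam X := by
  rw [pucciPlus, dif_pos hX, sum_diag_eq hX]
  refine Finset.sum_le_sum fun k _ => ?_
  obtain ⟨h1, h2⟩ := weight_mem hX ha k
  split_ifs with hk
  · nlinarith
  · push Not at hk
    nlinarith

end Pool.Agent.Lib.MP_02db74_an
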