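import Pool.Agent.Lib.MP_02db74_an.Pucci
import Pool.Agent.Lib.MP_02db74_an.Reach

/-!
Pure second derivatives and the viscosity inequalities.
-/

open MeasureTheory Metric Filter Topology

namespace Pool.Agent.Lib.MP_02db74_an

variable {n : ℕ}

/-- `a` is the second derivative of `w` at `x` in the `i`-th coordinate direction. -/
def D2 (w : (Fin n → ℝ) → ℝ) (i : Fin n) (x : Fin n → ℝ) (a : ℝ) : Prop :=
  ∃ s' : ℝ → ℝ, (∀ᶠ t in 𝓝 (0 : ℝ), HasDerivAt (fun t => w (x + Pi.single i t)) (s' t) t) ∧
    HasDerivAt s' a 0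

theorem tendsto_line (x : Fin n → ℝ) (i : Fin n) :
    Tendsto (fun t : ℝ => x + Pi.single i t) (𝓝 0) (𝓝 x) := by
  have h0 : Continuous fun t : ℝ => (Pi.single i t : Fin n → ℝ) := by
    refine continuous_pi fun j => ?_
    by_cases hj : j = i
    · subst hj
      simp only [Pi.single_eq_same]
      exact continuous_id
    · simpa [Pi.single_apply, hj] using continuous_const
  have : Continuous fun t : ℝ => x + Pi.single i t := continuous_const.add h0
  have h := this.tendsto 0
  simpa using h

theorem D2.add {w v : (Fin n → ℝ) → ℝ} {i : Fin n} {x : Fin n → ℝ} {a b : ℝ}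
    (hw : D2 w i x a) (hv : D2 v i x b) : D2 (fun y => w y + v y) i x (a + b) := by
  obtain ⟨s, h1, h2⟩ := hw
  obtain ⟨r, h3, h4⟩ := hv
  refine ⟨fun t => s t + r t, ?_, h2.add h4⟩
  filter_upwards [h1, h3] with t h5 h6
  exact h5.add h6

theorem D2.of_eventually_zero {w : (Fin n → ℝ) → ℝ} {x : Fin n → ℝ} (h : ∀ᶠ y in 𝓝 x, w y = 0)
    (i : Fin n) : D2 w i x 0 := by
  refine ⟨fun _ => 0, ?_, hasDerivAt_const _ _⟩
  have h1 : ∀ᶠ t in 𝓝 (0 : ℝ), ∀ᶠ s in 𝓝 t, w (x + Pi.single i s) = 0 :=
    ((tendsto_line x i).eventually h).eventually_nhds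
  filter_upwards [h1] with t ht
  exact (hasDerivAt_const t (0 : ℝ)).congr_of_eventuallyEq ht

theorem D2.sum {ι : Type*} (S : Finset ι) {w : ι → (Fin n → ℝ) → ℝ} {i : Fin n}
    {x : Fin n → ℝ} {a : ι → ℝ} (h : ∀ k ∈ S, D2 (w k) i x (a k)) :
    D2 (fun y => ∑ k ∈ S, w k y) i x (∑ k ∈ S, a k) := by
  classical
  induction S using Finset.induction_on with
  | empty =>
    simp only [Finset.sum_empty]
    exact D2.of_eventually_zero (Eventually.of_forall fun _ => rfl) i
  | insert k S hk ih =>
    simp only [Finset.sum_insert hk]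
    exact (h k (Finset.mem_insert_self k S)).add
      (ih fun j hj => h j (Finset.mem_insert_of_mem hj))

/-- The necessary second order condition at a local minimum. -/
theorem nonneg_of_localMin {g s : ℝ → ℝ} {a : ℝ} (h1 : ∀ᶠ t in 𝓝 (0 : ℝ), HasDerivAt g (s t) t)
    (h2 : HasDerivAt s a 0) (hmin : IsLocalMin g 0) : 0 ≤ a := by
  by_contra ha
  push Not at ha
  have hs0 : s 0 = 0 := hmin.hasDerivAt_eq_zero h1.self_of_nhds
  have h3 : ∀ᶠ t in 𝓝[≠] (0 : ℝ), slope s 0 t < 0 :=
    (hasDerivAt_iff_tendsto_slope.1 h2).eventually_lt_const ha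
  rw [eventually_nhdsWithin_iff] at h3
  obtain ⟨δ, hδ, h4⟩ := Metric.eventually_nhds_iff.1 ((h1.and h3).and hmin)
  have h5 : ∀ t, |t| < δ → HasDerivAt g (s t) t := fun t ht => (h4 (by simpa using ht)).1.1
  have h6 : ∀ t, 0 < t → t < δ → s t < 0 := by
    intro t ht0 ht
    have h7 := (h4 (y := t) (by simpa [abs_of_pos ht0] using ht)).1.2 ht0.ne'
    rw [slope_def_field, hs0, sub_zero, sub_zero] at h7
    exact (div_neg_iff.1 h7).elim (fun h => absurd h.2 (not_lt.2 ht0.le)) fun h => h.1
  obtain ⟨ξ, ⟨hξ0, hξ1⟩, hξ⟩ := exists_hasDerivAt_eq_slope g s (a := 0) (b := δ / 2) (by positivity)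
    (fun t ht => (h5 t (by
      rw [abs_of_nonneg ht.1]; linarith [ht.2])).continuousAt.continuousWithinAt)
    (fun t ht => h5 t (by rw [abs_of_pos ht.1]; linarith [ht.2]))
  have h8 := (h4 (y := δ / 2) (by
    simp only [dist_zero_right, Real.norm_eq_abs]
    rw [abs_of_pos (by positivity)]; linarith)).2
  have h9 := h6 ξ hξ0 (by linarith)
  rw [hξ, sub_zero, div_neg_iff] at h9
  rcases h9 with h9 | h9
  · linarith [h9.2]
  · linarith [h9.1]

/-- Transfer of a function on `Fin n → ℝ` to the Euclidean space. -/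
def toE (w : (Fin n → ℝ) → ℝ) (x : E n) : ℝ := w (fun i => x i)

theorem toE_line (w : (Fin n → ℝ) → ℝ) (x : E n) (i : Fin n) (t : ℝ) :
    toE w (x + EuclideanSpace.single i t) = w ((fun j => x j) + Pi.single i t) := by
  unfold toE
  congr 1

theorem hasDerivAt_line (x : E n) (i : Fin n) (t : ℝ) :
    HasDerivAt (fun t : ℝ => x + EuclideanSpace.single i t) (EuclideanSpace.single i (1 : ℝ)) t := by
  have h : (fun t : ℝ => x + EuclideanSpace.single i t) =
      fun t : ℝ => x + t • EuclideanSpace.single i (1 : ℝ) := by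
    ext t j
    simp
  rw [h]
  have := ((hasDerivAt_id t).smul_const (EuclideanSpace.single i (1 : ℝ))).const_add x
  simpa using this

/-- Second derivative of a test function along a coordinate line. -/
theorem test_second {φ : E n → ℝ} (hφ : ContDiff ℝ 2 φ) (x : E n) (i : Fin n) :
    ∃ s : ℝ → ℝ, (∀ t, HasDerivAt (fun t => φ (x + EuclideanSpace.single i t)) (s t) t) ∧
      HasDerivAt s (hess φ x i i) 0 := by
  have hφ1 : ContDiff ℝ 1 (fderiv ℝ φ) := hφ.fderiv_right (by norm_num)
  refine ⟨fun t => fderiv ℝ φ (x + EuclideanSpace.single i t) (EuclideanSpace.single i 1),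
    fun t => ?_, ?_⟩
  · have h1 : HasFDerivAt φ (fderiv ℝ φ (x + EuclideanSpace.single i t))
        (x + EuclideanSpace.single i t) :=
      ((hφ.differentiable (by norm_num)) _).hasFDerivAt
    exact h1.comp_hasDerivAt t (hasDerivAt_line x i t)
  · have h1 : HasFDerivAt (fderiv ℝ φ) (fderiv ℝ (fderiv ℝ φ) (x + EuclideanSpace.single i 0))
        (x + EuclideanSpace.single i 0) :=
      ((hφ1.differentiable (by norm_num)) _).hasFDerivAt
    have h2 := h1.comp_hasDerivAt 0 (hasDerivAt_line x i 0)
    have h3 : x + EuclideanSpace.single i (0 : ℝ) = x := by simp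
    rw [h3] at h2
    have h4 := h2.clm_apply (hasDerivAt_const (0 : ℝ) (EuclideanSpace.single i (1 : ℝ)))
    simpa [hess] using h4

theorem hess_isHermitian {φ : E n → ℝ} (hφ : ContDiff ℝ 2 φ) (x : E n) :
    (hess φ x).IsHermitian := by
  have h : IsSymmSndFDerivAt ℝ φ x := hφ.contDiffAt.isSymmSndFDerivAt (by simp)
  ext i j
  simp only [Matrix.conjTranspose_apply, hess, Matrix.of_apply, star_trivial]
  exact h.eq _ _

theorem hess_le_of_localMin {w : (Fin n → ℝ) → ℝ} {φ : E n → ℝ} (hφ : ContDiff ℝ 2 φ) {x : E n}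
    (hmin : IsLocalMin (fun y => toE w y - φ y) x) {i : Fin n} {a : ℝ}
    (ha : D2 w i (fun j => x j) a) : hess φ x i i ≤ a := by
  obtain ⟨s, h1, h2⟩ := test_second hφ x i
  obtain ⟨r, h3, h4⟩ := ha
  have h5 : ∀ᶠ t in 𝓝 (0 : ℝ), HasDerivAt
      (fun t => toE w (x + EuclideanSpace.single i t) - φ (x + EuclideanSpace.single i t))
      (r t - s t) t := by
    filter_upwards [h3] with t ht
    simp only [toE_line]
    exact ht.sub (h1 t)
  have h6 := h4.sub h2
  have h7 : IsLocalMin (fun t : ℝ =>
      toE w (x + EuclideanSpace.single i t) - φ (x + EuclideanSpace.single i t)) 0 := by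
    have hc : Tendsto (fun t : ℝ => x + EuclideanSpace.single i t) (𝓝 0) (𝓝 x) := by
      have := (hasDerivAt_line x i 0).continuousAt.tendsto
      have e0 : x + EuclideanSpace.single i (0 : ℝ) = x := by simp
      rwa [e0] at this
    have h8 := hc.eventually hmin
    filter_upwards [h8] with t ht
    have ht' : toE w x - φ x ≤
      toE w (x + EuclideanSpace.single i t) - φ (x + EuclideanSpace.single i t) := ht
    have e0 : x + EuclideanSpace.single i (0 : ℝ) = x := by simp
    simp only [e0]
    linarith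
  have := nonneg_of_localMin h5 h6 h7
  linarith

theorem le_hess_of_localMax {w : (Fin n → ℝ) → ℝ} {φ : E n → ℝ} (hφ : ContDiff ℝ 2 φ) {x : E n}
    (hmax : IsLocalMax (fun y => toE w y - φ y) x) {i : Fin n} {a : ℝ}
    (ha : D2 w i (fun j => x j) a) : a ≤ hess φ x i i := by
  obtain ⟨s, h1, h2⟩ := test_second hφ x i
  obtain ⟨r, h3, h4⟩ := ha
  have h5 : ∀ᶠ t in 𝓝 (0 : ℝ), HasDerivAt
      (fun t => φ (x + EuclideanSpace.single i t) - toE w (x + EuclideanSpace.single i t))
      (s t - r t) t := by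
    filter_upwards [h3] with t ht
    simp only [toE_line]
    exact (h1 t).sub ht
  have h6 := h2.sub h4
  have h7 : IsLocalMin (fun t : ℝ =>
      φ (x + EuclideanSpace.single i t) - toE w (x + EuclideanSpace.single i t)) 0 := by
    have hc : Tendsto (fun t : ℝ => x + EuclideanSpace.single i t) (𝓝 0) (𝓝 x) := by
      have := (hasDerivAt_line x i 0).continuousAt.tendsto
      have e0 : x + EuclideanSpace.single i (0 : ℝ) = x := by simp
      rwa [e0] at this
    have h8 := hc.eventually hmax
    filter_upwards [h8] with t ht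
    have ht' : toE w (x + EuclideanSpace.single i t) - φ (x + EuclideanSpace.single i t) ≤
      toE w x - φ x := ht
    have e0 : x + EuclideanSpace.single i (0 : ℝ) = x := by simp
    simp only [e0]
    linarith
  have := nonneg_of_localMin h5 h6 h7
  linarith

theorem isOpen_cone (n : ℕ) (κ : ℝ) : IsOpen (Cone n κ) := by
  have h1 : Continuous fun v : Fin n → ℝ => ∑ i, max (v i) 0 := by fun_prop
  have h2 : Continuous fun v : Fin n → ℝ => ∑ i, max (-v i) 0 := by fun_prop
  exact (isOpen_lt h1 (h2.const_mul κ)).inter (isOpen_lt h2 (h1.const_mul κ))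

theorem max_eq (a : ℝ) : max a 0 - max (-a) 0 = a := by
  rcases le_total a 0 with h | h
  · rw [max_eq_right h, max_eq_left (by linarith)]; ring
  · rw [max_eq_left h, max_eq_right (by linarith)]; ring

theorem classS_of_D2 {lam Lam : ℝ} (hlam : 0 < lam) (hLam : lam ≤ Lam)
    {w : (Fin n → ℝ) → ℝ} (hw : Continuous w)
    (h : ∀ x : Fin n → ℝ, ∃ v ∈ Cone n (Lam / lam), ∀ i, D2 w i x (v i)) :
    ClassS n lam Lam (toE w) := by
  refine ⟨?_, ?_, ?_⟩
  · refine Continuous.continuousOn ?_
    have : Continuous fun x : E n => (fun i => x i : Fin n → ℝ) := by fun_prop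
    exact hw.comp this
  · intro x _ φ hφ hmin
    obtain ⟨v, ⟨hv1, hv2⟩, hv⟩ := h (fun j => x j)
    refine (pucciMinus_le (hess_isHermitian hφ x) (lam := lam) (Lam := Lam)
      (a := fun i => if 0 < v i then lam else Lam) (fun i => ?_)).trans ?_
    · split_ifs
      · exact ⟨le_rfl, hLam⟩
      · exact ⟨hLam, le_rfl⟩
    · have h1 : ∀ i, (if 0 < v i then lam else Lam) * hess φ x i i ≤
          lam * max (v i) 0 - Lam * max (-v i) 0 := by
        intro i
        have h2 := hess_le_of_localMin hφ hmin (hv i)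
        split_ifs with h3
        · rw [max_eq_left h3.le, max_eq_right (by linarith)]
          nlinarith
        · push Not at h3
          rw [max_eq_right h3, max_eq_left (by linarith)]
          nlinarith
      refine (Finset.sum_le_sum fun i _ => h1 i).trans ?_
      rw [Finset.sum_sub_distrib, ← Finset.mul_sum, ← Finset.mul_sum]
      have h4 : lam * ∑ i, max (v i) 0 < lam * (Lam / lam * ∑ i, max (-v i) 0) :=
        mul_lt_mul_of_pos_left hv1 hlam
      have h5 : lam * (Lam / lam * ∑ i, max (-v i) 0) = Lam * ∑ i, max (-v i) 0 := by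
        field_simp
      linarith
  · intro x _ φ hφ hmax
    obtain ⟨v, ⟨hv1, hv2⟩, hv⟩ := h (fun j => x j)
    refine le_trans ?_ (le_pucciPlus (hess_isHermitian hφ x) (lam := lam) (Lam := Lam)
      (a := fun i => if 0 < v i then Lam else lam) (fun i => ?_))
    · have h1 : ∀ i, Lam * max (v i) 0 - lam * max (-v i) 0 ≤
          (if 0 < v i then Lam else lam) * hess φ x i i := by
        intro i
        have h2 := le_hess_of_localMax hφ hmax (hv i)
        split_ifs with h3
        · rw [max_eq_left h3.le, max_eq_right (by linarith)]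
          nlinarith
        · push Not at h3
          rw [max_eq_right h3, max_eq_left (by linarith)]
          nlinarith
      refine le_trans ?_ (Finset.sum_le_sum fun i _ => h1 i)
      rw [Finset.sum_sub_distrib, ← Finset.mul_sum, ← Finset.mul_sum]
      have h4 : lam * ∑ i, max (-v i) 0 < lam * (Lam / lam * ∑ i, max (v i) 0) :=
        mul_lt_mul_of_pos_left hv2 hlam
      have h5 : lam * (Lam / lam * ∑ i, max (v i) 0) = Lam * ∑ i, max (v i) 0 := by
        field_simp
      linarith
    · split_ifs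
      · exact ⟨hLam, le_rfl⟩
      · exact ⟨le_rfl, hLam⟩

end Pool.Agent.Lib.MP_02db74_an
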