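import Pool.Agent.Lib.MP_02db74_an.Second
import Pool.Agent.Lib.MP_02db74_an.Profile

/-!
A single splitting step: an oscillating function with compact support in a box.
-/

open MeasureTheory Metric Filter Topology

namespace Pool.Agent.Lib.MP_02db74_an

variable {n : ℕ}

theorem D2.unique {w : (Fin n → ℝ) → ℝ} {i : Fin n} {x : Fin n → ℝ} {a b : ℝ}
    (ha : D2 w i x a) (hb : D2 w i x b) : a = b := by
  obtain ⟨s, h1, h2⟩ := ha
  obtain ⟨r, h3, h4⟩ := hb
  have h5 : s =ᶠ[𝓝 0] r := by
    filter_upwards [h1, h3] with t h5 h6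
    exact h5.unique h6
  exact (h2.congr_of_eventuallyEq h5.symm).unique h4

/-- The open box with corners `l` and `h`. -/
def box (l h : Fin n → ℝ) : Set (Fin n → ℝ) := Set.pi Set.univ fun j => Set.Ioo (l j) (h j)

theorem mem_box {l h x : Fin n → ℝ} : x ∈ box l h ↔ ∀ j, l j < x j ∧ x j < h j := by
  simp [box]

theorem isOpen_box (l h : Fin n → ℝ) : IsOpen (box l h) :=
  isOpen_set_pi Set.finite_univ fun _ _ => isOpen_Ioo

theorem volume_box {l h : Fin n → ℝ} (hlh : ∀ j, l j ≤ h j) :
    volume.real (box l h) = ∏ j, (h j - l j) :=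
  Real.volume_pi_Ioo_toReal hlh

theorem volume_box_ne_top (l h : Fin n → ℝ) : volume (box l h) ≠ ⊤ := by
  rw [box, Real.volume_pi_Ioo]
  exact ENNReal.prod_ne_top fun _ _ => ENNReal.ofReal_ne_top

theorem exists_tau (i : Fin n) {η : ℝ} (hη : 0 < η) {l h : Fin n → ℝ} (hlh : ∀ j, l j < h j) :
    ∃ τ > 0, (∀ j, 2 * τ < h j - l j) ∧
      (1 - η) * ∏ j ∈ Finset.univ.erase i, (h j - l j) ≤
        ∏ j ∈ Finset.univ.erase i, (h j - l j - 2 * τ) := by
  have h1 : ∀ᶠ τ in 𝓝 (0 : ℝ), ∀ j, 2 * τ < h j - l j := by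
    rw [eventually_all]
    intro j
    have hc : Continuous fun τ : ℝ => 2 * τ := by fun_prop
    refine (hc.tendsto 0).eventually_lt_const ?_
    simpa using hlh j
  have h2 : ∀ᶠ τ in 𝓝 (0 : ℝ), (1 - η) * ∏ j ∈ Finset.univ.erase i, (h j - l j) <
      ∏ j ∈ Finset.univ.erase i, (h j - l j - 2 * τ) := by
    have hc : Continuous fun τ : ℝ => ∏ j ∈ Finset.univ.erase i, (h j - l j - 2 * τ) := by
      fun_prop
    refine (hc.tendsto 0).eventually_const_lt ?_
    have hpos : 0 < ∏ j ∈ Finset.univ.erase i, (h j - l j) :=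
      Finset.prod_pos fun j _ => sub_pos.2 (hlh j)
    simp only [mul_zero, sub_zero]
    nlinarith
  have h3 : ∀ᶠ τ in 𝓝[>] (0 : ℝ), (∀ j, 2 * τ < h j - l j) ∧
      (1 - η) * ∏ j ∈ Finset.univ.erase i, (h j - l j) <
      ∏ j ∈ Finset.univ.erase i, (h j - l j - 2 * τ) :=
    (h1.and h2).filter_mono nhdsWithin_le_nhds
  obtain ⟨τ, h4, h5⟩ := (h3.and self_mem_nhdsWithin).exists
  exact ⟨τ, h5, h4.1, h4.2.le⟩

theorem prod_len_aux {θ η P P0 len : ℝ} (hη : 0 < η) (hθ : θ ≤ 1) (hP0 : 0 ≤ P0) (hP : 0 ≤ P)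
    (hlen : 0 ≤ len) (h1 : (1 - η / 2) * P0 ≤ P) (h2 : θ - η / 2 ≤ len) :
    (θ - η) * P0 ≤ P * len := by
  rcases le_or_gt (θ - η / 2) 0 with h3 | h3
  · have h4 : (θ - η) * P0 ≤ 0 := mul_nonpos_of_nonpos_of_nonneg (by linarith) hP0
    have h5 : 0 ≤ P * len := mul_nonneg hP hlen
    linarith
  · have h4 : P * (θ - η / 2) ≤ P * len := mul_le_mul_of_nonneg_left h2 hP
    have h5 : (1 - η / 2) * P0 * (θ - η / 2) ≤ P * (θ - η / 2) :=
      mul_le_mul_of_nonneg_right h1 h3.le
    have h6 : 0 ≤ P0 * (η / 2 * (1 - θ) + η ^ 2 / 4) := by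
      have : 0 ≤ 1 - θ := by linarith
      positivity
    nlinarith

theorem exists_split (i : Fin n) {α β η : ℝ} (hα : 0 < α) (hβ : 0 < β) (hη : 0 < η)
    {l h : Fin n → ℝ} (hlh : ∀ j, l j < h j) :
    ∃ (w : (Fin n → ℝ) → ℝ) (b : (Fin n → ℝ) → Fin n → ℝ) (m : ℕ)
      (L H : Fin m × Fin 3 → Fin n → ℝ),
      Continuous w ∧ (∀ x, |w x| ≤ η) ∧ (∀ x ∉ box l h, ∀ᶠ y in 𝓝 x, w y = 0) ∧
      (∀ x j, D2 w j x (b x j)) ∧
      (∀ x, ∃ t ∈ Set.Icc (-β) α, ∀ j, |b x j - (Pi.single i t : Fin n → ℝ) j| ≤ η) ∧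
      (∀ k j, L k j < H k j) ∧ (∀ k, box (L k) (H k) ⊆ box l h) ∧
      (Pairwise fun k k' => Disjoint (box (L k) (H k)) (box (L k') (H k'))) ∧
      (∀ k, ∀ x ∈ box (L k) (H k),
        b x = Pi.single i (if k.2 = 1 then -β else α)) ∧
      (β / (α + β) - η) * volume.real (box l h) ≤
        ∑ k, (if k.2 = 1 then 0 else volume.real (box (L k) (H k))) ∧
      (α / (α + β) - η) * volume.real (box l h) ≤
        ∑ k, (if k.2 = 1 then volume.real (box (L k) (H k)) else 0) := by
  classical
  have hη2 : 0 < η / 2 := by positivity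
  obtain ⟨φ, φ1, φ2, aa, bb, hφd, hφ1d, ⟨c, hc, hφc⟩, hφ2, ⟨ha0, hab0, hba0, hab1, hba1, hab2, hb2⟩,
    hp0, hp1, hp2, hlen0, hlen1⟩ := exists_profile hα hβ hη2
  obtain ⟨τ, hτ, hτlh, hτprod⟩ := exists_tau i hη2 hlh
  choose χ χ1 χ2 hχd hχ1d hχ01 hχ1 hχ0 Bχ hBχ using fun j => exists_cutoff hτ (hτlh j)
  -- bounds
  obtain ⟨B, hB0, hB⟩ : ∃ B, 0 ≤ B ∧ ∀ j t, |χ2 j t| ≤ B := by
    refine ⟨∑ j, |Bχ j|, Finset.sum_nonneg fun j _ => abs_nonneg _, fun j t => ?_⟩
    exact (hBχ j t).trans ((le_abs_self _).trans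
      (Finset.single_le_sum (f := fun j => |Bχ j|) (fun j _ => abs_nonneg _) (Finset.mem_univ j)))
  have hφcont : Continuous φ := by
    rw [continuous_iff_continuousAt]
    exact fun t => (hφd t).continuousAt
  have hφ0 : ∀ t, (t ≤ 0 ∨ 1 ≤ t) → φ t = 0 := fun t ht =>
    hφc t (by rcases ht with ht | ht; exacts [Or.inl (by linarith), Or.inr (by linarith)])
  obtain ⟨Bφ, hBφ0, hBφ⟩ : ∃ Bφ, 0 ≤ Bφ ∧ ∀ t, |φ t| ≤ Bφ := by
    obtain ⟨B', hB'⟩ := (isCompact_Icc (a := (0 : ℝ)) (b := 1)).exists_bound_of_continuousOn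
      hφcont.continuousOn
    refine ⟨max B' 0, le_max_right _ _, fun t => ?_⟩
    by_cases ht : t ∈ Set.Icc (0 : ℝ) 1
    · exact (by simpa using hB' t ht : |φ t| ≤ B').trans (le_max_left _ _)
    · rw [hφ0 t (by
        rw [Set.mem_Icc, not_and_or, not_le, not_le] at ht
        rcases ht with ht | ht
        · exact Or.inl ht.le
        · exact Or.inr ht.le), abs_zero]
      exact le_max_right _ _
  have hφ12 : ∀ t, (t ≤ 0 ∨ 1 ≤ t) → φ1 t = 0 ∧ φ2 t = 0 := by
    intro t ht
    refine deriv_zero_of_zero hφd hφ1d (S := Set.Iio c ∪ Set.Ioi (1 - c))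
      (isOpen_Iio.union isOpen_Ioi) (fun s hs => hφc s (by
        rcases hs with hs | hs
        · exact Or.inl (le_of_lt hs)
        · exact Or.inr (le_of_lt hs))) t ?_
    rcases ht with ht | ht
    · exact Or.inl (by simp only [Set.mem_Iio]; linarith)
    · exact Or.inr (by simp only [Set.mem_Ioi]; linarith)
  -- number of slabs
  obtain ⟨m, hm0, hm⟩ : ∃ m : ℕ, 0 < m ∧ ((h i - l i) / m) ^ 2 * (Bφ * (B + 1)) ≤ η := by
    have h1 : Tendsto (fun m : ℕ => ((h i - l i) / m) ^ 2 * (Bφ * (B + 1))) atTop (𝓝 0) := by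
      have h2 := (tendsto_const_div_atTop_nhds_zero_nat (h i - l i)).pow 2
      have h3 := h2.mul_const (Bφ * (B + 1))
      simpa using h3
    obtain ⟨m, h4, h5⟩ := ((h1.eventually_le_const hη).and (eventually_gt_atTop 0)).exists
    exact ⟨m, h5, h4⟩
  have hmR : (0 : ℝ) < m := by exact_mod_cast hm0
  set r : ℝ := (h i - l i) / m with hr
  have hr0 : 0 < r := div_pos (sub_pos.2 (hlh i)) hmR
  have hmr : m * r = h i - l i := by rw [hr]; field_simp
  -- the one-dimensional function
  set F : ℝ → ℝ := fun t => ∑ k ∈ Finset.range m, r ^ 2 * φ ((t - l i) / r - k) with hF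
  set F1 : ℝ → ℝ := fun t => ∑ k ∈ Finset.range m, r * φ1 ((t - l i) / r - k) with hF1
  set F2 : ℝ → ℝ := fun t => ∑ k ∈ Finset.range m, φ2 ((t - l i) / r - k) with hF2
  have haff : ∀ (k : ℕ) (t : ℝ), HasDerivAt (fun t => (t - l i) / r - k) (1 / r) t := by
    intro k t
    exact ((((hasDerivAt_id t).sub_const (l i)).div_const r).sub_const (k : ℝ))
  have hFd : ∀ t, HasDerivAt F (F1 t) t := by
    intro t
    simp only [hF, hF1]
    refine HasDerivAt.fun_sum fun k _ => ?_
    have h1 := ((hφd ((t - l i) / r - k)).comp t (haff k t)).const_mul (r ^ 2)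
    convert! h1 using 1
    field_simp
  have hF1d : ∀ t, HasDerivAt F1 (F2 t) t := by
    intro t
    simp only [hF1, hF2]
    refine HasDerivAt.fun_sum fun k _ => ?_
    have h1 := ((hφ1d ((t - l i) / r - k)).comp t (haff k t)).const_mul r
    convert! h1 using 1
    field_simp
  have hFb : ∀ t, |F t| ≤ r ^ 2 * Bφ := by
    intro t
    obtain ⟨z, hz⟩ := sum_translates m ((t - l i) / r)
    simp only [hF]
    rw [← Finset.mul_sum, hz φ hφ0, abs_mul, abs_of_nonneg (sq_nonneg r)]
    exact mul_le_mul_of_nonneg_left (hBφ z) (sq_nonneg r)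
  have hF2b : ∀ t, -β ≤ F2 t ∧ F2 t ≤ α := by
    intro t
    obtain ⟨z, hz⟩ := sum_translates m ((t - l i) / r)
    simp only [hF2]
    rw [hz φ2 fun s hs => (hφ12 s hs).2]
    exact hφ2 z
  -- the product cut-off
  set Z : (Fin n → ℝ) → ℝ := fun x => ∏ j ∈ Finset.univ.erase i, χ j (x j) with hZ
  have hZ01 : ∀ x, 0 ≤ Z x ∧ Z x ≤ 1 := fun x =>
    ⟨Finset.prod_nonneg fun j _ => (hχ01 j _).1, Finset.prod_le_one (fun j _ => (hχ01 j _).1)
      fun j _ => (hχ01 j _).2⟩
  set Z' : Fin n → (Fin n → ℝ) → ℝ :=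
    fun j x => ∏ k ∈ (Finset.univ.erase i).erase j, χ k (x k) with hZ'
  have hZ'01 : ∀ j x, 0 ≤ Z' j x ∧ Z' j x ≤ 1 := fun j x =>
    ⟨Finset.prod_nonneg fun j _ => (hχ01 j _).1, Finset.prod_le_one (fun j _ => (hχ01 j _).1)
      fun j _ => (hχ01 j _).2⟩
  set w : (Fin n → ℝ) → ℝ := fun x => Z x * F (x i) with hw
  set b : (Fin n → ℝ) → Fin n → ℝ := fun x j =>
    if j = i then Z x * F2 (x i) else χ2 j (x j) * Z' j x * F (x i) with hb
  -- boxes
  set L : Fin m × Fin 3 → Fin n → ℝ := fun k j =>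
    if j = i then l i + r * ((k.1 : ℕ) + aa k.2) else l j + τ with hL
  set H : Fin m × Fin 3 → Fin n → ℝ := fun k j =>
    if j = i then l i + r * ((k.1 : ℕ) + bb k.2) else h j - τ with hH
  have hab : ∀ s : Fin 3, 0 < aa s ∧ aa s < bb s ∧ bb s < 1 := by
    intro s
    fin_cases s
    · exact ⟨ha0, hab0, by simp only [Fin.zero_eta]; linarith⟩
    · exact ⟨by simp only [Fin.mk_one]; linarith, hab1, by simp only [Fin.mk_one]; linarith⟩
    · exact ⟨by simp only [Fin.reduceFinMk]; linarith, hab2, hb2⟩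
  have hcontF : Continuous F := by
    rw [continuous_iff_continuousAt]
    exact fun t => (hFd t).continuousAt
  have hcontχ : ∀ j, Continuous (χ j) := fun j => by
    rw [continuous_iff_continuousAt]
    exact fun t => (hχd j t).continuousAt
  have hrB : r ^ 2 * Bφ * (B + 1) ≤ η := by
    have := hm
    linarith
  have hrB1 : r ^ 2 * Bφ ≤ η := by
    have h1 : 0 ≤ r ^ 2 * Bφ := by positivity
    nlinarith
  have hyk : ∀ (k : Fin m × Fin 3) (x : Fin n → ℝ), x ∈ box (L k) (H k) →
      aa k.2 < (x i - l i) / r - (k.1 : ℕ) ∧ (x i - l i) / r - (k.1 : ℕ) < bb k.2 := by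
    intro k x hx
    have h1 := (mem_box.1 hx) i
    simp only [hL, hH, if_true] at h1
    constructor
    · have h2 : (k.1 : ℕ) + aa k.2 < (x i - l i) / r := by
        rw [lt_div_iff₀ hr0]; linarith [h1.1]
      linarith
    · have h2 : (x i - l i) / r < (k.1 : ℕ) + bb k.2 := by
        rw [div_lt_iff₀ hr0]; linarith [h1.2]
      linarith
  have hLH : ∀ k j, L k j < H k j := by
    intro k j
    simp only [hL, hH]
    split_ifs
    · have := (hab k.2).2.1
      have := mul_lt_mul_of_pos_left this hr0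
      linarith
    · have := hτlh j
      linarith
  set P : ℝ := ∏ j ∈ Finset.univ.erase i, (h j - l j - 2 * τ) with hP
  set P0 : ℝ := ∏ j ∈ Finset.univ.erase i, (h j - l j) with hP0
  have hPnn : 0 ≤ P := Finset.prod_nonneg fun j _ => by
    have := hτlh j
    linarith
  have hP0nn : 0 ≤ P0 := Finset.prod_nonneg fun j _ => by
    have := hlh j
    linarith
  have hvol : volume.real (box l h) = (h i - l i) * P0 := by
    rw [volume_box fun j => (hlh j).le, ← Finset.mul_prod_erase Finset.univ _ (Finset.mem_univ i)]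
  have hvk : ∀ k, volume.real (box (L k) (H k)) = r * (bb k.2 - aa k.2) * P := by
    intro k
    rw [volume_box fun j => (hLH k j).le,
      ← Finset.mul_prod_erase Finset.univ _ (Finset.mem_univ i)]
    congr 1
    · simp only [hL, hH, if_true]
      ring
    · refine Finset.prod_congr rfl fun j hj => ?_
      have hji : j ≠ i := (Finset.mem_erase.1 hj).1
      simp only [hL, hH, if_neg hji]
      ring
  have hαβ : 0 < α + β := by positivity
  refine ⟨w, b, m, L, H, ?_, ?_, ?_, ?_, ?_, hLH, ?_, ?_, ?_, ?_, ?_⟩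
  · -- continuity
    refine Continuous.mul ?_ (hcontF.comp (continuous_apply i))
    exact continuous_finsetProd _ fun j _ => (hcontχ j).comp (continuous_apply j)
  · -- bound
    intro x
    rw [hw]
    simp only
    rw [abs_mul, abs_of_nonneg (hZ01 x).1]
    calc Z x * |F (x i)| ≤ 1 * (r ^ 2 * Bφ) :=
          mul_le_mul (hZ01 x).2 (hFb _) (abs_nonneg _) zero_le_one
      _ ≤ η := by linarith
  · -- support
    intro x hx
    rw [mem_box] at hx
    push Not at hx
    obtain ⟨j, hj⟩ := hx
    by_cases hji : j = i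
    · subst hji
      -- direction `i`
      have hev : ∀ᶠ y in 𝓝 x, y j < l j + r * c ∨ h j - r * c < y j := by
        have hcj : Tendsto (fun y : Fin n → ℝ => y j) (𝓝 x) (𝓝 (x j)) :=
          (continuous_apply j).tendsto x
        rcases le_or_gt (x j) (l j) with h1 | h1
        · have : x j < l j + r * c := by have := mul_pos hr0 hc; linarith
          filter_upwards [hcj.eventually_lt_const this] with y hy
          exact Or.inl hy
        · have h2 := hj h1
          have : h j - r * c < x j := by have := mul_pos hr0 hc; linarith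
          filter_upwards [hcj.eventually_const_lt this] with y hy
          exact Or.inr hy
      filter_upwards [hev] with y hy
      have hF0 : F (y j) = 0 := by
        simp only [hF]
        refine Finset.sum_eq_zero fun k hk => ?_
        have hk' : (k : ℝ) + 1 ≤ m := by exact_mod_cast Finset.mem_range.1 hk
        rw [hφc _ ?_, mul_zero]
        rcases hy with hy | hy
        · left
          have h3 : (y j - l j) / r < c := by
            rw [div_lt_iff₀ hr0]; linarith
          have h4 : (0 : ℝ) ≤ k := k.cast_nonneg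
          linarith
        · right
          have h3 : (m : ℝ) - c < (y j - l j) / r := by
            rw [lt_div_iff₀ hr0]; nlinarith
          linarith
      simp only [hw, hF0, mul_zero]
    · have hcj : Tendsto (fun y : Fin n → ℝ => y j) (𝓝 x) (𝓝 (x j)) :=
        (continuous_apply j).tendsto x
      have hev : ∀ᶠ y in 𝓝 x, y j ≤ l j + τ / 2 ∨ h j - τ / 2 ≤ y j := by
        rcases le_or_gt (x j) (l j) with h1 | h1
        · have : x j < l j + τ / 2 := by linarith
          filter_upwards [hcj.eventually_lt_const this] with y hy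
          exact Or.inl hy.le
        · have h2 := hj h1
          have : h j - τ / 2 < x j := by linarith
          filter_upwards [hcj.eventually_const_lt this] with y hy
          exact Or.inr hy.le
      filter_upwards [hev] with y hy
      have hZ0 : Z y = 0 := by
        simp only [hZ]
        exact Finset.prod_eq_zero (Finset.mem_erase.2 ⟨hji, Finset.mem_univ j⟩) (hχ0 j _ hy)
      simp only [hw, hZ0, zero_mul]
  · -- second derivatives
    intro x j
    by_cases hji : j = i
    · subst hji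
      have hline : ∀ t : ℝ, w (x + Pi.single j t) = Z x * F (x j + t) := by
        intro t
        simp only [hw, hZ]
        congr 1
        · refine Finset.prod_congr rfl fun k hk => ?_
          have : k ≠ j := (Finset.mem_erase.1 hk).1
          simp [this]
        · simp
      refine ⟨fun t => Z x * F1 (x j + t), Eventually.of_forall fun t => ?_, ?_⟩
      · simp only [hline]
        exact ((hFd (x j + t)).comp_const_add (x j) t).const_mul (Z x)
      · have h1 := ((hF1d (x j + 0)).comp_const_add (x j) 0).const_mul (Z x)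
        simp only [hb, if_true]
        rwa [add_zero] at h1
    · have hmem : j ∈ Finset.univ.erase i := Finset.mem_erase.2 ⟨hji, Finset.mem_univ j⟩
      have hline : ∀ t : ℝ, w (x + Pi.single j t) = χ j (x j + t) * (Z' j x * F (x i)) := by
        intro t
        simp only [hw, hZ, hZ']
        rw [← Finset.mul_prod_erase _ _ hmem, mul_assoc]
        congr 1
        · simp
        · congr 1
          · refine Finset.prod_congr rfl fun k hk => ?_
            have : k ≠ j := (Finset.mem_erase.1 hk).1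
            simp [this]
          · have : i ≠ j := fun h => hji h.symm
            simp [this]
      refine ⟨fun t => χ1 j (x j + t) * (Z' j x * F (x i)), Eventually.of_forall fun t => ?_, ?_⟩
      · simp only [hline]
        exact ((hχd j (x j + t)).comp_const_add (x j) t).mul_const _
      · have h1 := ((hχ1d j (x j + 0)).comp_const_add (x j) 0).mul_const (Z' j x * F (x i))
        simp only [hb, if_neg hji]
        rw [add_zero] at h1
        rwa [mul_assoc]
  · -- near the segment
    intro x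
    refine ⟨Z x * F2 (x i), ?_, fun j => ?_⟩
    · obtain ⟨h1, h2⟩ := hF2b (x i)
      obtain ⟨h3, h4⟩ := hZ01 x
      constructor <;> nlinarith
    · by_cases hji : j = i
      · subst hji
        simp only [hb, if_true, Pi.single_eq_same, sub_self, abs_zero]
        exact hη.le
      · simp only [hb, if_neg hji, Pi.single_apply, sub_zero]
        rw [abs_mul, abs_mul, abs_of_nonneg (hZ'01 j x).1]
        have h1 := hB j (x j)
        have h2 := (hZ'01 j x).2
        have h3 := (hZ'01 j x).1
        have h4 := hFb (x i)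
        have h5 : |χ2 j (x j)| * Z' j x ≤ B * 1 :=
          mul_le_mul h1 h2 h3 hB0
        calc |χ2 j (x j)| * Z' j x * |F (x i)| ≤ (B * 1) * (r ^ 2 * Bφ) :=
              mul_le_mul h5 h4 (abs_nonneg _) (by positivity)
          _ ≤ η := by
              have : 0 ≤ r ^ 2 * Bφ := by positivity
              nlinarith
  · -- inclusion
    intro k x hx
    rw [mem_box] at hx ⊢
    intro j
    have h1 := hx j
    simp only [hL, hH] at h1
    have hk0 : (0 : ℝ) ≤ (k.1 : ℕ) := Nat.cast_nonneg _
    have hk1 : (((k.1 : ℕ) : ℝ)) + 1 ≤ m := by exact_mod_cast k.1.2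
    obtain ⟨h2, h3, h4⟩ := hab k.2
    split_ifs at h1 with hji
    · subst hji
      constructor
      · have : 0 < r * ((k.1 : ℕ) + aa k.2) := mul_pos hr0 (by linarith)
        linarith [h1.1]
      · have : r * ((k.1 : ℕ) + bb k.2) < r * m := mul_lt_mul_of_pos_left (by linarith) hr0
        linarith [h1.2]
    · constructor <;> linarith [h1.1, h1.2]
  · -- disjointness
    intro k k' hkk'
    rw [Set.disjoint_left]
    intro x hx hx'
    apply hkk'
    obtain ⟨h1, h2⟩ := hyk k x hx
    obtain ⟨h3, h4⟩ := hyk k' x hx'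
    obtain ⟨h5, h6, h7⟩ := hab k.2
    obtain ⟨h8, h9, h10⟩ := hab k'.2
    have hk1 : (k.1 : ℕ) = k'.1 := by
      rcases lt_trichotomy (k.1 : ℕ) k'.1 with hlt | heq | hgt
      · exfalso
        have : ((k.1 : ℕ) : ℝ) + 1 ≤ (k'.1 : ℕ) := by exact_mod_cast hlt
        linarith
      · exact heq
      · exfalso
        have : ((k'.1 : ℕ) : ℝ) + 1 ≤ (k.1 : ℕ) := by exact_mod_cast hgt
        linarith
    have hk2 : k.2 = k'.2 := by
      rw [← hk1] at h3 h4
      generalize hs : k.2 = s at *
      generalize hs' : k'.2 = s' at *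
      fin_cases s <;> fin_cases s' <;> first | rfl | (exfalso; simp at h1 h2 h3 h4; linarith)
    exact Prod.ext (Fin.ext hk1) hk2
  · -- values on the boxes
    intro k x hx
    obtain ⟨h1, h2⟩ := hyk k x hx
    obtain ⟨h5, h6, h7⟩ := hab k.2
    have hxbox := mem_box.1 hx
    have hZ1 : Z x = 1 := by
      simp only [hZ]
      refine Finset.prod_eq_one fun j hj => hχ1 j _ ?_
      have hji : j ≠ i := (Finset.mem_erase.1 hj).1
      have h8 := hxbox j
      simp only [hL, hH, if_neg hji] at h8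
      exact ⟨h8.1.le, h8.2.le⟩
    have hF2x : F2 (x i) = φ2 ((x i - l i) / r - (k.1 : ℕ)) := by
      simp only [hF2]
      refine Finset.sum_eq_single (k.1 : ℕ) (fun j _ hj => (hφ12 _ ?_).2)
        (fun h => absurd (Finset.mem_range.2 k.1.2) h)
      rcases Nat.lt_or_gt_of_ne hj with hj | hj
      · right
        have : (j : ℝ) + 1 ≤ (k.1 : ℕ) := by exact_mod_cast hj
        linarith
      · left
        have : ((k.1 : ℕ) : ℝ) + 1 ≤ j := by exact_mod_cast hj
        linarith
    funext j
    by_cases hji : j = i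
    · subst hji
      simp only [hb, if_true, Pi.single_eq_same, hZ1, one_mul, hF2x]
      generalize hs : k.2 = s at *
      fin_cases s
      · simp only [Fin.zero_eta, zero_ne_one, if_false]
        exact hp0 _ ⟨h1, h2⟩
      · simp only [Fin.mk_one, if_true]
        exact hp1 _ ⟨h1, h2⟩
      · simp only [Fin.reduceFinMk, Fin.reduceEq, if_false]
        exact hp2 _ ⟨h1, h2⟩
    · have h8 := hxbox j
      simp only [hL, hH, if_neg hji] at h8
      have h9 : χ2 j (x j) = 0 := by
        refine (deriv_zero_of_zero (φ := fun t => χ j t - 1) (φ1 := χ1 j) (φ2 := χ2 j)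
          (fun t => (hχd j t).sub_const 1) (hχ1d j) (S := Set.Ioo (l j + τ) (h j - τ))
          isOpen_Ioo (fun s hs => ?_) (x j) h8).2
        rw [hχ1 j s ⟨hs.1.le, hs.2.le⟩, sub_self]
      simp only [hb, if_neg hji, h9, zero_mul, Pi.single_apply]
  · rw [Fintype.sum_prod_type]
    have h1 : ∀ k1 : Fin m, ∑ s : Fin 3, (if ((k1, s) : Fin m × Fin 3).2 = 1 then (0 : ℝ) else
        volume.real (box (L (k1, s)) (H (k1, s)))) =
        r * P * ((bb 0 - aa 0) + (bb 2 - aa 2)) := by
      intro k1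
      rw [Fin.sum_univ_three]
      simp only [hvk, zero_ne_one, if_false, if_true, Fin.reduceEq]
      ring
    rw [Finset.sum_congr rfl fun k1 _ => h1 k1, Finset.sum_const, Finset.card_univ,
      Fintype.card_fin, nsmul_eq_mul, hvol]
    have h2 := prod_len_aux (θ := β / (α + β)) hη (by rw [div_le_one hαβ]; linarith) hP0nn hPnn
      (len := (bb 0 - aa 0) + (bb 2 - aa 2)) (by linarith) hτprod hlen0
    have h3 := mul_le_mul_of_nonneg_left h2 (sub_pos.2 (hlh i)).le
    calc (β / (α + β) - η) * ((h i - l i) * P0) = (h i - l i) * ((β / (α + β) - η) * P0) := by ring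
      _ ≤ (h i - l i) * (P * ((bb 0 - aa 0) + (bb 2 - aa 2))) := h3
      _ = m * r * (P * ((bb 0 - aa 0) + (bb 2 - aa 2))) := by rw [hmr]
      _ = _ := by ring
  · rw [Fintype.sum_prod_type]
    have h1 : ∀ k1 : Fin m, ∑ s : Fin 3, (if ((k1, s) : Fin m × Fin 3).2 = 1 then
        volume.real (box (L (k1, s)) (H (k1, s))) else (0 : ℝ)) =
        r * P * (bb 1 - aa 1) := by
      intro k1
      rw [Fin.sum_univ_three]
      simp only [hvk, zero_ne_one, if_false, if_true, Fin.reduceEq]
      ring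
    rw [Finset.sum_congr rfl fun k1 _ => h1 k1, Finset.sum_const, Finset.card_univ,
      Fintype.card_fin, nsmul_eq_mul, hvol]
    have h2 := prod_len_aux (θ := α / (α + β)) hη (by rw [div_le_one hαβ]; linarith) hP0nn hPnn
      (len := bb 1 - aa 1) (by linarith) hτprod hlen1
    have h3 := mul_le_mul_of_nonneg_left h2 (sub_pos.2 (hlh i)).le
    calc (α / (α + β) - η) * ((h i - l i) * P0) = (h i - l i) * ((α / (α + β) - η) * P0) := by ring
      _ ≤ (h i - l i) * (P * (bb 1 - aa 1)) := h3
      _ = m * r * (P * (bb 1 - aa 1)) := by rw [hmr]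
      _ = _ := by ring

end Pool.Agent.Lib.MP_02db74_an
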